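import Pool.Agent.H964.LF.Defs

set_option autoImplicit false

namespace Pool.Agent.H964.LF

open MeasureTheory
open scoped ENNReal

noncomputable section

/-- one-dimensional Prekopa-Leindler -/
def S_PL1 : Prop := ∀ f g h : ℝ → ℝ≥0∞, Measurable f → Measurable g → Measurable h →
  (∀ s t : ℝ, f s * g t ≤ h ((s + t) / 2) ^ 2) →
  (∫⁻ s, f s) * (∫⁻ t, g t) ≤ (∫⁻ s, h s) ^ 2

/-- Prekopa-Leindler for marginals -/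
def S_PLM : Prop := ∀ (ι : Type) [DecidableEq ι] (s : Finset ι) (f g h : (ι → ℝ) → ℝ≥0∞),
  Measurable f → Measurable g → Measurable h →
  (∀ x y : ι → ℝ, f x * g y ≤ h (mid x y) ^ 2) →
  ∀ x y : ι → ℝ, mg s f x * mg s g y ≤ mg s h (mid x y) ^ 2

/-- small mass near the extreme slopes -/
def S_ENDP : Prop := ∀ (ι : Type) [DecidableEq ι] (s : Finset ι) (f : (ι → ℝ) → ℝ≥0∞)
  (a b : ι) (r : ℝ), Measurable f → (∀ x y : ι → ℝ, f x * f y ≤ f (mid x y) ^ 2) →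
  (∀ x, f (-x) = f x) → a ∈ s → b ∈ s → a ≠ b → (∀ x, f x ≠ 0 → |x a - x b| ≤ 2) →
  0 < r → r ≤ 1 →
  mg s ({x : ι → ℝ | 2 - r ≤ |x a - x b|}.indicator f) 0 ≤ ENNReal.ofReal (2 * r) * mg s f 0

/-- basic facts -/
def S_BAS : Prop := ∀ d n : ℕ, 1 ≤ d →
  (∀ (v : Tor d n) (a : Fin d × Bool), par (nb v a) = par v + 1) ∧
  (∀ (v : Tor d n) (x : Tor d n → ℝ), 0 ≤ Len x v ∧ Len x v ≤ 2) ∧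
  (∀ p : Tor d n, Measurable (FF p)) ∧
  (∀ (p : Tor d n) (x : Tor d n → ℝ), FF p (-x) = FF p x) ∧
  (∀ (p : Tor d n) (x y : Tor d n → ℝ), FF p x * FF p y ≤ FF p (mid x y) ^ 2) ∧
  (∀ (p : Tor d n) (x y : Tor d n → ℝ), par p = 1 → (∀ v, par v = 1 → x v = y v) →
    FF p x = FF p y)

/-- the event depends only on the odd coordinates -/
def dodd {d n : ℕ} (E : Set (Tor d n → ℝ)) : Prop :=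
  ∀ x y : Tor d n → ℝ, (∀ v, par v = 1 → x v = y v) → (x ∈ E ↔ y ∈ E)

/-- decimation -/
def S_DEC : Prop := ∀ (d n : ℕ) (p : Tor d n) (E : Set (Tor d n → ℝ)) (x0 : Tor d n → ℝ),
  1 ≤ d → par p = 1 → MeasurableSet E → dodd E →
  vl p E = mg (od d n) (E.indicator (FF p)) x0

/-- steep edges at vertices of one parity -/
def S_STEEP : Prop := ∀ (d n : ℕ) (p : Tor d n) (c : ZMod 2) (U : Finset (Tor d n))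
  (a : Tor d n → Fin d × Bool) (δ : Tor d n → ℝ), 1 ≤ d → 1 ≤ n →
  (∀ u ∈ U, par u = c) → (∀ u ∈ U, 0 < δ u ∧ δ u ≤ 1) →
  vl p {ψ | ∀ u ∈ U, 1 - δ u ≤ |ψ (nb u (a u)) - ψ u|} ≤
    (∏ u ∈ U, ENNReal.ofReal (Real.sqrt (128 * (d : ℝ) ^ 2 * δ u))) * vl p Set.univ

/-- moving the pin -/
def S_PIN : Prop := ∀ (d n : ℕ),
  (∀ E : Set (Tor d n → ℝ), MeasurableSet E →
    (∀ ψ ∈ E, ∀ c : ℝ, (fun v => ψ v + c) ∈ E) →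
    (∀ p q : Tor d n, vl p E = vl q E) ∧
    vl 0 E = volume {ψ : Tor d n → ℝ | 0 ≤ ψ 0 ∧ ψ 0 ≤ 1 ∧ Lip ψ ∧ ψ ∈ E}) ∧
  (∀ p : Tor d n, vl p Set.univ ≠ 0 ∧ vl p Set.univ ≠ ⊤)

/-- steep edges -/
def S_STEEP2 : Prop := ∀ (d n : ℕ) (p : Tor d n) (A : Finset (Tor d n × Fin d))
  (δ : Tor d n × Fin d → ℝ), 1 ≤ d → 1 ≤ n → (∀ e ∈ A, 0 < δ e ∧ δ e ≤ 1) →
  vl p {ψ | ∀ e ∈ A, 1 - δ e ≤ |ψ (e.1 + Pi.single e.2 1) - ψ e.1|} ≤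
    (∏ e ∈ A, ENNReal.ofReal ((128 * (d : ℝ) ^ 2 * δ e) ^ ((1 : ℝ) / (4 * d)))) * vl p Set.univ

/-- gain at one vertex -/
def S_GV : Prop := ∀ (A : Type) [Fintype A] (x y : A → ℝ) (a b : A), a ≠ b →
  (∀ c, c ≠ a → x c + 1 / 16 ≤ x a) → (∀ c, c ≠ b → x b + 1 / 16 ≤ x c) →
  max 0 (2 - (⨆ c, x c) + ⨅ c, x c) * max 0 (2 - (⨆ c, y c) + ⨅ c, y c) *
    Real.exp (((x a - y a) - (x b - y b)) ^ 2 / 768) ≤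
    (max 0 (2 - (⨆ c, (x c + y c) / 2) + ⨅ c, (x c + y c) / 2)) ^ 2

open Classical in
/-- gain along nice coarse edges -/
def S_GAIN : Prop := ∀ (d n : ℕ) (p τ : Tor d n) (K J R : ℕ) (x y : Tor d n → ℝ),
  1 ≤ d → Conf τ K J R →
  FF p x * FF p y * ENNReal.ofReal (Real.exp (2 * ∑ k ∈ Grid d J, ∑ i : Fin d,
    if k i + 1 < 2 ^ J ∧ x ∈ Nev τ K k i then
      ((x (ctr τ K (sx k i)) - y (ctr τ K (sx k i))) - (x (ctr τ K k) - y (ctr τ K k))) ^ 2 /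
        (768 * K) else 0)) ≤ FF p (mid x y) ^ 2

/-- the event depends only on the skeleton -/
def dsk {d n : ℕ} (τ : Tor d n) (K J : ℕ) (E : Set (Tor d n → ℝ)) : Prop :=
  ∀ x y : Tor d n → ℝ, (∀ v ∈ Sk τ K J, x v = y v) → (x ∈ E ↔ y ∈ E)

/-- the core inequality -/
def S_CORE : Prop := ∀ (d n : ℕ) (p τ : Tor d n) (K J R : ℕ) (E1 E2 : Set (Tor d n → ℝ)) (Γ : ℝ),
  1 ≤ d → Conf τ K J R → p ∈ Sk τ K J → MeasurableSet E1 → MeasurableSet E2 →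
  dsk τ K J E1 → dsk τ K J E2 → 0 ≤ Γ →
  (∀ x ∈ E1, ∀ y ∈ E2, mg (Yk τ K J) (FF p) x ≠ 0 → mg (Yk τ K J) (FF p) y ≠ 0 →
    ENNReal.ofReal Γ * mg (Yk τ K J) (FF p) x ≤ ∑ k ∈ Grid d J, ∑ i : Fin d,
      if k i + 1 < 2 ^ J then
        ENNReal.ofReal (((x (ctr τ K (sx k i)) - y (ctr τ K (sx k i))) -
          (x (ctr τ K k) - y (ctr τ K k))) ^ 2 / (768 * K)) *
          mg (Yk τ K J) ((Nev τ K k i).indicator (FF p)) x else 0) →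
  vl p E1 * vl p E2 * ENNReal.ofReal (Real.exp (2 * Γ)) ≤ vl p Set.univ ^ 2

/-- `a` is the maximum and `b` the minimum of `u` over the neighbours of `v`, margin 1/8 -/
def ExtZ {d : ℕ} (u : (Fin d → ℤ) → ℝ) (v : Fin d → ℤ) (a b : Fin d × Bool) : Prop :=
  (∀ c, c ≠ a → u (nz v c) + 1 / 8 ≤ u (nz v a)) ∧
  (∀ c, c ≠ b → u (nz v b) + 1 / 8 ≤ u (nz v c))

/-- goodness of a configuration on a box of `ℤ^d` -/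
def GdZ {d : ℕ} (X : (Fin d → ℤ) → ℝ) (δ δ0 : ℝ) (k0 R : ℕ) : Prop :=
  ∀ z z' : Fin d → ℤ, bx (R + 2) z → bx (R + 2) z' → Even (∑ j, z j) → Even (∑ j, z' j) →
    |X z - X z'| ≤ (1 - δ) * (l1 (z - z') : ℝ) ∧
    ((k0 : ℤ) ≤ l1 (z - z') → |X z - X z'| ≤ (1 - δ0) * (l1 (z - z') : ℝ))

/-- resampling geometry in `ℤ^d` -/
def S_RG : Prop := ∀ (d : ℕ) (i : Fin d) (K R k0 : ℕ) (δ δ0 : ℝ) (Kp : Set (Fin d → ℤ))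
  (X : (Fin d → ℤ) → ℝ),
  4 ∣ K → 0 < K → 0 < δ → δ ≤ δ0 / 2 → δ0 ≤ 1 / 8 → 8 ≤ K * δ0 → 20 * K ≤ R * δ0 → k0 ≤ K →
  (∀ z ∈ Kp, ∀ j, (K : ℤ) ∣ z j) → (0 : Fin d → ℤ) ∈ Kp →
  (Pi.single i (K : ℤ) : Fin d → ℤ) ∈ Kp → GdZ X δ δ0 k0 R →
  ∃ u : (Fin d → ℤ) → ℝ,
    (∀ z z' : Fin d → ℤ, bx (R + 2) z → bx (R + 2) z' → Even (∑ j, z j) → Even (∑ j, z' j) →
      |u z - u z'| ≤ (1 - δ) * (l1 (z - z') : ℝ)) ∧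
    (∀ z : Fin d → ℤ, bx (R + 2) z → Even (∑ j, z j) → (z ∈ Kp ∨ ¬ bx R z) → u z = X z) ∧
    (∀ s < K / 2,
      ExtZ u (Pi.single i ((2 * s + 1 : ℕ) : ℤ)) (i, true) (i, false) ∨
      ExtZ u (Pi.single i ((2 * s + 1 : ℕ) : ℤ)) (i, false) (i, true))

/-- resampling -/
def S_RES : Prop := ∀ (d K R k0 : ℕ) (δ δ0 : ℝ), 1 ≤ d → 4 ∣ K → 0 < K → 0 < δ →
  δ ≤ δ0 / 2 → δ0 ≤ 1 / 8 → 8 ≤ K * δ0 → 20 * K ≤ R * δ0 → k0 ≤ K →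
  ∃ θ : ℝ, 0 < θ ∧ ∀ (n J : ℕ) (p τ : Tor d n) (k : Site d) (i : Fin d) (x : Tor d n → ℝ),
    Conf τ K J R → p ∈ Sk τ K J → k ∈ Grid d J → k i + 1 < 2 ^ J →
    ENNReal.ofReal θ * mg (Yk τ K J) ((Gd τ K k δ δ0 k0 R).indicator (FF p)) x ≤
      mg (Yk τ K J) ((Nev τ K k i).indicator (FF p)) x

/-- patterns of steep edges forced by a bad box -/
def S_GPA : Prop := ∀ d : ℕ, 1 ≤ d → ∃ (δ0 : ℝ) (N : ℕ), 0 < δ0 ∧ δ0 ≤ 1 / 8 ∧ 1 ≤ N ∧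
  ∀ ε : ℝ, 0 < ε → ∃ (K0 R : ℕ) (δ : ℝ),
  4 ∣ K0 ∧ 16 ≤ K0 ∧ 8 ≤ K0 * δ0 ∧ 40 * K0 ≤ R * δ0 ∧ 0 < δ ∧ δ ≤ δ0 / 2 ∧
  2 * R + 8 ≤ N * K0 ∧
  ∃ P : Finset (Finset ((Fin d → ℤ) × Fin d) × ℝ),
    (∀ q ∈ P, 0 < q.2 ∧ q.2 ≤ 1 ∧
      ∀ e ∈ q.1, bx (R + 2) e.1 ∧ bx (R + 2) (e.1 + Pi.single e.2 1)) ∧
    (∑ q ∈ P, (128 * (d : ℝ) ^ 2 * q.2) ^ ((q.1.card : ℝ) / (4 * d)) ≤ ε) ∧
    (∀ (n K : ℕ) (τ : Tor d n) (k : Site d) (ψ : Tor d n → ℝ), Lip ψ →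
      ψ ∉ Gd τ K k δ δ0 K0 R → ∃ q ∈ P, ∀ e ∈ q.1,
        1 - q.2 ≤ |ψ (ctr τ K k + zt n (e.1 + Pi.single e.2 1)) - ψ (ctr τ K k + zt n e.1)|)

/-- bad boxes are rare -/
def S_GP : Prop := ∀ d : ℕ, 1 ≤ d → ∃ δ0 : ℝ, 0 < δ0 ∧ δ0 ≤ 1 / 8 ∧
  ∀ ε : ℝ, 0 < ε → ∃ (K0 R : ℕ) (δ : ℝ),
  4 ∣ K0 ∧ 16 ≤ K0 ∧ 8 ≤ K0 * δ0 ∧ 40 * K0 ≤ R * δ0 ∧ 0 < δ ∧ δ ≤ δ0 / 2 ∧
  ∀ (n K J : ℕ) (p τ : Tor d n) (I : Finset (Site d)), Conf τ K J R → K0 ≤ K → K ≤ 2 * K0 →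
    I ⊆ Grid d J →
    vl p {ψ | ∀ k ∈ I, ψ ∉ Gd τ K k δ δ0 K0 R} ≤ ENNReal.ofReal (ε ^ I.card) * vl p Set.univ

/-- conditionally bad boxes are rare -/
def S_BB : Prop := ∀ d : ℕ, 1 ≤ d → ∃ δ0 : ℝ, 0 < δ0 ∧ δ0 ≤ 1 / 8 ∧
  ∀ ε : ℝ, 0 < ε → ∃ (K0 R : ℕ) (δ : ℝ),
  4 ∣ K0 ∧ 16 ≤ K0 ∧ 8 ≤ K0 * δ0 ∧ 40 * K0 ≤ R * δ0 ∧ 0 < δ ∧ δ ≤ δ0 / 2 ∧
  ∀ (n K J : ℕ) (p τ : Tor d n) (I : Finset (Site d)), Conf τ K J R → K0 ≤ K → K ≤ 2 * K0 →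
    p ∈ Sk τ K J → I ⊆ Grid d J →
    vl p {ψ | I ⊆ Bd p τ K J δ δ0 K0 R ψ} ≤ ENNReal.ofReal (ε ^ I.card) * vl p Set.univ

/-- renormalisation, probability part -/
def S_RN1 : Prop := ∀ (Ω : Type) [MeasurableSpace Ω] (μ : Measure Ω) (d J : ℕ)
  (B : Ω → Finset (Site d)) (ε : ℝ), 0 ≤ ε →
  (∀ I ⊆ Grid d J, μ {ω | I ⊆ B ω} ≤ ENNReal.ofReal (ε ^ I.card) * μ Set.univ) →
  ∀ ℓ ≤ J, ∀ M ⊆ Grid d (J - ℓ),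
    μ {ω | ∀ q ∈ M, bd (B ω) ℓ q} ≤
      ENNReal.ofReal (((4 ^ d * ε) ^ (2 ^ ℓ)) ^ M.card) * μ Set.univ

/-- the hierarchical condition is very likely -/
def S_RENO : Prop := ∀ (d : ℕ) (ν : ℝ), 3 ≤ d → 0 < ν → ∃ ε c : ℝ, 0 < ε ∧ 0 < c ∧
  ∀ (Ω : Type) [MeasurableSpace Ω] (μ : Measure Ω) (J j0 : ℕ)
    (B : Ω → Finset (Site d)) (k : Site d),
    (∀ I ⊆ Grid d J, μ {ω | I ⊆ B ω} ≤ ENNReal.ofReal (ε ^ I.card) * μ Set.univ) →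
    k ∈ Grid d J → j0 ≤ J →
    μ {ω | ¬ Hc ν (B ω) J j0 k} ≤
      ENNReal.ofReal (2 * Real.exp (-(c * 2 ^ (d * j0)))) * μ Set.univ

/-- gradient bound on the coarse grid -/
def LipG {d : ℕ} (J : ℕ) (w : Site d → ℝ) (Λ : ℝ) : Prop :=
  ∀ q ∈ Grid d J, ∀ i : Fin d, q i + 1 < 2 ^ J → |w (sx q i) - w q| ≤ Λ

/-- one level of the hierarchy costs a constant factor -/
def S_DT1 : Prop := ∀ (d : ℕ) (B : Finset (Site d)) (w : Site d → ℝ) (J ℓ : ℕ), 3 ≤ d →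
  ℓ + 1 ≤ J → SS B w J (ℓ + 1) ≤ 9 * 2 ^ d * SS B w J ℓ

/-- averages over nested cells -/
def S_DT2 : Prop := ∀ (d J ℓ m : ℕ) (k : Site d) (g : Site d → ℝ), 1 ≤ d → ℓ ≤ m →
  m + 1 ≤ J → k ∈ Grid d J →
  |avc J ℓ m k g - avc J ℓ (m + 1) k g| ≤
    2 ^ (m - ℓ) / 2 ^ (d * (m - ℓ)) * tv J ℓ (m + 1) k g

/-- changing the level of resolution -/
def S_DT3 : Prop := ∀ (d : ℕ) (B : Finset (Site d)) (w : Site d → ℝ) (J ℓ m : ℕ) (k : Site d),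
  1 ≤ d → ℓ + 1 ≤ m → m ≤ J → k ∈ Grid d J →
  |avc J ℓ m k (fun q => w (rep B ℓ q)) - avc J (ℓ + 1) m k (fun q => w (rep B (ℓ + 1) q))| ≤
    tv J ℓ m k (fun q => w (rep B ℓ q)) / 2 ^ (d * (m - ℓ - 1))

/-- bound of the total variation -/
def S_DT4 : Prop := ∀ (d : ℕ) (B : Finset (Site d)) (w : Site d → ℝ) (Λ : ℝ) (J ℓ m : ℕ)
  (k : Site d), 1 ≤ d → ℓ ≤ m → m ≤ J → k ∈ Grid d J → 0 ≤ Λ → LipG J w Λ →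
  tv J ℓ m k (fun q => w (rep B ℓ q)) ≤
    Real.sqrt (d * 2 ^ (d * (m - ℓ))) * Real.sqrt (SS B w J ℓ) +
      4 * (d : ℝ) ^ 2 * 2 ^ ℓ * Λ * nbad B J ℓ m k

/-- deterministic energy bound -/
def S_DET : Prop := ∀ d : ℕ, 3 ≤ d → ∃ ν c : ℝ, 0 < ν ∧ 0 < c ∧
  ∀ (B : Finset (Site d)) (w : Site d → ℝ) (J j0 : ℕ) (Λ H : ℝ) (k k' : Site d),
    j0 ≤ J → 0 < H → 0 ≤ Λ → LipG J w Λ → Λ * 2 ^ j0 ≤ H → k ∈ Grid d J → k' ∈ Grid d J →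
    (∀ q ∈ cells J 0 j0 k, ∀ q' ∈ cells J 0 j0 k', H ≤ w q - w q') →
    Hc ν B J j0 k → Hc ν B J j0 k' →
    c * H ^ 2 * 2 ^ ((d - 2) * j0) ≤ SS B w J 0

/-- charts -/
def S_CHART : Prop := ∀ d K0 R : ℕ, 1 ≤ d → 4 ∣ K0 → 16 ≤ K0 → ∃ n0 : ℕ, ∀ n ≥ n0,
  ∀ v : Tor d n, ∃ (K J : ℕ) (τ : Tor d n) (k0 k1 : Site d) (z0 z1 : Fin d → ℤ),
    K0 ≤ K ∧ K ≤ 2 * K0 ∧ Conf τ K J R ∧ 2 * n + 2 ≤ 4 * K0 * 2 ^ J ∧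
    k0 ∈ Grid d J ∧ k1 ∈ Grid d J ∧ bx (2 * K0) z0 ∧ bx (2 * K0) z1 ∧
    ctr τ K k0 + zt n z0 = 0 ∧ ctr τ K k1 + zt n z1 = v

/-- tail bound in a chart -/
def S_TA1 : Prop := ∀ d : ℕ, 3 ≤ d → ∃ (K0 R : ℕ) (c C : ℝ), 4 ∣ K0 ∧ 16 ≤ K0 ∧ 0 < c ∧ 0 < C ∧
  ∀ (n K J j0 : ℕ) (τ : Tor d n) (k k' : Site d) (t : ℝ), Conf τ K J R → K0 ≤ K →
    K ≤ 2 * K0 → k ∈ Grid d J → k' ∈ Grid d J → j0 ≤ J → C ≤ t →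
    2 ^ j0 ≤ t / (16 * d * K0) → t / (16 * d * K0) ≤ 2 ^ (j0 + 1) →
    vl (ctr τ K k) {ψ | t - 5 * d * K0 ≤ ψ (ctr τ K k')} ≤
      ENNReal.ofReal (Real.exp (-(c * t ^ d))) * vl (ctr τ K k) Set.univ

/-- the tail bound -/
def S_TAIL : Prop := ∀ d : ℕ, 3 ≤ d → ∃ (c C : ℝ) (n0 : ℕ), 0 < c ∧ 0 < C ∧
  ∀ n ≥ n0, ∀ (v : Tor d n) (t : ℝ), C ≤ t →
    vl 0 {ψ : Tor d n → ℝ | t ≤ ψ v - ψ 0} ≤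
      ENNReal.ofReal (Real.exp (-(c * t ^ d))) * vl (0 : Tor d n) Set.univ

open Classical in
/-- open l1 ball -/
def ball {d n : ℕ} (c : Tor d n) (ρ : ℕ) : Finset (Tor d n) :=
  Finset.univ.filter fun v => ∃ z : Fin d → ℤ, l1 z < ρ ∧ v = c + zt n z

/-- one ball -/
def S_LOB : Prop := ∀ (d n : ℕ) (c : Tor d n) (ρ : ℕ) (b : ℝ) (x : Tor d n → ℝ),
  1 ≤ d → 1 ≤ ρ → 2 * ρ + 2 ≤ 2 * n + 2 →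
  (∀ z : Fin d → ℤ, l1 z = ρ → b ≤ x (c + zt n z)) →
  ENNReal.ofReal ((1 / 4 : ℝ) ^ ((2 * ρ + 1) ^ d)) *
      mg (ball c ρ) ({ψ : Tor d n → ℝ | Lip ψ}.indicator 1) x ≤
    mg (ball c ρ) ({ψ : Tor d n → ℝ | Lip ψ ∧ b + ρ / 2 ≤ ψ c}.indicator 1) x

open Classical in
/-- many disjoint balls -/
def S_LOWA : Prop := ∀ (d n : ℕ) (p : Tor d n) (T : Finset (Tor d n)) (ρ m : ℕ) (b : ℝ),
  1 ≤ d → 1 ≤ ρ → 2 * ρ + 2 ≤ 2 * n + 2 →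
  (∀ c ∈ T, ∀ c' ∈ T, c ≠ c' → ∀ z z' : Fin d → ℤ, l1 z ≤ ρ → l1 z' ≤ ρ →
    c + zt n z ≠ c' + zt n z') →
  (∀ c ∈ T, ∀ z : Fin d → ℤ, l1 z < ρ → c + zt n z ≠ p) →
  vl p {ψ | m ≤ (T.filter fun c => ∀ z : Fin d → ℤ, l1 z = ρ → b ≤ ψ (c + zt n z)).card ∧
    ∀ c ∈ T, ψ c < b + ρ / 2} ≤
    ENNReal.ofReal ((1 - (1 / 4 : ℝ) ^ ((2 * ρ + 1) ^ d)) ^ m) * vl p Set.univ

/-- the maximum is not too small -/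
def S_LOW : Prop := ∀ d : ℕ, 3 ≤ d → ∃ c : ℝ, 0 < c ∧ Filter.Tendsto (fun n : ℕ =>
    (vl (0 : Tor d n) {ψ | (⨆ x, ψ x) - ψ 0 < c * Real.log ((n : ℝ) + 1) ^ ((1 : ℝ) / d)}).toReal /
      (vl (0 : Tor d n) Set.univ).toReal) Filter.atTop (nhds 0)

/-- the maximum is not too large -/
def S_UPP : Prop := ∀ d : ℕ, 3 ≤ d → ∃ C : ℝ, 0 < C ∧ Filter.Tendsto (fun n : ℕ =>
    (vl (0 : Tor d n) {ψ | C * Real.log ((n : ℝ) + 1) ^ ((1 : ℝ) / d) < (⨆ x, ψ x) - ψ 0}).toReal /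
      (vl (0 : Tor d n) Set.univ).toReal) Filter.atTop (nhds 0)

/-- the frozen statement -/
def S_FIN : Prop :=
    ∀ d : ℕ, 3 ≤ d → ∃ c C : ℝ, 0 < c ∧ 0 < C ∧
      Filter.Tendsto (fun n : ℕ =>
        (MeasureTheory.volume {ψ : (Fin d → ZMod (2 * n + 2)) → ℝ |
            0 ≤ ψ 0 ∧ ψ 0 ≤ 1 ∧
            (∀ x : Fin d → ZMod (2 * n + 2), ∀ i : Fin d,
              |ψ (x + (Pi.single i 1 : Fin d → ZMod (2 * n + 2))) - ψ x| ≤ 1) ∧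
            c * Real.log ((n : ℝ) + 1) ^ ((1 : ℝ) / d) ≤ (⨆ x, ψ x) - ψ 0 ∧
            (⨆ x, ψ x) - ψ 0 ≤ C * Real.log ((n : ℝ) + 1) ^ ((1 : ℝ) / d)}).toReal /
        (MeasureTheory.volume {ψ : (Fin d → ZMod (2 * n + 2)) → ℝ |
            0 ≤ ψ 0 ∧ ψ 0 ≤ 1 ∧
            (∀ x : Fin d → ZMod (2 * n + 2), ∀ i : Fin d,
              |ψ (x + (Pi.single i 1 : Fin d → ZMod (2 * n + 2))) - ψ x| ≤ 1)}).toReal)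
        Filter.atTop (nhds 1)

end

end Pool.Agent.H964.LF
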