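import Pool.Graph.R_seed8.Y980.Cov
import Pool.Graph.R_seed8.Y980.Gauss

/-!
# The circle averages of the Gaussian free field as a curve in `L²`
-/

set_option autoImplicit false

namespace Pool.Agent.H964

open MeasureTheory ProbabilityTheory Real Filter Topology
open Pool.Agent.Y980

variable {Ω : Type*} [MeasurableSpace Ω] {P : Measure Ω} {h : ℝ → ℂ → Ω → ℝ}

section field

variable (hh : IsGFF P h) {ε : ℝ} (hε : 0 < ε)

include hh

theorem gff_memLp {r : ℝ} (hr : 0 < r) (z : ℂ) : MemLp (h r z) 2 P :=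
  (hh.gaussian.hasGaussianLaw_eval (⟨⟨r, hr⟩, z⟩ : Set.Ioi (0 : ℝ) × ℂ)).memLp_two

theorem gff_prob : IsProbabilityMeasure P := hh.gaussian.isProbabilityMeasure

/-- covariances -/
theorem gff_cov {r : ℝ} (hr : 0 < r) (z w : ℂ) :
    ∫ ω, h r z ω * h r w ω ∂P = cN r z + cN r w - cA r z r w := by
  have := gff_prob hh
  have h1 := hh.cov r z r w hr hr
  rw [double_avg hr] at h1
  rw [← h1]
  have m1 := gff_memLp hh hr z
  have m2 := gff_memLp hh hr w
  rw [covariance_eq_sub m1 m2, hh.mean r z hr, hh.mean r w hr]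
  simp [Pi.mul_apply]

end field

/-- the circle averages as elements of `L²` -/
noncomputable def HH (hh : IsGFF P h) {ε : ℝ} (hε : 0 < ε) (z : ℂ) : Lp ℝ 2 P :=
  (gff_memLp hh hε z).toLp _

section

variable (hh : IsGFF P h) {ε : ℝ} (hε : 0 < ε)

theorem HH_coe (z : ℂ) : (HH hh hε z : Ω → ℝ) =ᵐ[P] h ε z := MemLp.coeFn_toLp _

theorem HH_inner (z w : ℂ) :
    inner ℝ (HH hh hε z) (HH hh hε w) = cN ε z + cN ε w - cA ε z ε w := by
  rw [← gff_cov hh hε z w, L2.inner_def]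
  apply integral_congr_ae
  filter_upwards [HH_coe hh hε z, HH_coe hh hε w] with ω h1 h2
  rw [h1, h2]
  simp [mul_comm]

include hh hε in
theorem cA_comm_GFF (z w : ℂ) : cA ε z ε w = cA ε w ε z := by
  have h1 := HH_inner hh hε z w
  have h2 := HH_inner hh hε w z
  rw [real_inner_comm] at h1
  linarith

theorem HH_dist_sq (z w : ℂ) :
    ‖HH hh hε z - HH hh hε w‖ ^ 2 = 2 * (cA ε z ε w - log ε) := by
  rw [norm_sub_sq_real, ← real_inner_self_eq_norm_sq, ← real_inner_self_eq_norm_sq,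
    HH_inner, HH_inner, HH_inner, cA_self hε, cA_self hε]
  ring

theorem cA_le_of_dist {z w : ℂ} (hε : 0 < ε) : cA ε z ε w ≤ log (ε + ‖z - w‖) := by
  have h0 : 0 < ε + ‖z - w‖ := by positivity
  apply cA_le hε
  · rw [exp_log h0]; linarith [norm_nonneg (z - w)]
  · intro x hx
    rw [exp_log h0]
    rw [mem_sphere_iff_norm, abs_of_pos hε] at hx
    calc ‖x - w‖ = ‖(x - z) + (z - w)‖ := by ring_nf
      _ ≤ ‖x - z‖ + ‖z - w‖ := norm_add_le _ _
      _ = ε + ‖z - w‖ := by rw [hx]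

theorem HH_dist_sq_le (z w : ℂ) :
    ‖HH hh hε z - HH hh hε w‖ ^ 2 ≤ 2 * (‖z - w‖ / ε) := by
  rw [HH_dist_sq]
  have h1 := cA_le_of_dist (z := z) (w := w) hε
  have h2 : log (ε + ‖z - w‖) - log ε ≤ ‖z - w‖ / ε := by
    rw [← log_div (by positivity) hε.ne']
    have h3 : (ε + ‖z - w‖) / ε = 1 + ‖z - w‖ / ε := by field_simp
    rw [h3]
    have := log_le_sub_one_of_pos (show 0 < 1 + ‖z - w‖ / ε by positivity)
    linarith
  linarith

theorem HH_continuous : Continuous (HH hh hε) := by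
  rw [continuous_iff_continuousAt]
  intro w
  rw [ContinuousAt, tendsto_iff_norm_sub_tendsto_zero]
  have h1 : Tendsto (fun z : ℂ => 2 * (‖z - w‖ / ε)) (𝓝 w) (𝓝 0) := by
    have : Continuous fun z : ℂ => 2 * (‖z - w‖ / ε) := by fun_prop
    have h := this.tendsto w
    simpa using h
  have h2 : Tendsto (fun z : ℂ => ‖HH hh hε z - HH hh hε w‖ ^ 2) (𝓝 w) (𝓝 0) :=
    squeeze_zero (fun z => by positivity) (fun z => HH_dist_sq_le hh hε z w) h1
  have h3 := h2.sqrt
  simpa [Real.sqrt_sq] using h3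

theorem HH_norm_sq (z : ℂ) : ‖HH hh hε z‖ ^ 2 = 2 * cN ε z - log ε := by
  rw [← real_inner_self_eq_norm_sq, HH_inner, cA_self hε]; ring

end

end Pool.Agent.H964
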