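import Mathlib

set_option autoImplicit false

namespace Pool.Agent.H964.LF

open MeasureTheory
open scoped ENNReal

noncomputable section

/-- the discrete torus of side `2n+2` -/
abbrev Tor (d n : ℕ) := Fin d → ZMod (2 * n + 2)

/-- the `2d` neighbours of a vertex -/
def nb {d n : ℕ} (v : Tor d n) (a : Fin d × Bool) : Tor d n :=
  if a.2 then v + Pi.single a.1 1 else v - Pi.single a.1 1

/-- real 1-Lipschitz functions -/
def Lip {d n : ℕ} (ψ : Tor d n → ℝ) : Prop :=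
  ∀ (x : Tor d n) (i : Fin d), |ψ (x + Pi.single i 1) - ψ x| ≤ 1

/-- parity -/
def par {d n : ℕ} (v : Tor d n) : ZMod 2 :=
  ∑ i, ZMod.castHom (show 2 ∣ 2 * n + 2 from ⟨n + 1, by ring⟩) (ZMod 2) (v i)

/-- even vertices -/
def ev (d n : ℕ) : Finset (Tor d n) := Finset.univ.filter fun v => par v = 0

/-- odd vertices -/
def od (d n : ℕ) : Finset (Tor d n) := Finset.univ.filter fun v => par v = 1

/-- length of the interval allowed at `v` by the values of the neighbours -/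
def Len {d n : ℕ} (x : Tor d n → ℝ) (v : Tor d n) : ℝ :=
  max 0 (2 - (⨆ a, x (nb v a)) + ⨅ a, x (nb v a))

/-- the density of the odd configuration, with the pin at `p` -/
def FF {d n : ℕ} (p : Tor d n) (x : Tor d n → ℝ) : ℝ≥0∞ :=
  (∏ v ∈ ev d n, ENNReal.ofReal (Len x v)) * (if |x p| ≤ 1 / 2 then 1 else 0)

/-- the volume of an event, with the pin at `p` -/
def vl {d n : ℕ} (p : Tor d n) (E : Set (Tor d n → ℝ)) : ℝ≥0∞ :=
  volume {ψ : Tor d n → ℝ | Lip ψ ∧ |ψ p| ≤ 1 / 2 ∧ ψ ∈ E}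

/-- marginal: integrate out the coordinates in `s` -/
abbrev mg {ι : Type} [DecidableEq ι] (s : Finset ι) (f : (ι → ℝ) → ℝ≥0∞) (x : ι → ℝ) : ℝ≥0∞ :=
  lmarginal (fun _ : ι => (volume : Measure ℝ)) s f x

/-- midpoint of two configurations -/
abbrev mid {ι : Type} (x y : ι → ℝ) : ι → ℝ := fun v => (x v + y v) / 2

/-- sites of the coarse grid -/
abbrev Site (d : ℕ) := Fin d → ℕ

/-- coarse grid of side `2^J` -/
def Grid (d J : ℕ) : Finset (Site d) := Fintype.piFinset fun _ => Finset.range (2 ^ J)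

/-- the torus vertex of a coarse site -/
def ctr {d n : ℕ} (τ : Tor d n) (K : ℕ) (k : Site d) : Tor d n :=
  fun i => τ i + ((K * k i : ℕ) : ZMod (2 * n + 2))

/-- the skeleton -/
def Sk {d n : ℕ} (τ : Tor d n) (K J : ℕ) : Finset (Tor d n) := (Grid d J).image (ctr τ K)

/-- odd vertices outside the skeleton -/
def Yk {d n : ℕ} (τ : Tor d n) (K J : ℕ) : Finset (Tor d n) := od d n \ Sk τ K J

/-- neighbour of a coarse site -/
def sx {d : ℕ} (k : Site d) (i : Fin d) : Site d := k + Pi.single i 1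

/-- integer vectors as torus vectors -/
def zt {d : ℕ} (n : ℕ) (z : Fin d → ℤ) : Tor d n := fun i => ((z i : ℤ) : ZMod (2 * n + 2))

/-- l1 norm -/
def l1 {d : ℕ} (z : Fin d → ℤ) : ℤ := ∑ i, |z i|

/-- integer box -/
def bx {d : ℕ} (R : ℕ) (z : Fin d → ℤ) : Prop := ∀ j, |z j| ≤ (R : ℤ)

/-- neighbours in `ℤ^d` -/
def nz {d : ℕ} (z : Fin d → ℤ) (a : Fin d × Bool) : Fin d → ℤ :=
  if a.2 then z + Pi.single a.1 1 else z - Pi.single a.1 1

/-- the standing conditions on the coarse grid -/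
structure Conf {d n : ℕ} (τ : Tor d n) (K J R : ℕ) : Prop where
  hτ : par τ = 1
  hK : 4 ∣ K
  hK0 : 0 < K
  hs : K * 2 ^ J + 2 * R + 8 ≤ 2 * n + 2

/-- middle (even) vertices of the coarse edge from `k` in direction `i` -/
def mv {d n : ℕ} (τ : Tor d n) (K : ℕ) (k : Site d) (i : Fin d) (s : ℕ) : Tor d n :=
  ctr τ K k + Pi.single i ((2 * s + 1 : ℕ) : ZMod (2 * n + 2))

/-- at `v` the neighbour `a` is the maximum and the neighbour `b` is the minimum, with a margin -/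
def Ext {d n : ℕ} (x : Tor d n → ℝ) (v : Tor d n) (a b : Fin d × Bool) : Prop :=
  (∀ c, c ≠ a → x (nb v c) + 1 / 16 ≤ x (nb v a)) ∧
  (∀ c, c ≠ b → x (nb v b) + 1 / 16 ≤ x (nb v c))

/-- the event that the coarse edge is nice -/
def Nev {d n : ℕ} (τ : Tor d n) (K : ℕ) (k : Site d) (i : Fin d) : Set (Tor d n → ℝ) :=
  {x | ∀ s < K / 2, Ext x (mv τ K k i s) (i, true) (i, false) ∨
    Ext x (mv τ K k i s) (i, false) (i, true)}

/-- the event that the box around the coarse site is good -/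
def Gd {d n : ℕ} (τ : Tor d n) (K : ℕ) (k : Site d) (δ δ0 : ℝ) (k0 R : ℕ) :
    Set (Tor d n → ℝ) :=
  {x | ∀ z z' : Fin d → ℤ, bx (R + 2) z → bx (R + 2) z' → Even (∑ j, z j) → Even (∑ j, z' j) →
    |x (ctr τ K k + zt n z) - x (ctr τ K k + zt n z')| ≤ (1 - δ) * (l1 (z - z') : ℝ) ∧
    ((k0 : ℤ) ≤ l1 (z - z') →
      |x (ctr τ K k + zt n z) - x (ctr τ K k + zt n z')| ≤ (1 - δ0) * (l1 (z - z') : ℝ))}

open Classical in
/-- the bad coarse sites, given the heights on the skeleton -/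
def Bd {d n : ℕ} (p : Tor d n) (τ : Tor d n) (K J : ℕ) (δ δ0 : ℝ) (k0 R : ℕ)
    (x : Tor d n → ℝ) : Finset (Site d) :=
  (Grid d J).filter fun k =>
    mg (Yk τ K J) ((Gd τ K k δ δ0 k0 R).indicator (FF p)) x <
      (1 / 2 : ℝ≥0∞) * mg (Yk τ K J) (FF p) x

/-- children of a cell -/
def ch {d : ℕ} (q : Site d) (ε : Fin d → Bool) : Site d :=
  fun i => 2 * q i + (if ε i then 1 else 0)

/-- bad cells of level `ℓ` -/
def bd {d : ℕ} (B : Finset (Site d)) : ℕ → Site d → Prop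
  | 0, q => q ∈ B
  | (ℓ + 1), q => ∃ ε ε' : Fin d → Bool, ε ≠ ε' ∧ bd B ℓ (ch q ε) ∧ bd B ℓ (ch q ε')

/-- cells of level `ℓ` inside the cell of level `m` which contains `k` -/
def cells {d : ℕ} (J ℓ m : ℕ) (k : Site d) : Finset (Site d) :=
  (Grid d (J - ℓ)).filter fun q => ∀ i, q i / 2 ^ (m - ℓ) = k i / 2 ^ m

open Classical in
/-- number of bad cells -/
def nbad {d : ℕ} (B : Finset (Site d)) (J ℓ m : ℕ) (k : Site d) : ℕ :=
  ((cells J ℓ m k).filter fun q => bd B ℓ q).card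

/-- level of resolution at distance scale `i` -/
def lv (i : ℕ) : ℕ := Nat.clog 2 (i + 1)

/-- the hierarchical condition at `k` -/
def Hc {d : ℕ} (ν : ℝ) (B : Finset (Site d)) (J j0 : ℕ) (k : Site d) : Prop :=
  ∀ i : ℕ, j0 + i + 1 ≤ J →
    (nbad B J (lv i) (j0 + i + 1) k : ℝ) ≤
      ν * 2 ^ (d * j0) * 2 ^ ((d - 2) * i) / 2 ^ (d * lv i)

open Classical in
/-- representative of a cell -/
def rep {d : ℕ} (B : Finset (Site d)) : ℕ → Site d → Site d
  | 0, q => q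
  | (ℓ + 1), q => if bd B ℓ (ch q fun _ => false) then rep B ℓ (ch q fun i => decide (i.val = 0))
      else rep B ℓ (ch q fun _ => false)

open Classical in
/-- Dirichlet energy of the representatives over the edges with good ends -/
def SS {d : ℕ} (B : Finset (Site d)) (w : Site d → ℝ) (J ℓ : ℕ) : ℝ :=
  ∑ q ∈ Grid d (J - ℓ), ∑ i : Fin d,
    if q i + 1 < 2 ^ (J - ℓ) ∧ ¬ bd B ℓ q ∧ ¬ bd B ℓ (sx q i) then
      (w (rep B ℓ (sx q i)) - w (rep B ℓ q)) ^ 2 else 0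

/-- average over the cells -/
def avc {d : ℕ} (J ℓ m : ℕ) (k : Site d) (g : Site d → ℝ) : ℝ :=
  (∑ q ∈ cells J ℓ m k, g q) / 2 ^ (d * (m - ℓ))

open Classical in
/-- total variation over the cells -/
def tv {d : ℕ} (J ℓ m : ℕ) (k : Site d) (g : Site d → ℝ) : ℝ :=
  ∑ q ∈ cells J ℓ m k, ∑ i : Fin d,
    if sx q i ∈ cells J ℓ m k then |g (sx q i) - g q| else 0

end

end Pool.Agent.H964.LF
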