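import Pool.Agent.H964.LF.Root

/-!
# The lower bound for discrete paths
-/

set_option autoImplicit false

namespace Pool.Agent.H964

open MeasureTheory ProbabilityTheory Real Filter Topology
open Pool.Agent.Y980

/-- from the pointwise bound to a lower bound for the product -/
theorem one_le_of_claim {p X S Ψ : ℝ} (hp : 1 < p) (hS : 0 < S) (hΨ : 0 ≤ Ψ)
    (h : exp X ≤ S ^ (1 - 1 / p) * Ψ ^ (1 / p)) : S ^ (1 - p) ≤ exp (-(p * X)) * Ψ := by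
  have hp0 : 0 < p := by linarith
  have h1 : exp X ^ p ≤ (S ^ (1 - 1 / p) * Ψ ^ (1 / p)) ^ p :=
    Real.rpow_le_rpow (exp_pos _).le h hp0.le
  rw [Real.mul_rpow (by positivity) (by positivity), ← Real.rpow_mul hS.le, ← Real.rpow_mul hΨ,
    ← Real.exp_mul, show (1 - 1 / p) * p = p - 1 by field_simp, show 1 / p * p = 1 by field_simp,
    Real.rpow_one] at h1
  have e1 : S ^ (1 - p) = (S ^ (p - 1))⁻¹ := by rw [← Real.rpow_neg hS.le]; congr 1; ring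
  have hpos : 0 < S ^ (p - 1) := by positivity
  rw [e1, inv_le_iff_one_le_mul₀ hpos]
  have e2 : exp (-(p * X)) * exp (X * p) = 1 := by rw [← Real.exp_add]; simp; ring
  calc 1 = exp (-(p * X)) * exp (X * p) := e2.symm
    _ ≤ exp (-(p * X)) * (S ^ (p - 1) * Ψ) := by gcongr
    _ = _ := by ring

/-- the lattice points of a ball have bounded coordinates -/
theorem lp_mem_Bx {ε R : ℝ} (hε : 0 < ε) {k : ℤ × ℤ} (hk : ‖lp ε k‖ ≤ R) : k ∈ Bx ⌈4 * R / ε⌉₊ := by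
  have key : ∀ l : ℤ, |ε / 4 * l| ≤ R → l ∈ Finset.Icc (-(⌈4 * R / ε⌉₊ : ℤ)) ⌈4 * R / ε⌉₊ := by
    intro l hl
    have h1 : |(l : ℝ)| ≤ ⌈4 * R / ε⌉₊ := by
      refine le_trans ?_ (Nat.le_ceil _)
      rw [abs_mul, abs_of_pos (by positivity : 0 < ε / 4)] at hl
      rw [le_div_iff₀ hε]
      linarith
    rw [abs_le] at h1
    rw [Finset.mem_Icc]
    constructor
    · have := h1.1
      exact_mod_cast this
    · have := h1.2
      exact_mod_cast this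
  unfold Bx
  rw [Finset.mem_product]
  constructor
  · apply key
    have := (Complex.abs_re_le_norm (lp ε k)).trans hk
    simpa [lp] using this
  · apply key
    have := (Complex.abs_im_le_norm (lp ε k)).trans hk
    simpa [lp] using this

theorem card_Bx_le {ε R : ℝ} (hε : 0 < ε) (hε1 : ε ≤ 1) (hR : 0 ≤ R) :
    ((Bx ⌈4 * R / ε⌉₊).card : ℝ) ≤ ((8 * R + 3) / ε) ^ 2 := by
  rw [card_Bx]
  push_cast
  have h1 : (⌈4 * R / ε⌉₊ : ℝ) < 4 * R / ε + 1 := Nat.ceil_lt_add_one (by positivity)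
  have h2 : 2 * (⌈4 * R / ε⌉₊ : ℝ) + 1 ≤ (8 * R + 3) / ε := by
    rw [le_div_iff₀ hε]
    have h3 : 4 * R / ε * ε = 4 * R := by field_simp
    nlinarith
  gcongr

variable {Ω : Type*} [MeasurableSpace Ω] {P : Measure Ω} {h : ℝ → ℂ → Ω → ℝ}
variable (hh : IsGFF P h) {ε : ℝ} (hε : 0 < ε)

/-- the functional of the root -/
noncomputable def FF (ξ p θ : ℝ) (N n : ℕ) (u v : ℂ) (ω : Ω) : ℝ :=
  exp (-(p * ξ) * XX hh hε u v ω) * PsiO hh hε ξ p θ N n u v ω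

theorem FF_aemeas (ξ p θ : ℝ) (N n : ℕ) (u v : ℂ) : AEMeasurable (FF hh hε ξ p θ N n u v) P := by
  unfold FF
  exact (Real.measurable_exp.comp_aemeasurable ((XX_aemeas hh hε u v).const_mul _)).mul
    (PsiO_aemeas hh hε ξ p θ N n u v)

open Classical in
/-- the exceptional event -/
noncomputable def BadD (ξ p θ r R Λ : ℝ) (N n : ℕ) : Set Ω :=
  ⋃ ι ∈ (Bx ⌈4 * R / ε⌉₊ ×ˢ Bx N).filter fun ι : (ℤ × ℤ) × (ℤ × ℤ) =>
    ‖lp ε ι.1‖ ≤ R ∧ r / 2 ≤ ‖lp ε ι.1 - gp (lp ε ι.1) (θ * r / 4) ι.2‖ ∧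
      ‖lp ε ι.1 - gp (lp ε ι.1) (θ * r / 4) ι.2‖ ≤ 1,
    {ω | ENNReal.ofReal Λ ≤ ENNReal.ofReal (FF hh hε ξ p θ N n (lp ε ι.1)
      (gp (lp ε ι.1) (θ * r / 4) ι.2) ω)}

theorem prob_BadD {ξ p θ b q C K R r Λ : ℝ} {N : ℕ} (hp : Par ξ p θ b q C K N) (hε1 : ε ≤ 1) (hR : 0 ≤ R)
    (hC : 8 / (q * (1 - q)) + 2 ≤ C) (hr : 0 < r) {n : ℕ} (hn : θ * (4 / 5) ^ n < ε) (hΛ : 0 < Λ) :
    P (BadD hh hε ξ p θ r R Λ N n) ≤ ENNReal.ofReal
      ((((8 * R + 3) / ε) ^ 2 * (2 * N + 1 : ℝ) ^ 2) * (C1 ξ p θ b q R (r / 2) * ε ^ (1 - b - 2 * ξ ^ 2) / Λ)) := by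
  classical
  have hone : ∀ ι ∈ (Bx ⌈4 * R / ε⌉₊ ×ˢ Bx N).filter fun ι : (ℤ × ℤ) × (ℤ × ℤ) =>
      ‖lp ε ι.1‖ ≤ R ∧ r / 2 ≤ ‖lp ε ι.1 - gp (lp ε ι.1) (θ * r / 4) ι.2‖ ∧
        ‖lp ε ι.1 - gp (lp ε ι.1) (θ * r / 4) ι.2‖ ≤ 1,
      P {ω | ENNReal.ofReal Λ ≤ ENNReal.ofReal (FF hh hε ξ p θ N n (lp ε ι.1)
        (gp (lp ε ι.1) (θ * r / 4) ι.2) ω)} ≤
      ENNReal.ofReal (C1 ξ p θ b q R (r / 2) * ε ^ (1 - b - 2 * ξ ^ 2) / Λ) := by
    intro ι hι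
    rw [Finset.mem_filter] at hι
    obtain ⟨_, h1, h2, h3⟩ := hι
    have hexp := root_exp hh hε hp hε1 hR hC (r := r / 2) (by positivity) hn h1 h2 h3
    have hm : AEMeasurable (fun ω => ENNReal.ofReal (FF hh hε ξ p θ N n (lp ε ι.1)
        (gp (lp ε ι.1) (θ * r / 4) ι.2) ω)) P := (FF_aemeas hh hε ξ p θ N n _ _).ennreal_ofReal
    have hmk := mul_meas_ge_le_lintegral₀ hm (ENNReal.ofReal Λ)
    have hΛ0 : ENNReal.ofReal Λ ≠ 0 := by simpa using hΛ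
    rw [ENNReal.ofReal_div_of_pos hΛ, ENNReal.le_div_iff_mul_le (Or.inl hΛ0) (Or.inl ENNReal.ofReal_ne_top),
      mul_comm]
    exact hmk.trans hexp
  have hc0 : 0 ≤ C1 ξ p θ b q R (r / 2) * ε ^ (1 - b - 2 * ξ ^ 2) / Λ := by
    have := hp.θ0
    unfold C1; positivity
  calc P (BadD hh hε ξ p θ r R Λ N n) ≤ _ := measure_biUnion_finset_le _ _
    _ ≤ ∑ ι ∈ (Bx ⌈4 * R / ε⌉₊ ×ˢ Bx N).filter fun ι : (ℤ × ℤ) × (ℤ × ℤ) =>
      ‖lp ε ι.1‖ ≤ R ∧ r / 2 ≤ ‖lp ε ι.1 - gp (lp ε ι.1) (θ * r / 4) ι.2‖ ∧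
        ‖lp ε ι.1 - gp (lp ε ι.1) (θ * r / 4) ι.2‖ ≤ 1,
        ENNReal.ofReal (C1 ξ p θ b q R (r / 2) * ε ^ (1 - b - 2 * ξ ^ 2) / Λ) := Finset.sum_le_sum hone
    _ ≤ ∑ ι ∈ Bx ⌈4 * R / ε⌉₊ ×ˢ Bx N,
        ENNReal.ofReal (C1 ξ p θ b q R (r / 2) * ε ^ (1 - b - 2 * ξ ^ 2) / Λ) :=
        Finset.sum_le_sum_of_subset (Finset.filter_subset _ _)
    _ = ENNReal.ofReal (((Bx ⌈4 * R / ε⌉₊ ×ˢ Bx N).card : ℝ) *
        (C1 ξ p θ b q R (r / 2) * ε ^ (1 - b - 2 * ξ ^ 2) / Λ)) := by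
        rw [Finset.sum_const, nsmul_eq_mul, ENNReal.ofReal_mul (by positivity), ENNReal.ofReal_natCast]
    _ ≤ _ := by
        apply ENNReal.ofReal_le_ofReal
        apply mul_le_mul_of_nonneg_right _ hc0
        rw [Finset.card_product]
        push_cast
        apply mul_le_mul (card_Bx_le hε hε1 hR) _ (by positivity) (by positivity)
        rw [card_Bx]; push_cast; exact le_rfl

/-- outside of the exceptional event every long path is heavy -/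
theorem good_path {ξ p θ b q C K R r Λ : ℝ} {N : ℕ} (hp : Par ξ p θ b q C K N)
    (hN : 8 / θ + 1 ≤ N) (hr : 0 < r) (hr1 : r ≤ 1 / 2) (hεr : ε ≤ r / 4) {n : ℕ}
    (hn : θ * (4 / 5) ^ n < ε) {ω : Ω} (hω : ω ∉ BadD hh hε ξ p θ r R Λ N n)
    {m : ℕ → ℤ × ℤ} {J : ℕ} (hstep : ∀ k < J, ‖lp ε (m (k + 1)) - lp ε (m k)‖ ≤ ε)
    (h0 : ‖lp ε (m 0)‖ ≤ R) (hJ : r ≤ ‖lp ε (m J) - lp ε (m 0)‖) :
    (∑ k ∈ Finset.range J, ε * exp (ξ * h ε (lp ε (m k)) ω)) ^ (1 - p) < Λ := by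
  classical
  have hpp := hp
  obtain ⟨q0, q1', θ0, θ1, p1, pθ, b0, bp, C0, CC, Y, bb⟩ := hpp
  have hex : ∃ j, r ≤ ‖lp ε (m j) - lp ε (m 0)‖ := ⟨J, hJ⟩
  obtain ⟨j, hj⟩ : ∃ j, j = Nat.find hex := ⟨_, rfl⟩
  have hj1 : r ≤ ‖lp ε (m j) - lp ε (m 0)‖ := by rw [hj]; exact Nat.find_spec hex
  have hjJ : j ≤ J := by rw [hj]; exact Nat.find_min' hex hJ
  have hj0 : 0 < j := by
    rcases Nat.eq_zero_or_pos j with h | h
    · exfalso
      rw [h, sub_self, norm_zero] at hj1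
      linarith
    · exact h
  obtain ⟨l, hl⟩ : ∃ l, j = l + 1 := ⟨j - 1, by omega⟩
  have hl1 : ‖lp ε (m l) - lp ε (m 0)‖ < r := by
    have := Nat.find_min hex (m := l) (by omega)
    push Not at this
    exact this
  have hj2 : ‖lp ε (m j) - lp ε (m 0)‖ ≤ r + ε := by
    have hs := hstep l (by omega)
    rw [hl]
    calc ‖lp ε (m (l + 1)) - lp ε (m 0)‖ = ‖(lp ε (m (l + 1)) - lp ε (m l)) + (lp ε (m l) - lp ε (m 0))‖ := by
          ring_nf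
      _ ≤ ‖lp ε (m (l + 1)) - lp ε (m l)‖ + ‖lp ε (m l) - lp ε (m 0)‖ := norm_add_le _ _
      _ ≤ _ := by linarith
  set u := lp ε (m 0) with hu
  set z := lp ε (m j) with hz
  obtain ⟨a, ha⟩ : ∃ a, a = θ * r / 4 := ⟨_, rfl⟩
  have ha0 : 0 < a := by rw [ha]; positivity
  have haθ : a ≤ r / 400 := by
    rw [ha]
    nlinarith
  have hNN : (r + ε) / a + 1 ≤ N := by
    have : (r + ε) / a ≤ 8 / θ := by
      rw [div_le_div_iff₀ ha0 θ0, ha]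
      nlinarith
    linarith
  obtain ⟨w, hw1, hw2⟩ := exists_gp (u := u) (z := z) ha0 hNN hj2
  set v := gp u a w with hv
  have hd1 : r / 2 ≤ ‖u - v‖ := by
    have : ‖z - u‖ ≤ ‖z - v‖ + ‖u - v‖ := by
      calc ‖z - u‖ = ‖(z - v) - (u - v)‖ := by ring_nf
        _ ≤ _ := norm_sub_le _ _
    linarith
  have hd2 : ‖u - v‖ ≤ 1 := by
    have : ‖u - v‖ ≤ ‖z - v‖ + ‖z - u‖ := by
      calc ‖u - v‖ = ‖(z - v) - (z - u)‖ := by ring_nf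
        _ ≤ _ := norm_sub_le _ _
    linarith
  have hnode : Node (fun k => lp ε (m k)) ε θ 0 j u v := by
    refine ⟨hj0, fun k _ hk => hstep k (by omega), ?_, ?_⟩
    · simp only [← hu, sub_self, norm_zero]
      positivity
    · simp only [← hz]
      refine hw2.trans ?_
      rw [ha]
      nlinarith
  have hfuel : θ * ‖u - v‖ * (4 / 5) ^ n < ε := by
    refine lt_of_le_of_lt ?_ hn
    calc θ * ‖u - v‖ * (4 / 5) ^ n = (θ * (4 / 5 : ℝ) ^ n) * ‖u - v‖ := by ring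
      _ ≤ (θ * (4 / 5 : ℝ) ^ n) * 1 := by gcongr
      _ = _ := by ring
  have hc1 := claim1 (X := fun a b => XX hh hε a b ω) (H := fun z => h ε z ω) (ξ := ξ)
    hε θ0 θ1 p1 hN n hnode hfuel
  set S := SS ε ξ (fun z => h ε z ω) (fun k => lp ε (m k)) 0 j with hS
  have hSpos : 0 < S := by
    rw [hS, SS]
    apply Finset.sum_pos
    · intro k _; positivity
    · exact ⟨0, Finset.mem_Ico.2 ⟨le_rfl, hj0⟩⟩
  have hlow := one_le_of_claim p1 hSpos (Psi_nonneg hε n u v) hc1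
  have hnot : FF hh hε ξ p θ N n u v ω < Λ := by
    by_contra hcon
    push Not at hcon
    apply hω
    unfold BadD
    simp only [Set.mem_iUnion, Finset.mem_filter, Finset.mem_product, exists_prop]
    refine ⟨(m 0, w), ⟨⟨lp_mem_Bx hε h0, hw1⟩, ?_⟩, ?_⟩
    · simp only [← hu, ← ha, ← hv]
      exact ⟨h0, hd1, hd2⟩
    · simp only [← hu, ← ha, ← hv, Set.mem_setOf_eq]
      exact ENNReal.ofReal_le_ofReal hcon
  have hSle : S ≤ ∑ k ∈ Finset.range J, ε * exp (ξ * h ε (lp ε (m k)) ω) := by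
    rw [hS, SS, Finset.range_eq_Ico]
    apply Finset.sum_le_sum_of_subset_of_nonneg
    · exact Finset.Ico_subset_Ico le_rfl hjJ
    · intro k _ _; positivity
  calc (∑ k ∈ Finset.range J, ε * exp (ξ * h ε (lp ε (m k)) ω)) ^ (1 - p) ≤ S ^ (1 - p) :=
        Real.rpow_le_rpow_of_nonpos hSpos hSle (by linarith)
    _ ≤ _ := hlow
    _ = FF hh hε ξ p θ N n u v ω := by
        rw [FF, PsiO]
        congr 2
        ring
    _ < Λ := hnot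

end Pool.Agent.H964
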