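import Pool.Agent.H964.LF.XX

/-!
# Exponential moments on the closed span of the field
-/

set_option autoImplicit false

namespace Pool.Agent.H964

open MeasureTheory ProbabilityTheory Real Filter Topology
open Pool.Agent.Y980

variable {Ω : Type*} [MeasurableSpace Ω] {P : Measure Ω} {h : ℝ → ℂ → Ω → ℝ}
variable (hh : IsGFF P h) {ε : ℝ} (hε : 0 < ε)

/-- the field on the circles of radius `ε` as a process -/
theorem proc_gauss (hh : IsGFF P h) (hε : 0 < ε) : IsGaussianProcess (fun z : ℂ => h ε z) P := by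
  have := hh.gaussian
  exact this.comp_right (fun z : ℂ => ((⟨⟨ε, hε⟩, z⟩ : Set.Ioi (0 : ℝ) × ℂ)))

theorem span_rep {Y : Lp ℝ 2 P} (hY : Y ∈ Submodule.span ℝ (Set.range (HH hh hε))) :
    ∃ f : ℂ →₀ ℝ, (Y : Ω → ℝ) =ᵐ[P] lin (fun z : ℂ => h ε z) f := by
  rw [Finsupp.mem_span_range_iff_exists_finsupp] at hY
  obtain ⟨f, rfl⟩ := hY
  refine ⟨f, ?_⟩
  have h1 : ∀ s : Finset ℂ, ((∑ z ∈ s, f z • HH hh hε z : Lp ℝ 2 P) : Ω → ℝ) =ᵐ[P]
      fun ω => ∑ z ∈ s, f z * h ε z ω := by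
    intro s
    classical
    induction s using Finset.induction_on with
    | empty =>
      simp only [Finset.sum_empty]
      exact Lp.coeFn_zero _ _ _
    | insert a s ha ih =>
      rw [Finset.sum_insert ha]
      filter_upwards [Lp.coeFn_add (f a • HH hh hε a) (∑ z ∈ s, f z • HH hh hε z),
        Lp.coeFn_smul (f a) (HH hh hε a), ih, HH_coe hh hε a] with ω e1 e2 e3 e4
      rw [e1, Pi.add_apply, e2, e3, Pi.smul_apply, e4, Finset.sum_insert ha, smul_eq_mul]
  have h2 := h1 f.support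
  filter_upwards [h2] with ω hω
  rw [Finsupp.sum, hω]
  rfl

theorem lin_mean (hh : IsGFF P h) (hε : 0 < ε) (f : ℂ →₀ ℝ) :
    ∫ ω, lin (fun z : ℂ => h ε z) f ω ∂P = 0 := by
  have := gff_prob hh
  unfold lin Finsupp.sum
  rw [integral_finsetSum]
  · apply Finset.sum_eq_zero
    intro z _
    rw [integral_const_mul, hh.mean ε z hε, mul_zero]
  · intro z _
    exact ((gff_memLp hh hε z).integrable one_le_two).const_mul _

theorem exp_span {Y : Lp ℝ 2 P} (hY : Y ∈ Submodule.span ℝ (Set.range (HH hh hε))) :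
    ∫⁻ ω, ENNReal.ofReal (exp (Y ω)) ∂P = ENNReal.ofReal (exp (‖Y‖ ^ 2 / 2)) := by
  have := gff_prob hh
  obtain ⟨f, hf⟩ := span_rep hh hε hY
  have hg := (isGaussianProcess_lin (proc_gauss hh hε)).hasGaussianLaw_eval f
  have hmean := lin_mean hh hε f
  obtain ⟨h1, h2⟩ := exp_gauss hg hmean
  have e1 : ∫⁻ ω, ENNReal.ofReal (exp (Y ω)) ∂P =
      ∫⁻ ω, ENNReal.ofReal (exp (lin (fun z : ℂ => h ε z) f ω)) ∂P := by
    apply lintegral_congr_ae
    filter_upwards [hf] with ω hω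
    rw [hω]
  rw [e1, ← ofReal_integral_eq_lintegral_ofReal h1 (Eventually.of_forall fun _ => (exp_pos _).le), h2]
  congr 3
  have e2 : ‖Y‖ ^ 2 = ∫ ω, (lin (fun z : ℂ => h ε z) f ω) ^ 2 ∂P := by
    rw [← real_inner_self_eq_norm_sq, L2.inner_def]
    apply integral_congr_ae
    filter_upwards [hf] with ω hω
    rw [hω]
    simp [sq]
  rw [e2, variance_eq_sub hg.memLp_two, hmean]
  simp

theorem exp_GG {Y : Lp ℝ 2 P} (hY : Y ∈ GG hh hε) :
    ∫⁻ ω, ENNReal.ofReal (exp (Y ω)) ∂P ≤ ENNReal.ofReal (exp (‖Y‖ ^ 2 / 2)) := by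
  have hprob := gff_prob hh
  have hY' : Y ∈ closure (Submodule.span ℝ (Set.range (HH hh hε)) : Set (Lp ℝ 2 P)) := by
    rw [← Submodule.topologicalClosure_coe]; exact hY
  obtain ⟨y, hy, hlim⟩ := mem_closure_iff_seq_limit.1 hY'
  obtain ⟨φ, hφ, hae⟩ := (tendstoInMeasure_of_tendsto_Lp hlim).exists_seq_tendsto_ae
  have hnorm : Tendsto (fun n => ENNReal.ofReal (exp (‖y (φ n)‖ ^ 2 / 2))) atTop
      (𝓝 (ENNReal.ofReal (exp (‖Y‖ ^ 2 / 2)))) := by
    apply ENNReal.tendsto_ofReal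
    apply (Real.continuous_exp.tendsto _).comp
    exact ((hlim.comp hφ.tendsto_atTop).norm.pow 2).div_const 2
  calc ∫⁻ ω, ENNReal.ofReal (exp (Y ω)) ∂P
      = ∫⁻ ω, liminf (fun n => ENNReal.ofReal (exp (y (φ n) ω))) atTop ∂P := by
        apply lintegral_congr_ae
        filter_upwards [hae] with ω hω
        have : Tendsto (fun n => ENNReal.ofReal (exp (y (φ n) ω))) atTop
            (𝓝 (ENNReal.ofReal (exp (Y ω)))) :=
          ENNReal.tendsto_ofReal ((Real.continuous_exp.tendsto _).comp hω)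
        exact this.liminf_eq.symm
    _ ≤ liminf (fun n => ∫⁻ ω, ENNReal.ofReal (exp (y (φ n) ω)) ∂P) atTop := by
        apply lintegral_liminf_le'
        intro n
        exact ENNReal.measurable_ofReal.comp_aemeasurable
          (Real.measurable_exp.comp_aemeasurable (Lp.aestronglyMeasurable _).aemeasurable)
    _ = liminf (fun n => ENNReal.ofReal (exp (‖y (φ n)‖ ^ 2 / 2))) atTop := by
        congr 1
        ext n
        exact exp_span hh hε (hy _)
    _ = ENNReal.ofReal (exp (‖Y‖ ^ 2 / 2)) := hnorm.liminf_eq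

end Pool.Agent.H964
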