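import Pool.Agent.H964.LF.Pw
import Pool.Agent.H964.LF.SG

/-!
# The expectation of the potential
-/

set_option autoImplicit false

namespace Pool.Agent.H964

open MeasureTheory ProbabilityTheory Real Filter Topology
open Pool.Agent.Y980

theorem log_low {y s θ : ℝ} (hθ : 0 < θ) (hθ1 : θ ≤ 1 / 100) (hy : y ≤ 8 / 5)
    (hs : s ^ 2 ≤ 10 * (y - 1 + 8 * θ)) : 0 < y ∧ s ^ 2 / 20 - 20 * θ ≤ log y := by
  have h1 : 0 ≤ y - 1 + 8 * θ := by nlinarith [sq_nonneg s]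
  have hy0 : 0.92 ≤ y := by norm_num; linarith
  have hypos : 0 < y := by norm_num at hy0; linarith
  refine ⟨hypos, ?_⟩
  have h2 := one_sub_inv_le_log_of_pos hypos
  have h3 : 1 - y⁻¹ = (y - 1) / y := by field_simp
  rcases le_or_gt 1 y with h | h
  · have h4 : (y - 1) / 2 ≤ (y - 1) / y := by
      apply div_le_div_of_nonneg_left (by linarith) hypos (by linarith)
    linarith
  · have h4 : 2 * (y - 1) ≤ (y - 1) / y := by
      rw [le_div_iff₀ hypos]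
      norm_num at hy0
      nlinarith
    linarith

theorem step_real {p b ξ q C s y θ K : ℝ} (hs0 : 0 ≤ s) (hθ : 0 < θ) (hθ1 : θ ≤ 1 / 100)
    (hp : 0 < p) (hpθ : p * θ ≤ 1) (hb0 : 0 ≤ b) (hb : b ≤ p / 2)
    (hY : ∀ s : ℝ, 0 ≤ s → p ^ 2 * ξ ^ 2 * (C * s ^ q) ≤ p * s ^ 2 / 40 + K)
    (hy : y ≤ 8 / 5) (hs : s ^ 2 ≤ 10 * (y - 1 + 8 * θ)) :
    2 ^ (-p) * (y / 2) ^ (b - p) * exp (p ^ 2 * ξ ^ 2 * (C * s ^ q)) ≤ 2 ^ (-b) * exp (20 + K) := by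
  obtain ⟨hy0, hlog⟩ := log_low hθ hθ1 hy hs
  have e1 : (2 : ℝ) ^ (-p) * (y / 2) ^ (b - p) = 2 ^ (-b) * exp ((b - p) * log y) := by
    rw [Real.div_rpow hy0.le (by norm_num), Real.rpow_def_of_pos hy0, mul_comm (log y) (b - p)]
    have : (2 : ℝ) ^ (-p) = 2 ^ (-b) * 2 ^ (b - p) := by
      rw [← Real.rpow_add (by norm_num)]; congr 1; ring
    rw [this]
    field_simp
  rw [e1, mul_assoc, ← Real.exp_add]
  apply mul_le_mul_of_nonneg_left _ (by positivity)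
  apply Real.exp_le_exp.2
  have h1 := hY s hs0
  have h2 : (b - p) * log y ≤ (b - p) * (s ^ 2 / 20 - 20 * θ) :=
    mul_le_mul_of_nonpos_left hlog (by linarith)
  have h3 : (b - p) * (s ^ 2 / 20 - 20 * θ) ≤ -(p * s ^ 2 / 40) + 20 := by
    have h4 : (b - p) * (s ^ 2 / 20) ≤ -(p / 2) * (s ^ 2 / 20) :=
      mul_le_mul_of_nonneg_right (by linarith) (by positivity)
    have h5 : (p - b) * θ ≤ p * θ := mul_le_mul_of_nonneg_right (by linarith) hθ.le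
    linarith
  linarith

variable {Ω : Type*} [MeasurableSpace Ω] {P : Measure Ω} {h : ℝ → ℂ → Ω → ℝ}
variable (hh : IsGFF P h) {ε : ℝ} (hε : 0 < ε)

theorem norm_HH_sq_le {R : ℝ} (hR : 0 ≤ R) {x : ℂ} (hx : ‖x‖ ≤ R) (hε1 : ε ≤ 1) :
    ‖HH hh hε x‖ ^ 2 ≤ 2 * log (R + 2) - log ε := by
  rw [HH_norm_sq]
  have : cN ε x ≤ log (R + 2) := by
    apply cN_le (log_nonneg (by linarith))
    intro y hy
    rw [exp_log (by linarith)]
    rw [mem_sphere_iff_norm, abs_of_pos hε] at hy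
    calc ‖y‖ = ‖(y - x) + x‖ := by ring_nf
      _ ≤ ‖y - x‖ + ‖x‖ := norm_add_le _ _
      _ ≤ _ := by linarith
  linarith

/-- the constant for short segments -/
noncomputable def B0 (ε ξ p θ R : ℝ) : ℝ :=
  100 * (ε ^ (1 - p) * exp (2 * ξ ^ 2 * (2 * log (R + 2) - log ε) + 4 * p ^ 2 * ξ ^ 2 * (1 / θ + 4)))

theorem exp_term {ξ p : ℝ} {D X G : Lp ℝ 2 P} (hD : D ∈ GG hh hε) (hX : X ∈ GG hh hε)
    (hG : G ∈ GG hh hε) {V W : ℝ} (hV : ‖G‖ ^ 2 ≤ V) (hW : ‖X - G‖ ^ 2 ≤ W) :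
    ∫⁻ ω, ENNReal.ofReal (exp (-(p * ξ) * D ω) * (exp (p * ξ * X ω) * (ε * exp (ξ * G ω)) ^ (1 - p))) ∂P ≤
      ENNReal.ofReal (exp (p ^ 2 * ξ ^ 2 * ‖D‖ ^ 2) * (ε ^ (1 - p) * exp (2 * ξ ^ 2 * V + 2 * p ^ 2 * ξ ^ 2 * W))) := by
  set Y : Lp ℝ 2 P := (-(p * ξ)) • D + (ξ • G + (p * ξ) • (X - G)) with hY
  have hYG : Y ∈ GG hh hε := by
    apply Submodule.add_mem _ (Submodule.smul_mem _ _ hD)
    exact Submodule.add_mem _ (Submodule.smul_mem _ _ hG)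
      (Submodule.smul_mem _ _ (Submodule.sub_mem _ hX hG))
  have hcoe : ∀ᵐ ω ∂P, Y ω = -(p * ξ) * D ω + (ξ * G ω + p * ξ * (X ω - G ω)) := by
    filter_upwards [Lp.coeFn_add ((-(p * ξ)) • D) (ξ • G + (p * ξ) • (X - G)),
      Lp.coeFn_smul (-(p * ξ)) D, Lp.coeFn_add (ξ • G) ((p * ξ) • (X - G)), Lp.coeFn_smul ξ G,
      Lp.coeFn_smul (p * ξ) (X - G), Lp.coeFn_sub X G] with ω a1 a2 a3 a4 a5 a6
    rw [hY, a1, Pi.add_apply, a2, a3, Pi.add_apply, a4, a5, Pi.smul_apply, Pi.smul_apply,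
      Pi.smul_apply, a6, Pi.sub_apply]
    simp [smul_eq_mul]
  have e1 : ∫⁻ ω, ENNReal.ofReal (exp (-(p * ξ) * D ω) * (exp (p * ξ * X ω) * (ε * exp (ξ * G ω)) ^ (1 - p))) ∂P =
      ENNReal.ofReal (ε ^ (1 - p)) * ∫⁻ ω, ENNReal.ofReal (exp (Y ω)) ∂P := by
    rw [← lintegral_const_mul' _ _ ENNReal.ofReal_ne_top]
    apply lintegral_congr_ae
    filter_upwards [hcoe] with ω hω
    rw [← ENNReal.ofReal_mul (by positivity), hω]
    congr 1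
    rw [Real.mul_rpow hε.le (exp_pos _).le, ← Real.exp_mul]
    rw [show exp (-(p * ξ) * D ω) * (exp (p * ξ * X ω) * (ε ^ (1 - p) * exp (ξ * G ω * (1 - p)))) =
      ε ^ (1 - p) * (exp (-(p * ξ) * D ω) * exp (p * ξ * X ω) * exp (ξ * G ω * (1 - p))) by ring,
      ← Real.exp_add, ← Real.exp_add]
    congr 2
    ring
  rw [e1]
  have hnorm : ‖Y‖ ^ 2 / 2 ≤ p ^ 2 * ξ ^ 2 * ‖D‖ ^ 2 + (2 * ξ ^ 2 * V + 2 * p ^ 2 * ξ ^ 2 * W) := by
    have par : ∀ a b : Lp ℝ 2 P, ‖a + b‖ ^ 2 ≤ 2 * ‖a‖ ^ 2 + 2 * ‖b‖ ^ 2 := by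
      intro a b
      have h1 := norm_add_le a b
      have h2 : ‖a + b‖ ^ 2 ≤ (‖a‖ + ‖b‖) ^ 2 := by gcongr
      nlinarith [sq_nonneg (‖a‖ - ‖b‖)]
    have h1 := par ((-(p * ξ)) • D) (ξ • G + (p * ξ) • (X - G))
    have h2 := par (ξ • G) ((p * ξ) • (X - G))
    rw [← hY] at h1
    rw [norm_smul, mul_pow] at h1 h2
    rw [norm_smul (p * ξ), mul_pow] at h2
    simp only [Real.norm_eq_abs, sq_abs, neg_sq] at h1 h2
    have h3 : ξ ^ 2 * ‖G‖ ^ 2 ≤ ξ ^ 2 * V := by gcongr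
    have h4 : (p * ξ) ^ 2 * ‖X - G‖ ^ 2 ≤ (p * ξ) ^ 2 * W := by gcongr
    nlinarith
  calc ENNReal.ofReal (ε ^ (1 - p)) * ∫⁻ ω, ENNReal.ofReal (exp (Y ω)) ∂P
      ≤ ENNReal.ofReal (ε ^ (1 - p)) * ENNReal.ofReal (exp (‖Y‖ ^ 2 / 2)) := by
        gcongr
        exact exp_GG hh hε hYG
    _ = ENNReal.ofReal (ε ^ (1 - p) * exp (‖Y‖ ^ 2 / 2)) := by
        rw [ENNReal.ofReal_mul (by positivity)]
    _ ≤ _ := by
        apply ENNReal.ofReal_le_ofReal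
        calc ε ^ (1 - p) * exp (‖Y‖ ^ 2 / 2)
            ≤ ε ^ (1 - p) * exp (p ^ 2 * ξ ^ 2 * ‖D‖ ^ 2 + (2 * ξ ^ 2 * V + 2 * p ^ 2 * ξ ^ 2 * W)) := by
              gcongr
          _ = _ := by rw [Real.exp_add]; ring

theorem exp_leaf {ξ p θ R : ℝ} (hθ : 0 < θ) (hε1 : ε ≤ 1) (hR : 0 ≤ R)
    {D : Lp ℝ 2 P} (hD : D ∈ GG hh hε) {u v : ℂ} (huv : θ * ‖u - v‖ < ε) (hu : ‖u‖ + 4 ≤ R) :
    ∫⁻ ω, ENNReal.ofReal (exp (-(p * ξ) * D ω) *
      leaf ε ξ p (fun a b => XX hh hε a b ω) (fun z => h ε z ω) u v) ∂P ≤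
      ENNReal.ofReal (exp (p ^ 2 * ξ ^ 2 * ‖D‖ ^ 2) * B0 ε ξ p θ R) := by
  have hX : XX hh hε u v ∈ GG hh hε := XX_mem hh hε u v
  have hmeas : ∀ n : ℤ × ℤ, AEMeasurable (fun ω => ENNReal.ofReal (exp (-(p * ξ) * D ω) *
      (exp (p * ξ * XX hh hε u v ω) * (ε * exp (ξ * h ε (lp ε n) ω)) ^ (1 - p)))) P := by
    intro n
    have m1 : AEMeasurable (D : Ω → ℝ) P := (Lp.aestronglyMeasurable D).aemeasurable
    have m2 : AEMeasurable (XX hh hε u v : Ω → ℝ) P :=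
      (Lp.aestronglyMeasurable (XX hh hε u v)).aemeasurable
    have m3 : AEMeasurable (h ε (lp ε n)) P := (hh.measurable ε (lp ε n) hε).aemeasurable
    apply AEMeasurable.ennreal_ofReal
    apply AEMeasurable.mul
    · exact Real.measurable_exp.comp_aemeasurable (m1.const_mul _)
    · apply AEMeasurable.mul
      · exact Real.measurable_exp.comp_aemeasurable (m2.const_mul _)
      · exact ((Real.measurable_exp.comp_aemeasurable (m3.const_mul _)).const_mul _).pow_const _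
  have e1 : ∫⁻ ω, ENNReal.ofReal (exp (-(p * ξ) * D ω) *
      leaf ε ξ p (fun a b => XX hh hε a b ω) (fun z => h ε z ω) u v) ∂P =
      ∑ n ∈ LB ε u, ∫⁻ ω, ENNReal.ofReal (exp (-(p * ξ) * D ω) *
        (exp (p * ξ * XX hh hε u v ω) * (ε * exp (ξ * h ε (lp ε n) ω)) ^ (1 - p))) ∂P := by
    rw [← lintegral_finsetSum' _ (fun n _ => hmeas n)]
    apply lintegral_congr
    intro ω
    rw [leaf, Finset.mul_sum, ENNReal.ofReal_sum_of_nonneg]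
    intro n _
    positivity
  rw [e1]
  have hterm : ∀ n ∈ LB ε u, ∫⁻ ω, ENNReal.ofReal (exp (-(p * ξ) * D ω) *
        (exp (p * ξ * XX hh hε u v ω) * (ε * exp (ξ * h ε (lp ε n) ω)) ^ (1 - p))) ∂P ≤
      ENNReal.ofReal (exp (p ^ 2 * ξ ^ 2 * ‖D‖ ^ 2) * (ε ^ (1 - p) *
        exp (2 * ξ ^ 2 * (2 * log (R + 2) - log ε) + 4 * p ^ 2 * ξ ^ 2 * (1 / θ + 4)))) := by
    intro n hn
    have hnear := LB_near hε hn
    have hx : ‖lp ε n‖ ≤ R := by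
      calc ‖lp ε n‖ = ‖(lp ε n - u) + u‖ := by ring_nf
        _ ≤ ‖lp ε n - u‖ + ‖u‖ := norm_add_le _ _
        _ ≤ _ := by linarith
    have hV := norm_HH_sq_le hh hε hR hx hε1
    have hdist : ‖u - v‖ ≤ ε / θ := by
      rw [le_div_iff₀ hθ]; linarith
    have hW : ‖XX hh hε u v - HH hh hε (lp ε n)‖ ^ 2 ≤ 2 * (1 / θ + 4) := by
      have := norm_XX_sub_HH_le hh hε (a := u) (b := v) (x := lp ε n) (B := ε / θ + 4 * ε) (by
        intro t ht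
        calc ‖pt u v t - lp ε n‖ = ‖(t : ℂ) * (v - u) - (lp ε n - u)‖ := by unfold pt; ring_nf
          _ ≤ ‖(t : ℂ) * (v - u)‖ + ‖lp ε n - u‖ := norm_sub_le _ _
          _ = t * ‖u - v‖ + ‖lp ε n - u‖ := by
              rw [norm_mul, Complex.norm_real, norm_of_nonneg ht.1, norm_sub_rev v u]
          _ ≤ 1 * ‖u - v‖ + 4 * ε := by
              have := ht.2
              gcongr
          _ ≤ _ := by linarith)
      refine this.trans (le_of_eq ?_)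
      field_simp
    have := exp_term hh hε (ξ := ξ) (p := p) hD hX (HH_mem hh hε (lp ε n)) hV hW
    rw [show 2 * p ^ 2 * ξ ^ 2 * (2 * (1 / θ + 4)) = 4 * p ^ 2 * ξ ^ 2 * (1 / θ + 4) by ring] at this
    refine le_trans (le_of_eq ?_) this
    apply lintegral_congr_ae
    filter_upwards [HH_coe hh hε (lp ε n)] with ω hω
    rw [hω]
  calc _ ≤ ∑ n ∈ LB ε u, ENNReal.ofReal (exp (p ^ 2 * ξ ^ 2 * ‖D‖ ^ 2) * (ε ^ (1 - p) *
        exp (2 * ξ ^ 2 * (2 * log (R + 2) - log ε) + 4 * p ^ 2 * ξ ^ 2 * (1 / θ + 4)))) :=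
        Finset.sum_le_sum hterm
    _ = _ := by
        rw [Finset.sum_const, card_LB, B0, nsmul_eq_mul]
        rw [show ((100 : ℕ) : ENNReal) = ENNReal.ofReal 100 by
          rw [ENNReal.ofReal_ofNat]; norm_num, ← ENNReal.ofReal_mul (by norm_num)]
        congr 1
        ring

end Pool.Agent.H964
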