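import Mathlib

/-!
# Geometry of paths: subdivision of a path
-/

set_option autoImplicit false

namespace Pool.Agent.H964

/-- parallelogram law -/
theorem mid_sq (z a b : ℂ) :
    ‖z - (a + b) / 2‖ ^ 2 = (‖z - a‖ ^ 2 + ‖z - b‖ ^ 2) / 2 - ‖a - b‖ ^ 2 / 4 := by
  simp only [Complex.sq_norm, Complex.normSq_apply, Complex.sub_re, Complex.sub_im, Complex.div_re,
    Complex.div_im, Complex.add_re, Complex.add_im, Complex.re_ofNat, Complex.im_ofNat]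
  norm_num
  ring

theorem aux_case1 {A ρ B : ℝ} (hρ : 0 ≤ ρ) (h1 : ρ / 2 ≤ A) (h2 : 2 * A - ρ ≤ B) :
    (A - ρ / 2) * (5 / 4 * ρ) ≤ 9 / 2 * ρ * B := by
  have h3 : 0 ≤ 2 * A - ρ := by linarith
  calc (A - ρ / 2) * (5 / 4 * ρ) = (5 / 8 * ρ) * (2 * A - ρ) := by ring
    _ ≤ (9 / 2 * ρ) * (2 * A - ρ) := by gcongr <;> norm_num
    _ ≤ 9 / 2 * ρ * B := by gcongr

theorem aux_case2 {ρ B : ℝ} (hρ : 0 ≤ ρ) (h2 : ρ / 2 ≤ B) :
    9 / 4 * ρ ^ 2 ≤ 9 / 2 * ρ * B := by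
  calc 9 / 4 * ρ ^ 2 = 9 / 2 * ρ * (ρ / 2) := by ring
    _ ≤ _ := by gcongr

theorem core {x : ℕ → ℂ} {ε : ℝ} (hε : 0 < ε) {i j : ℕ} (hij : i < j)
    (hx : ∀ k, i ≤ k → k < j → ‖x (k + 1) - x k‖ ≤ ε) (hρ : 8 * ε ≤ ‖x i - x j‖) :
    ∃ k₁ k₂, i < k₁ ∧ k₁ ≤ k₂ ∧ k₂ < j ∧
      ‖x i - x k₁‖ ≤ 3 / 4 * ‖x i - x j‖ + ε ∧ ‖x k₂ - x j‖ ≤ 3 / 4 * ‖x i - x j‖ + ε ∧
      ‖x k₁ - (x i + x j) / 2‖ ≤ 5 / 4 * ‖x i - x j‖ + ε ∧
      ‖x k₂ - (x i + x j) / 2‖ ≤ 5 / 4 * ‖x i - x j‖ + ε ∧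
      (∀ l, l = k₁ ∨ l = k₂ → ‖x l - (x i + x j) / 2‖ ^ 2 ≤
        9 / 2 * ‖x i - x j‖ * (2 * ‖x i - x k₁‖ - ‖x i - x j‖ + 4 * ε)) ∧
      (∀ l, l = k₁ ∨ l = k₂ → ‖x l - (x i + x j) / 2‖ ^ 2 ≤
        9 / 2 * ‖x i - x j‖ * (2 * ‖x k₂ - x j‖ - ‖x i - x j‖ + 4 * ε)) := by
  set ρ := ‖x i - x j‖ with hρdef
  have hρ0 : 0 < ρ := by linarith
  -- the first time when the path is closer to `x j`
  have hex : ∃ k, i ≤ k ∧ ‖x k - x j‖ ≤ ‖x k - x i‖ := ⟨j, hij.le, by simp⟩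
  classical
  obtain ⟨hk1, hk2⟩ := Nat.find_spec hex
  set k := Nat.find hex with hk
  have hkj : k ≤ j := Nat.find_min' hex ⟨hij.le, by simp⟩
  have hki : i < k := by
    rcases hk1.lt_or_eq with h | h
    · exact h
    · exfalso
      rw [← h] at hk2
      simp only [sub_self, norm_zero] at hk2
      linarith
  obtain ⟨l, hkl⟩ : ∃ l, k = l + 1 := ⟨k - 1, by omega⟩
  have hl : ‖x l - x i‖ < ‖x l - x j‖ := by
    have := Nat.find_min hex (m := l) (by omega)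
    push Not at this
    exact this (by omega)
  rw [hkl] at hk1 hk2 hkj hki
  clear_value k
  have hstep := hx l (by omega) (by omega)
  set A := ‖x (l + 1) - x i‖ with hA
  set B := ‖x (l + 1) - x j‖ with hB
  have hAB : A < B + 2 * ε := by
    have e1 : A ≤ ‖x (l + 1) - x l‖ + ‖x l - x i‖ := by
      calc A = ‖(x (l + 1) - x l) + (x l - x i)‖ := by rw [hA]; ring_nf
        _ ≤ _ := norm_add_le _ _
    have e2 : ‖x l - x j‖ ≤ ‖x (l + 1) - x l‖ + B := by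
      calc ‖x l - x j‖ = ‖(x (l + 1) - x j) - (x (l + 1) - x l)‖ := by ring_nf
        _ ≤ B + ‖x (l + 1) - x l‖ := norm_sub_le _ _
        _ = _ := by ring
    linarith
  have hsum : ρ ≤ A + B := by
    calc ρ = ‖(x (l + 1) - x j) - (x (l + 1) - x i)‖ := by rw [hρdef]; ring_nf
      _ ≤ B + A := norm_sub_le _ _
      _ = _ := by ring
  have hA2 : ρ / 2 ≤ A := by linarith
  have hlj : l + 1 < j := by
    rcases hkj.lt_or_eq with h | h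
    · exact h
    · exfalso
      have e1 : A = ρ := by rw [hA, h, hρdef, norm_sub_rev]
      have e2 : B = 0 := by rw [hB, h]; simp
      linarith
  have hmid := mid_sq (x (l + 1)) (x i) (x j)
  rw [← hA, ← hB, ← hρdef] at hmid
  rcases le_or_gt A (3 / 4 * ρ) with hcase | hcase
  · -- first case
    have hB0 : 0 ≤ B := norm_nonneg _
    have hmid2 : ‖x (l + 1) - (x i + x j) / 2‖ ^ 2 ≤ (A - ρ / 2) * (5 / 4 * ρ) := by
      rw [hmid]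
      have h1 : B ^ 2 ≤ A ^ 2 := by gcongr
      have h2 : (A - ρ / 2) * (A + ρ / 2) ≤ (A - ρ / 2) * (5 / 4 * ρ) := by
        apply mul_le_mul_of_nonneg_left _ (by linarith)
        linarith
      have h3 : (A - ρ / 2) * (A + ρ / 2) = A ^ 2 - ρ ^ 2 / 4 := by ring
      linarith
    have e1 : ‖x i - x (l + 1)‖ = A := by rw [hA, norm_sub_rev]
    have hdist : ‖x (l + 1) - (x i + x j) / 2‖ ≤ 5 / 4 * ρ + ε := by
      have : ‖x (l + 1) - (x i + x j) / 2‖ ≤ A + ρ / 2 := by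
        calc ‖x (l + 1) - (x i + x j) / 2‖ = ‖(x (l + 1) - x i) + (x i - x j) / 2‖ := by ring_nf
          _ ≤ A + ‖(x i - x j) / 2‖ := norm_add_le _ _
          _ = A + ρ / 2 := by rw [norm_div]; simp [hρdef]
      linarith
    refine ⟨l + 1, l + 1, by omega, le_rfl, hlj, ?_, ?_, hdist, hdist, ?_, ?_⟩
    · rw [e1]; linarith
    · rw [← hB]; linarith
    · rintro m (rfl | rfl)
      all_goals
        rw [e1]
        exact hmid2.trans (aux_case1 hρ0.le hA2 (by linarith))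
    · rintro m (rfl | rfl)
      all_goals
        rw [← hB]
        exact hmid2.trans (aux_case1 hρ0.le hA2 (by linarith))
  · -- second case
    have hex1 : ∃ k, i ≤ k ∧ 3 / 4 * ρ ≤ ‖x i - x k‖ :=
      ⟨l + 1, by omega, by rw [norm_sub_rev, ← hA]; exact hcase.le⟩
    obtain ⟨a1, a2⟩ := Nat.find_spec hex1
    set k₁ := Nat.find hex1 with hk₁
    have a3 : k₁ ≤ l + 1 := Nat.find_min' hex1 ⟨by omega, by rw [norm_sub_rev, ← hA]; exact hcase.le⟩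
    have a4 : i < k₁ := by
      rcases a1.lt_or_eq with h | h
      · exact h
      · exfalso
        rw [← h] at a2
        simp only [sub_self, norm_zero] at a2
        linarith
    obtain ⟨l₁, hl₁⟩ : ∃ l₁, k₁ = l₁ + 1 := ⟨k₁ - 1, by omega⟩
    have a5 : ‖x i - x l₁‖ < 3 / 4 * ρ := by
      have := Nat.find_min hex1 (m := l₁) (by omega)
      push Not at this
      exact this (by omega)
    have a6 : ‖x i - x k₁‖ ≤ 3 / 4 * ρ + ε := by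
      have hs := hx l₁ (by omega) (by omega)
      rw [hl₁]
      calc ‖x i - x (l₁ + 1)‖ = ‖(x i - x l₁) - (x (l₁ + 1) - x l₁)‖ := by ring_nf
        _ ≤ ‖x i - x l₁‖ + ‖x (l₁ + 1) - x l₁‖ := norm_sub_le _ _
        _ ≤ _ := by linarith
    -- the last time
    have hB2 : 3 / 4 * ρ - 2 * ε ≤ ‖x (l + 1) - x j‖ := by rw [← hB]; linarith
    set S := (Finset.Icc (l + 1) j).filter fun k => 3 / 4 * ρ - 2 * ε ≤ ‖x k - x j‖ with hS
    have hSne : S.Nonempty := ⟨l + 1, by rw [hS, Finset.mem_filter, Finset.mem_Icc]; exact ⟨⟨le_rfl, hlj.le⟩, hB2⟩⟩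
    set k₂ := S.max' hSne with hk₂
    have b0 := S.max'_mem hSne
    rw [← hk₂, hS, Finset.mem_filter, Finset.mem_Icc] at b0
    obtain ⟨⟨b1, b2⟩, b3⟩ := b0
    have b4 : k₂ < j := by
      rcases b2.lt_or_eq with h | h
      · exact h
      · exfalso
        rw [h] at b3
        simp only [sub_self, norm_zero] at b3
        linarith
    have b5 : ‖x (k₂ + 1) - x j‖ < 3 / 4 * ρ - 2 * ε := by
      by_contra hcon
      push Not at hcon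
      have : k₂ + 1 ∈ S := by
        rw [hS, Finset.mem_filter, Finset.mem_Icc]
        exact ⟨⟨by omega, by omega⟩, hcon⟩
      have := S.le_max' _ this
      rw [← hk₂] at this
      omega
    have b6 : ‖x k₂ - x j‖ ≤ 3 / 4 * ρ + ε := by
      have hs := hx k₂ (by omega) b4
      calc ‖x k₂ - x j‖ = ‖(x (k₂ + 1) - x j) - (x (k₂ + 1) - x k₂)‖ := by ring_nf
        _ ≤ ‖x (k₂ + 1) - x j‖ + ‖x (k₂ + 1) - x k₂‖ := norm_sub_le _ _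
        _ ≤ _ := by linarith
    have c1 : ‖x k₁ - (x i + x j) / 2‖ ≤ 5 / 4 * ρ + ε := by
      calc ‖x k₁ - (x i + x j) / 2‖ = ‖(x i - x j) / 2 - (x i - x k₁)‖ := by ring_nf
        _ ≤ ‖(x i - x j) / 2‖ + ‖x i - x k₁‖ := norm_sub_le _ _
        _ = ρ / 2 + ‖x i - x k₁‖ := by rw [norm_div]; simp [hρdef]
        _ ≤ _ := by linarith
    have c2 : ‖x k₂ - (x i + x j) / 2‖ ≤ 5 / 4 * ρ + ε := by
      calc ‖x k₂ - (x i + x j) / 2‖ = ‖(x k₂ - x j) - (x i - x j) / 2‖ := by ring_nf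
        _ ≤ ‖x k₂ - x j‖ + ‖(x i - x j) / 2‖ := norm_sub_le _ _
        _ = ‖x k₂ - x j‖ + ρ / 2 := by rw [norm_div]; simp [hρdef]
        _ ≤ _ := by linarith
    have c3 : ∀ l, l = k₁ ∨ l = k₂ → ‖x l - (x i + x j) / 2‖ ^ 2 ≤ 9 / 4 * ρ ^ 2 := by
      have key : ∀ t : ℝ, 0 ≤ t → t ≤ 5 / 4 * ρ + ε → t ^ 2 ≤ 9 / 4 * ρ ^ 2 := by
        intro t ht0 ht
        have : t ≤ 3 / 2 * ρ := by linarith
        calc t ^ 2 ≤ (3 / 2 * ρ) ^ 2 := by gcongr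
          _ = 9 / 4 * ρ ^ 2 := by ring
      rintro l (rfl | rfl)
      · exact key _ (norm_nonneg _) c1
      · exact key _ (norm_nonneg _) c2
    refine ⟨k₁, k₂, a4, by omega, b4, a6, b6, c1, c2, ?_, ?_⟩
    · intro l hl
      exact (c3 l hl).trans (aux_case2 hρ0.le (by linarith))
    · intro l hl
      exact (c3 l hl).trans (aux_case2 hρ0.le (by linarith))

/-- grid points around `u` -/
noncomputable def gp (u : ℂ) (a : ℝ) (n : ℤ × ℤ) : ℂ := u + ⟨a * n.1, a * n.2⟩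

/-- box of integer points -/
noncomputable def Bx (N : ℕ) : Finset (ℤ × ℤ) := Finset.Icc (-(N : ℤ)) N ×ˢ Finset.Icc (-(N : ℤ)) N

theorem card_Bx (N : ℕ) : (Bx N).card = (2 * N + 1) ^ 2 := by
  unfold Bx
  rw [Finset.card_product, Int.card_Icc]
  have : ((N : ℤ) + 1 - -(N : ℤ)).toNat = 2 * N + 1 := by omega
  rw [this]; ring

theorem exists_gp {u z : ℂ} {a R : ℝ} (ha : 0 < a) {N : ℕ} (hN : R / a + 1 ≤ N) (hz : ‖z - u‖ ≤ R) :
    ∃ n ∈ Bx N, ‖z - gp u a n‖ ≤ a := by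
  refine ⟨(round ((z - u).re / a), round ((z - u).im / a)), ?_, ?_⟩
  · have key : ∀ y : ℝ, |y| ≤ R → round (y / a) ∈ Finset.Icc (-(N : ℤ)) N := by
      intro y hy
      have h1 : |y / a - round (y / a)| ≤ 1 / 2 := abs_sub_round _
      have h2 : |y / a| ≤ R / a := by rw [abs_div, abs_of_pos ha]; gcongr
      rw [abs_le] at h1 h2
      rw [Finset.mem_Icc]
      constructor
      · have : (-(N : ℝ)) ≤ (round (y / a) : ℝ) := by linarith [h1.2, h2.1]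
        exact_mod_cast this
      · have : ((round (y / a) : ℤ) : ℝ) ≤ N := by linarith [h1.1, h2.2]
        exact_mod_cast this
    unfold Bx
    rw [Finset.mem_product]
    exact ⟨key _ ((Complex.abs_re_le_norm _).trans hz), key _ ((Complex.abs_im_le_norm _).trans hz)⟩
  · have key : ∀ y : ℝ, |y - a * round (y / a)| ≤ a / 2 := by
      intro y
      have h1 : |y / a - round (y / a)| ≤ 1 / 2 := abs_sub_round _
      have e : y - a * round (y / a) = a * (y / a - round (y / a)) := by field_simp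
      rw [e, abs_mul, abs_of_pos ha]
      calc a * |y / a - round (y / a)| ≤ a * (1 / 2) := by gcongr
        _ = a / 2 := by ring
    refine (Complex.norm_le_abs_re_add_abs_im _).trans ?_
    have e1 : (z - gp u a (round ((z - u).re / a), round ((z - u).im / a))).re =
        (z - u).re - a * round ((z - u).re / a) := by
      simp [gp]; ring
    have e2 : (z - gp u a (round ((z - u).re / a), round ((z - u).im / a))).im =
        (z - u).im - a * round ((z - u).im / a) := by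
      simp [gp]; ring
    rw [e1, e2]
    linarith [key (z - u).re, key (z - u).im]

/-- admissible refinements of the segment `[u, v]` -/
def Valid (θ : ℝ) (u v u' c c' v' : ℂ) : Prop :=
  ∃ s : ℝ, 0 ≤ s ∧ s ≤ 2 ∧
    ‖u' - u‖ ≤ s * ‖u - v‖ ∧ ‖c - (u + v) / 2‖ ≤ s * ‖u - v‖ ∧
    ‖c' - (u + v) / 2‖ ≤ s * ‖u - v‖ ∧ ‖v' - v‖ ≤ s * ‖u - v‖ ∧
    s ^ 2 ≤ 10 * (2 * ‖u' - c‖ / ‖u - v‖ - 1 + 8 * θ) ∧
    s ^ 2 ≤ 10 * (2 * ‖c' - v'‖ / ‖u - v‖ - 1 + 8 * θ) ∧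
    ‖u' - c‖ ≤ 4 / 5 * ‖u - v‖ ∧ ‖c' - v'‖ ≤ 4 / 5 * ‖u - v‖ ∧
    ‖u' - u‖ ≤ ‖u - v‖ ∧ ‖c' - u‖ ≤ 2 * ‖u - v‖

/-- a portion of a path and an approximating segment -/
structure Node (x : ℕ → ℂ) (ε θ : ℝ) (i j : ℕ) (u v : ℂ) : Prop where
  lt : i < j
  step : ∀ k, i ≤ k → k < j → ‖x (k + 1) - x k‖ ≤ ε
  hu : ‖x i - u‖ ≤ θ * ‖u - v‖
  hv : ‖x j - v‖ ≤ θ * ‖u - v‖

theorem conv_aux {E ρ ρ' ε y r t : ℝ} (hE : E ^ 2 ≤ 9 / 2 * ρ * (2 * ρ' - ρ + 4 * ε))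
    (h1 : ρ' ≤ y + t / 2) (h2 : ρ ≤ r + 2 * t) (h3 : r - 2 * t ≤ ρ) (h4 : ε ≤ t)
    (h5 : t ≤ r / 100) (ht : 0 < t) (hr : 0 < r) :
    (E + 5 / 4 * t) ^ 2 ≤ 10 * r * (2 * y - r + 8 * t) := by
  have hρ0 : 0 < ρ := by linarith
  have hnn : 0 ≤ 2 * ρ' - ρ + 4 * ε := by
    by_contra hcon
    push Not at hcon
    have := mul_neg_of_pos_of_neg (by positivity : 0 < 9 / 2 * ρ) hcon
    linarith [sq_nonneg E]
  have h10 : 2 * ρ' - ρ + 4 * ε ≤ 2 * y - r + 7 * t := by linarith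
  have h11 : 9 / 2 * ρ ≤ 5 * r := by linarith
  have h12 : E ^ 2 ≤ 5 * r * (2 * y - r + 7 * t) := by
    refine hE.trans ?_
    calc 9 / 2 * ρ * (2 * ρ' - ρ + 4 * ε) ≤ 5 * r * (2 * ρ' - ρ + 4 * ε) := by gcongr
      _ ≤ _ := by gcongr
  have h13 : (E + 5 / 4 * t) ^ 2 ≤ 2 * E ^ 2 + 25 / 8 * t ^ 2 := by
    nlinarith [sq_nonneg (E - 5 / 4 * t)]
  have h14 : t ^ 2 ≤ r * t := by nlinarith
  nlinarith

theorem exists_children {x : ℕ → ℂ} {ε θ : ℝ} (hε : 0 < ε) (hθ : 0 < θ) (hθ1 : θ ≤ 1 / 100)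
    {i j : ℕ} {u v : ℂ} (hN : Node x ε θ i j u v) (hr : ε ≤ θ * ‖u - v‖) {N : ℕ}
    (hNN : 8 / θ + 1 ≤ N) :
    ∃ n₁ ∈ Bx N, ∃ n₂ ∈ Bx N, ∃ n₃ ∈ Bx N, ∃ n₄ ∈ Bx N, ∃ k₁ k₂, i < k₁ ∧ k₁ ≤ k₂ ∧ k₂ < j ∧
      Valid θ u v (gp u (θ * ‖u - v‖ / 4) n₁) (gp u (θ * ‖u - v‖ / 4) n₂)
        (gp u (θ * ‖u - v‖ / 4) n₃) (gp u (θ * ‖u - v‖ / 4) n₄) ∧
      Node x ε θ i k₁ (gp u (θ * ‖u - v‖ / 4) n₁) (gp u (θ * ‖u - v‖ / 4) n₂) ∧
      Node x ε θ k₂ j (gp u (θ * ‖u - v‖ / 4) n₃) (gp u (θ * ‖u - v‖ / 4) n₄) := by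
  obtain ⟨hij, hstep, hu, hv⟩ := hN
  set r := ‖u - v‖ with hrdef
  have hr0 : 0 < r := by
    have : 0 < θ * r := lt_of_lt_of_le hε hr
    exact (pos_iff_pos_of_mul_pos this).1 hθ
  obtain ⟨t, htdef⟩ : ∃ t, t = θ * r := ⟨_, rfl⟩
  rw [← htdef] at hu hv hr ⊢
  have ht0 : 0 < t := by rw [htdef]; positivity
  have hθr : t ≤ r / 100 := by
    rw [htdef]
    calc θ * r ≤ 1 / 100 * r := by gcongr
      _ = r / 100 := by ring
  obtain ⟨a, ha⟩ : ∃ a, a = t / 4 := ⟨_, rfl⟩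
  rw [← ha]
  have ha0 : 0 < a := by rw [ha]; positivity
  -- the distance between the end points
  set ρ := ‖x i - x j‖ with hρ
  have hρ1 : ρ ≤ r + 2 * t := by
    calc ρ = ‖(x i - u) + (u - v) - (x j - v)‖ := by rw [hρ]; ring_nf
      _ ≤ ‖(x i - u) + (u - v)‖ + ‖x j - v‖ := norm_sub_le _ _
      _ ≤ ‖x i - u‖ + ‖u - v‖ + ‖x j - v‖ := by gcongr; exact norm_add_le _ _
      _ ≤ _ := by rw [← hrdef]; linarith
  have hρ2 : r - 2 * t ≤ ρ := by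
    have : r ≤ ρ + ‖x i - u‖ + ‖x j - v‖ := by
      calc r = ‖(x i - x j) - (x i - u) + (x j - v)‖ := by rw [hrdef]; ring_nf
        _ ≤ ‖(x i - x j) - (x i - u)‖ + ‖x j - v‖ := norm_add_le _ _
        _ ≤ ‖x i - x j‖ + ‖x i - u‖ + ‖x j - v‖ := by gcongr; exact norm_sub_le _ _
    linarith
  obtain ⟨k₁, k₂, h1, h2, h3, h4, h5, h6, h7, h8, h9⟩ :=
    core hε hij hstep (by rw [← hρ]; linarith)
  rw [← hρ] at h4 h5 h6 h7 h8 h9
  set m := (u + v) / 2 with hm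
  set m' := (x i + x j) / 2 with hm'
  have hmm : ‖m' - m‖ ≤ t := by
    calc ‖m' - m‖ = ‖((x i - u) + (x j - v)) / 2‖ := by rw [hm, hm']; ring_nf
      _ = ‖(x i - u) + (x j - v)‖ / 2 := by rw [norm_div]; simp
      _ ≤ (‖x i - u‖ + ‖x j - v‖) / 2 := by gcongr; exact norm_add_le _ _
      _ ≤ _ := by linarith
  have hum : ‖m - u‖ = r / 2 := by
    calc ‖m - u‖ = ‖-(u - v) / 2‖ := by rw [hm]; ring_nf
      _ = r / 2 := by rw [norm_div, norm_neg]; simp [hrdef]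
  -- closeness to `u`
  have near : ∀ z : ℂ, ‖z - m'‖ ≤ 5 / 4 * ρ + ε → ‖z - u‖ ≤ 2 * r := by
    intro z hz
    calc ‖z - u‖ = ‖(z - m') + (m' - m) + (m - u)‖ := by ring_nf
      _ ≤ ‖(z - m') + (m' - m)‖ + ‖m - u‖ := norm_add_le _ _
      _ ≤ ‖z - m'‖ + ‖m' - m‖ + ‖m - u‖ := by gcongr; exact norm_add_le _ _
      _ ≤ _ := by rw [hum]; linarith
  have hNN' : 2 * r / a + 1 ≤ N := by
    have : 2 * r / a = 8 / θ := by rw [ha, htdef]; field_simp; ring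
    rw [this]; exact hNN
  have hxi : ‖x i - u‖ ≤ 2 * r := by linarith
  have hxj : ‖x j - u‖ ≤ 2 * r := by
    calc ‖x j - u‖ = ‖(x j - v) - (u - v)‖ := by ring_nf
      _ ≤ ‖x j - v‖ + ‖u - v‖ := norm_sub_le _ _
      _ ≤ _ := by rw [← hrdef]; linarith
  obtain ⟨n₁, m1, e1⟩ := exists_gp ha0 hNN' hxi
  obtain ⟨n₂, m2, e2⟩ := exists_gp ha0 hNN' (near _ h6)
  obtain ⟨n₃, m3, e3⟩ := exists_gp ha0 hNN' (near _ h7)
  obtain ⟨n₄, m4, e4⟩ := exists_gp ha0 hNN' hxj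
  refine ⟨n₁, m1, n₂, m2, n₃, m3, n₄, m4, k₁, k₂, h1, h2, h3, ?_⟩
  clear hxi hxj hNN' hNN m1 m2 m3 m4
  set u' := gp u a n₁
  set c := gp u a n₂
  set c' := gp u a n₃
  set v' := gp u a n₄
  set r₁ := ‖u' - c‖ with hr₁
  set r₂ := ‖c' - v'‖ with hr₂
  set ρ₁ := ‖x i - x k₁‖ with hρ₁
  set ρ₂ := ‖x k₂ - x j‖ with hρ₂
  have tri : ∀ p q p' q' : ℂ, ‖p - p'‖ ≤ a → ‖q - q'‖ ≤ a → ‖p - q‖ ≤ ‖p' - q'‖ + t / 2 := by
    intro p q p' q' hp hq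
    calc ‖p - q‖ = ‖(p - p') + (p' - q') - (q - q')‖ := by ring_nf
      _ ≤ ‖(p - p') + (p' - q')‖ + ‖q - q'‖ := norm_sub_le _ _
      _ ≤ ‖p - p'‖ + ‖p' - q'‖ + ‖q - q'‖ := by gcongr; exact norm_add_le _ _
      _ ≤ _ := by linarith
  have t1 : ρ₁ ≤ r₁ + t / 2 := tri _ _ _ _ e1 e2
  have t2 : ρ₂ ≤ r₂ + t / 2 := tri _ _ _ _ e3 e4
  have t1' : r₁ ≤ ρ₁ + t / 2 := tri _ _ _ _ (by rw [norm_sub_rev]; exact e1) (by rw [norm_sub_rev]; exact e2)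
  have t2' : r₂ ≤ ρ₂ + t / 2 := tri _ _ _ _ (by rw [norm_sub_rev]; exact e3) (by rw [norm_sub_rev]; exact e4)
  -- the deviation
  obtain ⟨E, hE⟩ : ∃ E, E = max ‖x k₁ - m'‖ ‖x k₂ - m'‖ := ⟨_, rfl⟩
  have hE0 : 0 ≤ E := by rw [hE]; exact le_max_of_le_left (norm_nonneg _)
  have hE1 : ‖x k₁ - m'‖ ≤ E := by rw [hE]; exact le_max_left _ _
  have hE2 : ‖x k₂ - m'‖ ≤ E := by rw [hE]; exact le_max_right _ _
  have hE3 : E ≤ 5 / 4 * ρ + ε := by rw [hE]; exact max_le h6 h7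
  have hEsq : ∀ B : ℝ, (∀ l, l = k₁ ∨ l = k₂ → ‖x l - m'‖ ^ 2 ≤ B) → E ^ 2 ≤ B := by
    intro B hB
    rcases max_choice ‖x k₁ - m'‖ ‖x k₂ - m'‖ with h | h
    · rw [hE, h]; exact hB k₁ (Or.inl rfl)
    · rw [hE, h]; exact hB k₂ (Or.inr rfl)
  have hA := conv_aux (hEsq _ h8) t1 hρ1 hρ2 hr hθr ht0 hr0
  have hB := conv_aux (hEsq _ h9) t2 hρ1 hρ2 hr hθr ht0 hr0
  clear h8 h9 hEsq
  obtain ⟨s, hs⟩ : ∃ s, s = (E + 5 / 4 * t) / r := ⟨_, rfl⟩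
  have hs0 : 0 ≤ s := by rw [hs]; positivity
  have hsr : s * r = E + 5 / 4 * t := by rw [hs]; field_simp
  have conv : ∀ y : ℝ, (E + 5 / 4 * t) ^ 2 ≤ 10 * r * (2 * y - r + 8 * t) →
      s ^ 2 ≤ 10 * (2 * y / r - 1 + 8 * θ) := by
    intro y hy
    rw [hs, div_pow, div_le_iff₀ (by positivity)]
    calc (E + 5 / 4 * t) ^ 2 ≤ _ := hy
      _ = _ := by rw [htdef]; field_simp
  have sA := conv r₁ hA
  have sB := conv r₂ hB
  have hlow : ∀ y : ℝ, (E + 5 / 4 * t) ^ 2 ≤ 10 * r * (2 * y - r + 8 * t) → r / 4 ≤ y := by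
    intro y hy
    have h14 : 0 ≤ 10 * r * (2 * y - r + 8 * t) := le_trans (sq_nonneg _) hy
    have h15 : 0 ≤ 2 * y - r + 8 * t := nonneg_of_mul_nonneg_right h14 (by positivity)
    linarith
  have l1 := hlow _ hA
  have l2 := hlow _ hB
  have la : ∀ y : ℝ, r / 4 ≤ y → a ≤ θ * y := by
    intro y hy
    calc a = θ * (r / 4) := by rw [ha, htdef]; ring
      _ ≤ θ * y := by gcongr
  have la1 := la _ l1
  have la2 := la _ l2
  have dev : ∀ z w : ℂ, ‖z - m'‖ ≤ E → ‖z - w‖ ≤ a → ‖w - m‖ ≤ s * r := by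
    intro z w hz hw
    rw [hsr]
    calc ‖w - m‖ = ‖(z - m') + (m' - m) - (z - w)‖ := by ring_nf
      _ ≤ ‖(z - m') + (m' - m)‖ + ‖z - w‖ := norm_sub_le _ _
      _ ≤ ‖z - m'‖ + ‖m' - m‖ + ‖z - w‖ := by gcongr; exact norm_add_le _ _
      _ ≤ _ := by rw [ha] at hw; linarith
  have hu' : ‖u' - u‖ ≤ 5 / 4 * t := by
    calc ‖u' - u‖ = ‖(x i - u) - (x i - u')‖ := by ring_nf
      _ ≤ ‖x i - u‖ + ‖x i - u'‖ := norm_sub_le _ _
      _ ≤ _ := by rw [ha] at e1; linarith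
  have hv' : ‖v' - v‖ ≤ 5 / 4 * t := by
    calc ‖v' - v‖ = ‖(x j - v) - (x j - v')‖ := by ring_nf
      _ ≤ ‖x j - v‖ + ‖x j - v'‖ := norm_sub_le _ _
      _ ≤ _ := by rw [ha] at e4; linarith
  have dc' := dev _ _ hE2 e3
  have dc := dev _ _ hE1 e2
  have hsr2 : s * r ≤ 3 / 2 * r := by rw [hsr]; linarith
  refine ⟨⟨s, hs0, ?_, ?_, dc, dc', ?_, sA, sB, ?_, ?_, ?_, ?_⟩, ⟨h1, ?_, ?_, ?_⟩, ⟨h3, ?_, ?_, ?_⟩⟩
  · have : s ≤ 3 / 2 := le_of_mul_le_mul_right hsr2 hr0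
    linarith
  · rw [← hrdef, hsr]; linarith
  · rw [← hrdef, hsr]; linarith
  · rw [← hrdef, ← hr₁]; linarith
  · rw [← hrdef, ← hr₂]; linarith
  · rw [← hrdef]; linarith
  · calc ‖c' - u‖ = ‖(c' - m) + (m - u)‖ := by ring_nf
      _ ≤ ‖c' - m‖ + ‖m - u‖ := norm_add_le _ _
      _ ≤ _ := by rw [hum]; linarith
  · exact fun k hk1 hk2 => hstep k hk1 (by omega)
  · exact e1.trans la1
  · exact e2.trans la1
  · exact fun k hk1 hk2 => hstep k (by omega) hk2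
  · exact e3.trans la2
  · exact e4.trans la2

end Pool.Agent.H964
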