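import Pool.Agent.H964.LF.Geo

/-!
# The pointwise recursion
-/

set_option autoImplicit false

namespace Pool.Agent.H964

open Real

/-- lattice points: the lattice `(ε / 4) ℤ²` -/
noncomputable def lp (ε : ℝ) (n : ℤ × ℤ) : ℂ := ⟨ε / 4 * n.1, ε / 4 * n.2⟩

/-- the lattice points near `u` -/
noncomputable def LB (ε : ℝ) (u : ℂ) : Finset (ℤ × ℤ) :=
  Finset.Icc (⌊u.re / (ε / 4)⌋ - 4) (⌊u.re / (ε / 4)⌋ + 5) ×ˢ
    Finset.Icc (⌊u.im / (ε / 4)⌋ - 4) (⌊u.im / (ε / 4)⌋ + 5)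

theorem card_LB (ε : ℝ) (u : ℂ) : (LB ε u).card = 100 := by
  unfold LB
  rw [Finset.card_product, Int.card_Icc, Int.card_Icc]
  have : ∀ a : ℤ, (a + 5 + 1 - (a - 4)).toNat = 10 := by intro a; omega
  rw [this, this]

theorem mem_LB {ε : ℝ} (hε : 0 < ε) {u : ℂ} {n : ℤ × ℤ} (h : ‖lp ε n - u‖ ≤ ε) : n ∈ LB ε u := by
  have hε4 : 0 < ε / 4 := by positivity
  have key : ∀ (y : ℝ) (k : ℤ), |ε / 4 * k - y| ≤ ε →
      k ∈ Finset.Icc (⌊y / (ε / 4)⌋ - 4) (⌊y / (ε / 4)⌋ + 5) := by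
    intro y k hk
    have h1 : |(k : ℝ) - y / (ε / 4)| ≤ 4 := by
      have e : (k : ℝ) - y / (ε / 4) = (ε / 4 * k - y) / (ε / 4) := by field_simp
      rw [e, abs_div, abs_of_pos hε4, div_le_iff₀ hε4]
      linarith
    rw [abs_le] at h1
    have h2 := Int.floor_le (y / (ε / 4))
    have h3 := Int.lt_floor_add_one (y / (ε / 4))
    rw [Finset.mem_Icc]
    constructor
    · have : ((⌊y / (ε / 4)⌋ : ℤ) : ℝ) - 4 ≤ k := by linarith [h1.1]
      exact_mod_cast this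
    · have : (k : ℝ) ≤ ((⌊y / (ε / 4)⌋ : ℤ) : ℝ) + 5 := by linarith [h1.2]
      exact_mod_cast this
  unfold LB
  rw [Finset.mem_product]
  constructor
  · apply key
    have := (Complex.abs_re_le_norm (lp ε n - u)).trans h
    simpa [lp] using this
  · apply key
    have := (Complex.abs_im_le_norm (lp ε n - u)).trans h
    simpa [lp] using this

theorem LB_near {ε : ℝ} (hε : 0 < ε) {u : ℂ} {n : ℤ × ℤ} (h : n ∈ LB ε u) : ‖lp ε n - u‖ ≤ 4 * ε := by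
  have hε4 : 0 < ε / 4 := by positivity
  have key : ∀ (y : ℝ) (k : ℤ), k ∈ Finset.Icc (⌊y / (ε / 4)⌋ - 4) (⌊y / (ε / 4)⌋ + 5) →
      |ε / 4 * k - y| ≤ 2 * ε := by
    intro y k hk
    rw [Finset.mem_Icc] at hk
    have h2 := Int.floor_le (y / (ε / 4))
    have h3 := Int.lt_floor_add_one (y / (ε / 4))
    have h4 : ((⌊y / (ε / 4)⌋ : ℤ) : ℝ) - 4 ≤ k := by exact_mod_cast hk.1
    have h5 : (k : ℝ) ≤ ((⌊y / (ε / 4)⌋ : ℤ) : ℝ) + 5 := by exact_mod_cast hk.2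
    have e : ε / 4 * k - y = ε / 4 * (k - y / (ε / 4)) := by field_simp
    rw [e, abs_mul, abs_of_pos hε4]
    have h6 : |(k : ℝ) - y / (ε / 4)| ≤ 8 := by
      rw [abs_le]
      constructor <;> linarith
    calc ε / 4 * |(k : ℝ) - y / (ε / 4)| ≤ ε / 4 * 8 := by gcongr
      _ = 2 * ε := by ring
  unfold LB at h
  rw [Finset.mem_product] at h
  refine (Complex.norm_le_abs_re_add_abs_im _).trans ?_
  have a1 := key _ _ h.1
  have a2 := key _ _ h.2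
  simp only [lp, Complex.sub_re, Complex.sub_im]
  linarith

/-- the increment of a refinement -/
noncomputable def dd (X : ℂ → ℂ → ℝ) (u v u' c c' v' : ℂ) : ℝ := (X u' c + X c' v') / 2 - X u v

/-- the potential of short segments -/
noncomputable def leaf (ε ξ p : ℝ) (X : ℂ → ℂ → ℝ) (H : ℂ → ℝ) (u v : ℂ) : ℝ :=
  ∑ n ∈ LB ε u, exp (p * ξ * X u v) * (ε * exp (ξ * H (lp ε n))) ^ (1 - p)

/-- index set of the refinements -/
noncomputable def II (N : ℕ) : Finset ((ℤ × ℤ) × (ℤ × ℤ) × (ℤ × ℤ) × (ℤ × ℤ)) :=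
  Bx N ×ˢ Bx N ×ˢ Bx N ×ˢ Bx N

theorem card_II (N : ℕ) : (II N).card = (2 * N + 1) ^ 8 := by
  unfold II
  rw [Finset.card_product, Finset.card_product, Finset.card_product, card_Bx]; ring

open Classical in
/-- the contribution of one refinement -/
noncomputable def refT (ξ p θ : ℝ) (X : ℂ → ℂ → ℝ) (G : ℂ → ℂ → ℝ) (u v u' c c' v' : ℂ) : ℝ :=
  if Valid θ u v u' c c' v' then
    2 ^ (-p) * exp (-(p * ξ) * dd X u v u' c c' v') * (G u' c + G c' v')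
  else 0

/-- the four points of a refinement -/
noncomputable def q1 (θ : ℝ) (u v : ℂ) (ι : (ℤ × ℤ) × (ℤ × ℤ) × (ℤ × ℤ) × (ℤ × ℤ)) : ℂ :=
  gp u (θ * ‖u - v‖ / 4) ι.1

/-- the four points of a refinement -/
noncomputable def q2 (θ : ℝ) (u v : ℂ) (ι : (ℤ × ℤ) × (ℤ × ℤ) × (ℤ × ℤ) × (ℤ × ℤ)) : ℂ :=
  gp u (θ * ‖u - v‖ / 4) ι.2.1

/-- the four points of a refinement -/
noncomputable def q3 (θ : ℝ) (u v : ℂ) (ι : (ℤ × ℤ) × (ℤ × ℤ) × (ℤ × ℤ) × (ℤ × ℤ)) : ℂ :=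
  gp u (θ * ‖u - v‖ / 4) ι.2.2.1

/-- the four points of a refinement -/
noncomputable def q4 (θ : ℝ) (u v : ℂ) (ι : (ℤ × ℤ) × (ℤ × ℤ) × (ℤ × ℤ) × (ℤ × ℤ)) : ℂ :=
  gp u (θ * ‖u - v‖ / 4) ι.2.2.2

open Classical in
/-- the potential of a segment -/
noncomputable def Psi (ε ξ p θ : ℝ) (N : ℕ) (X : ℂ → ℂ → ℝ) (H : ℂ → ℝ) : ℕ → ℂ → ℂ → ℝ
  | 0 => leaf ε ξ p X H
  | n + 1 => fun u v => if θ * ‖u - v‖ < ε then leaf ε ξ p X H u v else
      ∑ ι ∈ II N, refT ξ p θ X (Psi ε ξ p θ N X H n) u v (q1 θ u v ι) (q2 θ u v ι) (q3 θ u v ι)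
        (q4 θ u v ι)

variable {ε ξ p θ : ℝ} {N : ℕ} {X : ℂ → ℂ → ℝ} {H : ℂ → ℝ}

open Classical in
theorem Psi_succ (n : ℕ) (u v : ℂ) : Psi ε ξ p θ N X H (n + 1) u v =
    if θ * ‖u - v‖ < ε then leaf ε ξ p X H u v else
      ∑ ι ∈ II N, refT ξ p θ X (Psi ε ξ p θ N X H n) u v (q1 θ u v ι) (q2 θ u v ι) (q3 θ u v ι)
        (q4 θ u v ι) := rfl

theorem leaf_nonneg (hε : 0 < ε) (u v : ℂ) : 0 ≤ leaf ε ξ p X H u v := by
  unfold leaf
  apply Finset.sum_nonneg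
  intro n _
  positivity

theorem refT_nonneg {G : ℂ → ℂ → ℝ} (hG : ∀ u v, 0 ≤ G u v) (u v u' c c' v' : ℂ) :
    0 ≤ refT ξ p θ X G u v u' c c' v' := by
  unfold refT
  split_ifs
  · have := hG u' c
    have := hG c' v'
    positivity
  · exact le_rfl

theorem Psi_nonneg (hε : 0 < ε) : ∀ (n : ℕ) (u v : ℂ), 0 ≤ Psi ε ξ p θ N X H n u v := by
  intro n
  induction n with
  | zero => intro u v; exact leaf_nonneg hε u v
  | succ n ih =>
    intro u v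
    rw [Psi_succ]
    split_ifs
    · exact leaf_nonneg hε u v
    · apply Finset.sum_nonneg
      intro ι _
      exact refT_nonneg ih _ _ _ _ _ _

/-- Hölder's inequality for two terms -/
theorem holder2 {a b c d : ℝ} (ha : 0 ≤ a) (hb : 0 ≤ b) (hc : 0 ≤ c) (hd : 0 ≤ d) (hp : 1 < p) :
    a ^ (1 - 1 / p) * c ^ (1 / p) + b ^ (1 - 1 / p) * d ^ (1 / p) ≤
      (a + b) ^ (1 - 1 / p) * (c + d) ^ (1 / p) := by
  have hp0 : 0 < p := by linarith
  have h1p : 0 < 1 - 1 / p := by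
    rw [sub_pos, div_lt_one hp0]; exact hp
  have hconj : Real.HolderConjugate ((1 - 1 / p)⁻¹) p := by
    rw [Real.holderConjugate_iff]
    refine ⟨?_, ?_⟩
    · rw [one_lt_inv₀ h1p]
      have : 0 < 1 / p := by positivity
      linarith
    · rw [inv_inv]; field_simp; ring
  have := Real.inner_le_Lp_mul_Lq_of_nonneg (s := (Finset.univ : Finset (Fin 2)))
    (f := ![a ^ (1 - 1 / p), b ^ (1 - 1 / p)]) (g := ![c ^ (1 / p), d ^ (1 / p)]) hconj
    (by intro i _; fin_cases i <;> simp <;> positivity)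
    (by intro i _; fin_cases i <;> simp <;> positivity)
  simp only [Fin.sum_univ_two, Matrix.cons_val_zero, Matrix.cons_val_one] at this
  have e1 : ∀ y : ℝ, 0 ≤ y → (y ^ (1 - 1 / p)) ^ ((1 - 1 / p)⁻¹) = y := by
    intro y hy
    rw [← Real.rpow_mul hy, mul_inv_cancel₀ h1p.ne', Real.rpow_one]
  have e2 : ∀ y : ℝ, 0 ≤ y → (y ^ (1 / p)) ^ p = y := by
    intro y hy
    rw [← Real.rpow_mul hy, one_div, inv_mul_cancel₀ hp0.ne', Real.rpow_one]
  rw [e1 a ha, e1 b hb, e2 c hc, e2 d hd] at this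
  rw [show 1 / (1 - 1 / p)⁻¹ = 1 - 1 / p by rw [one_div, inv_inv]] at this
  exact this

/-- weight of the portion `i, ..., j - 1` of a path -/
noncomputable def SS (ε ξ : ℝ) (H : ℂ → ℝ) (x : ℕ → ℂ) (i j : ℕ) : ℝ :=
  ∑ k ∈ Finset.Ico i j, ε * exp (ξ * H (x k))

theorem SS_nonneg (hε : 0 < ε) (x : ℕ → ℂ) (i j : ℕ) : 0 ≤ SS ε ξ H x i j := by
  unfold SS
  apply Finset.sum_nonneg
  intro k _
  positivity

theorem SS_add_le (hε : 0 < ε) (x : ℕ → ℂ) {i k₁ k₂ j : ℕ} (h1 : i ≤ k₁) (h2 : k₁ ≤ k₂) (h3 : k₂ ≤ j) :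
    SS ε ξ H x i k₁ + SS ε ξ H x k₂ j ≤ SS ε ξ H x i j := by
  have h4 : 0 ≤ SS ε ξ H x k₁ k₂ := SS_nonneg hε x _ _
  unfold SS at *
  rw [← Finset.sum_Ico_consecutive _ (h1.trans h2) h3, ← Finset.sum_Ico_consecutive _ h1 h2]
  linarith

theorem leaf_bound (hε : 0 < ε) (hp : 1 < p) {u v : ℂ} {m : ℤ × ℤ} {S : ℝ}
    (hS : ε * exp (ξ * H (lp ε m)) ≤ S) (hm : ‖lp ε m - u‖ ≤ ε) :
    exp (ξ * X u v) ≤ S ^ (1 - 1 / p) * (leaf ε ξ p X H u v) ^ (1 / p) := by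
  have hp0 : 0 < p := by linarith
  have h1p : 0 ≤ 1 - 1 / p := by
    rw [sub_nonneg, div_le_one hp0]; exact hp.le
  set w := ε * exp (ξ * H (lp ε m)) with hw
  have hw0 : 0 < w := by positivity
  have h1 : exp (p * ξ * X u v) * w ^ (1 - p) ≤ leaf ε ξ p X H u v := by
    unfold leaf
    exact Finset.single_le_sum (f := fun n => exp (p * ξ * X u v) * (ε * exp (ξ * H (lp ε n))) ^ (1 - p))
      (fun n _ => by positivity) (mem_LB hε hm)
  calc exp (ξ * X u v) = w ^ (1 - 1 / p) * (exp (p * ξ * X u v) * w ^ (1 - p)) ^ (1 / p) := by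
        rw [Real.mul_rpow (exp_pos _).le (by positivity), ← Real.exp_mul, ← Real.rpow_mul hw0.le]
        rw [show p * ξ * X u v * (1 / p) = ξ * X u v by field_simp]
        rw [show w ^ (1 - 1 / p) * (exp (ξ * X u v) * w ^ ((1 - p) * (1 / p))) =
          exp (ξ * X u v) * (w ^ (1 - 1 / p) * w ^ ((1 - p) * (1 / p))) by ring]
        rw [← Real.rpow_add hw0, show 1 - 1 / p + (1 - p) * (1 / p) = 0 by field_simp; ring,
          Real.rpow_zero, mul_one]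
    _ ≤ _ := by
        have : 0 ≤ S := hw0.le.trans hS
        gcongr

theorem claim1 (hε : 0 < ε) (hθ : 0 < θ) (hθ1 : θ ≤ 1 / 100) (hp : 1 < p)
    (hN : 8 / θ + 1 ≤ N) {m : ℕ → ℤ × ℤ} : ∀ (n : ℕ) {i j : ℕ} {u v : ℂ},
    Node (fun k => lp ε (m k)) ε θ i j u v → θ * ‖u - v‖ * (4 / 5) ^ n < ε →
    exp (ξ * X u v) ≤ (SS ε ξ H (fun k => lp ε (m k)) i j) ^ (1 - 1 / p) *
      (Psi ε ξ p θ N X H n u v) ^ (1 / p) := by
  have hp0 : 0 < p := by linarith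
  have h1p : 0 ≤ 1 - 1 / p := by
    rw [sub_nonneg, div_le_one hp0]; exact hp.le
  have hleaf : ∀ {i j : ℕ} {u v : ℂ}, Node (fun k => lp ε (m k)) ε θ i j u v → θ * ‖u - v‖ < ε →
      exp (ξ * X u v) ≤ (SS ε ξ H (fun k => lp ε (m k)) i j) ^ (1 - 1 / p) *
        (leaf ε ξ p X H u v) ^ (1 / p) := by
    intro i j u v hnode hlt
    apply leaf_bound hε hp (m := m i)
    · unfold SS
      exact Finset.single_le_sum (f := fun k => ε * exp (ξ * H (lp ε (m k))))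
        (fun k _ => by positivity) (Finset.mem_Ico.2 ⟨le_rfl, hnode.lt⟩)
    · exact hnode.hu.trans hlt.le
  intro n
  induction n with
  | zero =>
    intro i j u v hnode hf
    rw [pow_zero, mul_one] at hf
    exact hleaf hnode hf
  | succ n ih =>
    intro i j u v hnode hf
    rw [Psi_succ]
    split_ifs with hlt
    · exact hleaf hnode hlt
    · push Not at hlt
      obtain ⟨n₁, m1, n₂, m2, n₃, m3, n₄, m4, k₁, k₂, g1, g2, g3, hval, hn1, hn2⟩ :=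
        exists_children hε hθ hθ1 hnode hlt hN
      set a := θ * ‖u - v‖ / 4 with ha
      have hv := hval
      obtain ⟨s, _, _, _, _, _, _, _, _, L1, L2, _, _⟩ := hv
      have f1 : θ * ‖gp u a n₁ - gp u a n₂‖ * (4 / 5) ^ n < ε := by
        refine lt_of_le_of_lt ?_ hf
        rw [pow_succ]
        have : 0 ≤ θ * (4 / 5 : ℝ) ^ n := by positivity
        calc θ * ‖gp u a n₁ - gp u a n₂‖ * (4 / 5) ^ n = (θ * (4 / 5 : ℝ) ^ n) * ‖gp u a n₁ - gp u a n₂‖ := by ring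
          _ ≤ (θ * (4 / 5 : ℝ) ^ n) * (4 / 5 * ‖u - v‖) := by gcongr
          _ = _ := by ring
      have f2 : θ * ‖gp u a n₃ - gp u a n₄‖ * (4 / 5) ^ n < ε := by
        refine lt_of_le_of_lt ?_ hf
        rw [pow_succ]
        have : 0 ≤ θ * (4 / 5 : ℝ) ^ n := by positivity
        calc θ * ‖gp u a n₃ - gp u a n₄‖ * (4 / 5) ^ n = (θ * (4 / 5 : ℝ) ^ n) * ‖gp u a n₃ - gp u a n₄‖ := by ring
          _ ≤ (θ * (4 / 5 : ℝ) ^ n) * (4 / 5 * ‖u - v‖) := by gcongr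
          _ = _ := by ring
      have I1 := ih hn1 f1
      have I2 := ih hn2 f2
      set S₁ := SS ε ξ H (fun k => lp ε (m k)) i k₁
      set S₂ := SS ε ξ H (fun k => lp ε (m k)) k₂ j
      set S := SS ε ξ H (fun k => lp ε (m k)) i j
      set P₁ := Psi ε ξ p θ N X H n (gp u a n₁) (gp u a n₂) with hP₁
      set P₂ := Psi ε ξ p θ N X H n (gp u a n₃) (gp u a n₄) with hP₂
      have hS₁ : 0 ≤ S₁ := SS_nonneg hε _ _ _
      have hS₂ : 0 ≤ S₂ := SS_nonneg hε _ _ _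
      have hP1 : 0 ≤ P₁ := Psi_nonneg hε _ _ _
      have hP2 : 0 ≤ P₂ := Psi_nonneg hε _ _ _
      have hSS : S₁ + S₂ ≤ S := SS_add_le hε _ g1.le g2 g3.le
      set δ := dd X u v (gp u a n₁) (gp u a n₂) (gp u a n₃) (gp u a n₄) with hδ
      have hXX : ξ * X u v = -(ξ * δ) + (ξ * X (gp u a n₁) (gp u a n₂) +
          ξ * X (gp u a n₃) (gp u a n₄)) / 2 := by
        rw [hδ, dd]; ring
      have hconv : exp ((ξ * X (gp u a n₁) (gp u a n₂) + ξ * X (gp u a n₃) (gp u a n₄)) / 2) ≤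
          (exp (ξ * X (gp u a n₁) (gp u a n₂)) + exp (ξ * X (gp u a n₃) (gp u a n₄))) / 2 := by
        set y₁ := ξ * X (gp u a n₁) (gp u a n₂)
        set y₂ := ξ * X (gp u a n₃) (gp u a n₄)
        have e1 : exp y₁ = exp (y₁ / 2) ^ 2 := by rw [← Real.exp_nat_mul]; congr 1; push_cast; ring
        have e2 : exp y₂ = exp (y₂ / 2) ^ 2 := by rw [← Real.exp_nat_mul]; congr 1; push_cast; ring
        have e3 : exp ((y₁ + y₂) / 2) = exp (y₁ / 2) * exp (y₂ / 2) := by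
          rw [← Real.exp_add]; congr 1; ring
        rw [e1, e2, e3]
        nlinarith [sq_nonneg (exp (y₁ / 2) - exp (y₂ / 2))]
      have hterm : 2 ^ (-p) * exp (-(p * ξ) * δ) * (P₁ + P₂) ≤
          ∑ ι ∈ II N, refT ξ p θ X (Psi ε ξ p θ N X H n) u v (q1 θ u v ι) (q2 θ u v ι)
            (q3 θ u v ι) (q4 θ u v ι) := by
        have hmem : ((n₁, n₂, n₃, n₄) : (ℤ × ℤ) × (ℤ × ℤ) × (ℤ × ℤ) × (ℤ × ℤ)) ∈ II N := by
          unfold II
          rw [Finset.mem_product, Finset.mem_product, Finset.mem_product]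
          exact ⟨m1, m2, m3, m4⟩
        refine le_trans (le_of_eq ?_) (Finset.single_le_sum
          (f := fun ι : (ℤ × ℤ) × (ℤ × ℤ) × (ℤ × ℤ) × (ℤ × ℤ) =>
            refT ξ p θ X (Psi ε ξ p θ N X H n) u v (q1 θ u v ι) (q2 θ u v ι)
            (q3 θ u v ι) (q4 θ u v ι)) (fun ι _ => refT_nonneg (Psi_nonneg hε n) _ _ _ _ _ _) hmem)
        simp only [q1, q2, q3, q4, refT, ← ha]
        rw [if_pos hval]
      calc exp (ξ * X u v) = exp (-(ξ * δ)) * exp ((ξ * X (gp u a n₁) (gp u a n₂) +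
              ξ * X (gp u a n₃) (gp u a n₄)) / 2) := by rw [← Real.exp_add, hXX]
        _ ≤ exp (-(ξ * δ)) * ((exp (ξ * X (gp u a n₁) (gp u a n₂)) +
              exp (ξ * X (gp u a n₃) (gp u a n₄))) / 2) := by gcongr
        _ ≤ exp (-(ξ * δ)) * ((S₁ ^ (1 - 1 / p) * P₁ ^ (1 / p) + S₂ ^ (1 - 1 / p) * P₂ ^ (1 / p)) / 2) := by
            gcongr
        _ ≤ exp (-(ξ * δ)) * (((S₁ + S₂) ^ (1 - 1 / p) * (P₁ + P₂) ^ (1 / p)) / 2) := by
            gcongr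
            exact holder2 hS₁ hS₂ hP1 hP2 hp
        _ ≤ exp (-(ξ * δ)) * ((S ^ (1 - 1 / p) * (P₁ + P₂) ^ (1 / p)) / 2) := by
            gcongr
        _ = S ^ (1 - 1 / p) * (2 ^ (-p) * exp (-(p * ξ) * δ) * (P₁ + P₂)) ^ (1 / p) := by
            rw [Real.mul_rpow (by positivity) (by positivity), Real.mul_rpow (by positivity) (by positivity),
              ← Real.exp_mul, ← Real.rpow_mul (by norm_num)]
            rw [show -p * (1 / p) = -1 by field_simp, Real.rpow_neg_one,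
              show -(p * ξ) * δ * (1 / p) = -(ξ * δ) by field_simp]
            ring
        _ ≤ _ := by
            have : 0 ≤ S := SS_nonneg hε _ _ _
            gcongr

end Pool.Agent.H964
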