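import Pool.Agent.H964.LF.Exp

/-!
# The expectation of the potential: recursion
-/

set_option autoImplicit false

namespace Pool.Agent.H964

open MeasureTheory ProbabilityTheory Real Filter Topology
open Pool.Agent.Y980

variable {Ω : Type*} [MeasurableSpace Ω] {P : Measure Ω} {h : ℝ → ℂ → Ω → ℝ}
variable (hh : IsGFF P h) {ε : ℝ} (hε : 0 < ε)

/-- the potential as a random variable -/
noncomputable def PsiO (ξ p θ : ℝ) (N n : ℕ) (u v : ℂ) (ω : Ω) : ℝ :=
  Psi ε ξ p θ N (fun a b => XX hh hε a b ω) (fun z => h ε z ω) n u v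

theorem XX_aemeas (a b : ℂ) : AEMeasurable (XX hh hε a b : Ω → ℝ) P :=
  (Lp.aestronglyMeasurable (XX hh hε a b)).aemeasurable

theorem leaf_aemeas (ξ p : ℝ) (u v : ℂ) :
    AEMeasurable (fun ω => leaf ε ξ p (fun a b => XX hh hε a b ω) (fun z => h ε z ω) u v) P := by
  unfold leaf
  apply Finset.aemeasurable_fun_sum
  intro n _
  have m2 : AEMeasurable (XX hh hε u v : Ω → ℝ) P := XX_aemeas hh hε u v
  have m3 : AEMeasurable (h ε (lp ε n)) P := (hh.measurable ε (lp ε n) hε).aemeasurable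
  apply AEMeasurable.mul
  · exact Real.measurable_exp.comp_aemeasurable (m2.const_mul _)
  · exact ((Real.measurable_exp.comp_aemeasurable (m3.const_mul _)).const_mul _).pow_const _

theorem dd_aemeas (u v u' c c' v' : ℂ) :
    AEMeasurable (fun ω => dd (fun a b => XX hh hε a b ω) u v u' c c' v') P := by
  unfold dd
  exact (((XX_aemeas hh hε u' c).add (XX_aemeas hh hε c' v')).div_const 2).sub (XX_aemeas hh hε u v)

theorem PsiO_aemeas (ξ p θ : ℝ) (N : ℕ) : ∀ (n : ℕ) (u v : ℂ),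
    AEMeasurable (PsiO hh hε ξ p θ N n u v) P := by
  intro n
  induction n with
  | zero => intro u v; exact leaf_aemeas hh hε ξ p u v
  | succ n ih =>
    intro u v
    unfold PsiO
    simp only [Psi_succ]
    split_ifs
    · exact leaf_aemeas hh hε ξ p u v
    · apply Finset.aemeasurable_fun_sum
      intro ι _
      unfold refT
      split_ifs
      · exact ((Real.measurable_exp.comp_aemeasurable ((dd_aemeas hh hε _ _ _ _ _ _).const_mul _)).const_mul
          _).mul ((ih _ _).add (ih _ _))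
      · exact aemeasurable_const

theorem coe_add_DD (D : Lp ℝ 2 P) (u v u' c c' v' : ℂ) :
    ∀ᵐ ω ∂P, (D + DD hh hε u v u' c c' v') ω = D ω + dd (fun a b => XX hh hε a b ω) u v u' c c' v' := by
  unfold DD dd
  filter_upwards [Lp.coeFn_add D ((1 / 2 : ℝ) • (XX hh hε u' c + XX hh hε c' v') - XX hh hε u v),
    Lp.coeFn_sub ((1 / 2 : ℝ) • (XX hh hε u' c + XX hh hε c' v')) (XX hh hε u v),
    Lp.coeFn_smul (1 / 2 : ℝ) (XX hh hε u' c + XX hh hε c' v'),
    Lp.coeFn_add (XX hh hε u' c) (XX hh hε c' v')] with ω a1 a2 a3 a4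
  rw [a1, Pi.add_apply, a2, Pi.sub_apply, a3, Pi.smul_apply, a4, Pi.add_apply]
  simp only [smul_eq_mul]
  ring

/-- the accumulated increments have a Hölder continuous potential -/
def Past (q C : ℝ) (D : Lp ℝ 2 P) (r : ℝ) : Prop :=
  ∀ z w : ℂ, ‖z - w‖ ≤ 2 * r → |inner ℝ D (HH hh hε z - HH hh hε w)| ≤ C * (‖z - w‖ / r) ^ q

/-- constants -/
noncomputable def C6 (q : ℝ) : ℝ := 64 / (q * (1 - q))

theorem C6_pos {q : ℝ} (hq0 : 0 < q) (hq1 : q < 1) : 0 < C6 q := by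
  have : 0 < 1 - q := by linarith
  unfold C6; positivity

theorem DD_pot {q : ℝ} (hq0 : 0 < q) (hq1 : q < 1) {u v u' c c' v' : ℂ} (hr : 0 < ‖u - v‖)
    (h1 : ‖u - v‖ / 4 ≤ ‖u' - c‖) (h2 : ‖u - v‖ / 4 ≤ ‖c' - v'‖) (z w : ℂ) :
    |inner ℝ (DD hh hε u v u' c c' v') (HH hh hε z - HH hh hε w)| ≤ C6 q * (‖z - w‖ / ‖u - v‖) ^ q := by
  have h1q : 0 < 1 - q := by linarith
  have h0 : ‖u - v‖ / 4 ≤ ‖u - v‖ := by linarith
  have := inner_DD_HH_le hh hε hq0 hq1 (r := ‖u - v‖ / 4) (by positivity) h0 h1 h2 z w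
  refine this.trans ?_
  have e : ‖z - w‖ / (‖u - v‖ / 4) = 4 * (‖z - w‖ / ‖u - v‖) := by field_simp
  rw [e, Real.mul_rpow (by norm_num) (by positivity), C6]
  have h4 : (4 : ℝ) ^ q ≤ 4 := by
    calc (4 : ℝ) ^ q ≤ 4 ^ (1 : ℝ) := Real.rpow_le_rpow_of_exponent_le (by norm_num) hq1.le
      _ = 4 := Real.rpow_one _
  calc 16 / (q * (1 - q)) * (4 ^ q * (‖z - w‖ / ‖u - v‖) ^ q) ≤
      16 / (q * (1 - q)) * (4 * (‖z - w‖ / ‖u - v‖) ^ q) := by gcongr
    _ = _ := by ring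

theorem lengths {θ : ℝ} (hθ : 0 < θ) (hθ1 : θ ≤ 1 / 100) {s y r : ℝ} (hr : 0 < r)
    (hs : s ^ 2 ≤ 10 * (2 * y / r - 1 + 8 * θ)) : r / 4 ≤ y := by
  have h1 : 0 ≤ 2 * y / r - 1 + 8 * θ := by nlinarith [sq_nonneg s]
  have h2 : 1 / 2 ≤ 2 * y / r := by linarith
  rw [le_div_iff₀ hr] at h2
  linarith

theorem Past_add {q C θ : ℝ} (hq0 : 0 < q) (hq1 : q < 1) (hθ : 0 < θ) (hθ1 : θ ≤ 1 / 100)
    (hC : (C + C6 q) * (4 / 5) ^ q ≤ C) (hC0 : 0 ≤ C) {u v u' c c' v' : ℂ} (hr : 0 < ‖u - v‖)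
    (hval : Valid θ u v u' c c' v') {D : Lp ℝ 2 P} (hD : Past hh hε q C D ‖u - v‖) :
    Past hh hε q C (D + DD hh hε u v u' c c' v') ‖u' - c‖ ∧
    Past hh hε q C (D + DD hh hε u v u' c c' v') ‖c' - v'‖ := by
  obtain ⟨s, hs0, hs2, d1, d2, d3, d4, sA, sB, L1, L2, -, -⟩ := hval
  have l1 := lengths hθ hθ1 hr sA
  have l2 := lengths hθ hθ1 hr sB
  have key : ∀ ρ : ℝ, ‖u - v‖ / 4 ≤ ρ → ρ ≤ 4 / 5 * ‖u - v‖ →
      Past hh hε q C (D + DD hh hε u v u' c c' v') ρ := by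
    intro ρ hρ1 hρ2 z w hzw
    have hρ0 : 0 < ρ := by linarith
    have a1 := hD z w (by linarith)
    have a2 := DD_pot hh hε hq0 hq1 hr l1 l2 z w
    rw [inner_add_left]
    refine (abs_add_le _ _).trans ?_
    have e : ‖z - w‖ / ‖u - v‖ = (ρ / ‖u - v‖) * (‖z - w‖ / ρ) := by field_simp
    have h3 : (‖z - w‖ / ‖u - v‖) ^ q ≤ (4 / 5) ^ q * (‖z - w‖ / ρ) ^ q := by
      rw [e, Real.mul_rpow (by positivity) (by positivity)]
      have h4 : ρ / ‖u - v‖ ≤ 4 / 5 := by rw [div_le_iff₀ hr]; exact hρ2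
      exact mul_le_mul_of_nonneg_right (Real.rpow_le_rpow (by positivity) h4 hq0.le) (by positivity)
    have h5 : 0 ≤ (‖z - w‖ / ρ) ^ q := by positivity
    have h6 := C6_pos hq0 hq1
    calc _ ≤ (C + C6 q) * (‖z - w‖ / ‖u - v‖) ^ q := by linarith
      _ ≤ (C + C6 q) * ((4 / 5) ^ q * (‖z - w‖ / ρ) ^ q) := by gcongr
      _ = ((C + C6 q) * (4 / 5) ^ q) * (‖z - w‖ / ρ) ^ q := by ring
      _ ≤ C * (‖z - w‖ / ρ) ^ q := by gcongr
  exact ⟨key _ l1 L1, key _ l2 L2⟩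

theorem norm_add_DD {q C θ : ℝ} (hq0 : 0 < q) (hq1 : q < 1) (hθ : 0 < θ) (hθ1 : θ ≤ 1 / 100)
    (hC0 : 0 ≤ C) {u v u' c c' v' : ℂ} (hr : 0 < ‖u - v‖)
    (hval : Valid θ u v u' c c' v') {D : Lp ℝ 2 P} (hD : Past hh hε q C D ‖u - v‖) :
    ∃ s : ℝ, 0 ≤ s ∧ s ^ 2 ≤ 10 * (2 * ‖u' - c‖ / ‖u - v‖ - 1 + 8 * θ) ∧
      s ^ 2 ≤ 10 * (2 * ‖c' - v'‖ / ‖u - v‖ - 1 + 8 * θ) ∧
      ‖D + DD hh hε u v u' c c' v'‖ ^ 2 ≤ ‖D‖ ^ 2 + (2 * C + C6 q) * s ^ q := by
  obtain ⟨s, hs0, hs2, d1, d2, d3, d4, sA, sB, L1, L2, -, -⟩ := hval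
  have l1 := lengths hθ hθ1 hr sA
  have l2 := lengths hθ hθ1 hr sB
  refine ⟨s, hs0, sA, sB, ?_⟩
  have h6 := C6_pos hq0 hq1
  have b1 : |inner ℝ D (DD hh hε u v u' c c' v')| ≤ C * s ^ q := by
    apply inner_DD_le hh hε d1 d2 d3 d4
    intro z w hzw
    refine (hD z w (hzw.trans (by gcongr))).trans ?_
    gcongr
    rw [div_le_iff₀ hr]; exact hzw
  have b2 : |inner ℝ (DD hh hε u v u' c c' v') (DD hh hε u v u' c c' v')| ≤ C6 q * s ^ q := by
    apply inner_DD_le hh hε d1 d2 d3 d4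
    intro z w hzw
    refine (DD_pot hh hε hq0 hq1 hr l1 l2 z w).trans ?_
    gcongr
    rw [div_le_iff₀ hr]; exact hzw
  rw [norm_add_sq_real, ← real_inner_self_eq_norm_sq (DD hh hε u v u' c c' v')]
  linarith [le_abs_self (inner ℝ D (DD hh hε u v u' c c' v')),
    le_abs_self (inner ℝ (DD hh hε u v u' c c' v') (DD hh hε u v u' c c' v'))]

/-- data for the recursion -/
structure Par (ξ p θ b q C K : ℝ) (N : ℕ) : Prop where
  q0 : 0 < q
  q1 : q < 1
  θ0 : 0 < θ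
  θ1 : θ ≤ 1 / 100
  p1 : 1 < p
  pθ : p * θ ≤ 1
  b0 : 0 ≤ b
  bp : b ≤ p / 2
  C0 : 0 ≤ C
  CC : (C + C6 q) * (4 / 5) ^ q ≤ C
  Y : ∀ s : ℝ, 0 ≤ s → p ^ 2 * ξ ^ 2 * ((2 * C + C6 q) * s ^ q) ≤ p * s ^ 2 / 40 + K
  bb : (2 * N + 1 : ℝ) ^ 8 * (2 * (2 ^ (-b) * exp (20 + K))) ≤ 1

theorem claim2 {ξ p θ b q C K R : ℝ} {N : ℕ} (hp : Par ξ p θ b q C K N) (hε1 : ε ≤ 1) (hR : 0 ≤ R) :
    ∀ (n : ℕ) {D : Lp ℝ 2 P} {u v : ℂ}, 0 < ‖u - v‖ → ‖u‖ + 10 * ‖u - v‖ + 4 ≤ R → D ∈ GG hh hε →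
    Past hh hε q C D ‖u - v‖ → θ * ‖u - v‖ * (4 / 5) ^ n < ε →
    ∫⁻ ω, ENNReal.ofReal (exp (-(p * ξ) * D ω) * PsiO hh hε ξ p θ N n u v ω) ∂P ≤
      ENNReal.ofReal (exp (p ^ 2 * ξ ^ 2 * ‖D‖ ^ 2) *
        (B0 ε ξ p θ R * (‖u - v‖ / (ε / θ)) ^ (b - p))) := by
  obtain ⟨q0, q1', θ0, θ1, p1, pθ, b0, bp, C0, CC, Y, bb⟩ := hp
  have hB0 : 0 ≤ B0 ε ξ p θ R := by unfold B0; positivity
  have hleaf : ∀ {D : Lp ℝ 2 P} {u v : ℂ}, 0 < ‖u - v‖ → ‖u‖ + 10 * ‖u - v‖ + 4 ≤ R →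
      D ∈ GG hh hε → θ * ‖u - v‖ < ε →
      ∫⁻ ω, ENNReal.ofReal (exp (-(p * ξ) * D ω) *
        leaf ε ξ p (fun a b => XX hh hε a b ω) (fun z => h ε z ω) u v) ∂P ≤
      ENNReal.ofReal (exp (p ^ 2 * ξ ^ 2 * ‖D‖ ^ 2) *
        (B0 ε ξ p θ R * (‖u - v‖ / (ε / θ)) ^ (b - p))) := by
    intro D u v hr hu hD hlt
    refine (exp_leaf hh hε θ0 hε1 hR hD hlt (by linarith)).trans ?_
    apply ENNReal.ofReal_le_ofReal
    apply mul_le_mul_of_nonneg_left _ (by positivity)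
    have h1 : 1 ≤ (‖u - v‖ / (ε / θ)) ^ (b - p) := by
      apply Real.one_le_rpow_of_pos_of_le_one_of_nonpos (by positivity)
      · rw [div_le_one (by positivity), le_div_iff₀ θ0]; linarith
      · linarith
    exact le_mul_of_one_le_right hB0 h1
  intro n
  induction n with
  | zero =>
    intro D u v hr hu hD hpast hf
    rw [pow_zero, mul_one] at hf
    exact hleaf hr hu hD hf
  | succ n ih =>
    intro D u v hr hu hD hpast hf
    unfold PsiO
    simp only [Psi_succ]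
    split_ifs with hlt
    · exact hleaf hr hu hD hlt
    · have mD : AEMeasurable (fun ω => exp (-(p * ξ) * D ω)) P :=
        Real.measurable_exp.comp_aemeasurable ((Lp.aestronglyMeasurable D).aemeasurable.const_mul _)
      set T : ℝ := exp (p ^ 2 * ξ ^ 2 * ‖D‖ ^ 2) *
        (B0 ε ξ p θ R * (‖u - v‖ / (ε / θ)) ^ (b - p)) with hT
      have hT0 : 0 ≤ T := by positivity
      -- one child
      have child : ∀ {u' c c' v' a₁ a₂ : ℂ}, Valid θ u v u' c c' v' →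
          ((a₁ = u' ∧ a₂ = c) ∨ (a₁ = c' ∧ a₂ = v')) →
          ∫⁻ ω, ENNReal.ofReal (exp (-(p * ξ) * D ω) * (2 ^ (-p) *
            exp (-(p * ξ) * dd (fun a b => XX hh hε a b ω) u v u' c c' v') *
            PsiO hh hε ξ p θ N n a₁ a₂ ω)) ∂P ≤
          ENNReal.ofReal ((2 ^ (-b) * exp (20 + K)) * T) := by
        intro u' c c' v' a₁ a₂ hval ha
        obtain ⟨s, hs0, sA, sB, hnorm⟩ := norm_add_DD hh hε q0 q1' θ0 θ1 C0 hr hval hpast
        obtain ⟨P1, P2⟩ := Past_add hh hε q0 q1' θ0 θ1 CC C0 hr hval hpast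
        obtain ⟨s', hs0', hs2', d1, d2, d3, d4, sA', sB', L1, L2, g1, g2⟩ := hval
        have hpa : Past hh hε q C (D + DD hh hε u v u' c c' v') ‖a₁ - a₂‖ := by
          rcases ha with ⟨rfl, rfl⟩ | ⟨rfl, rfl⟩
          · exact P1
          · exact P2
        have hsa : s ^ 2 ≤ 10 * (2 * ‖a₁ - a₂‖ / ‖u - v‖ - 1 + 8 * θ) := by
          rcases ha with ⟨rfl, rfl⟩ | ⟨rfl, rfl⟩
          · exact sA
          · exact sB
        have hLa : ‖a₁ - a₂‖ ≤ 4 / 5 * ‖u - v‖ := by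
          rcases ha with ⟨rfl, rfl⟩ | ⟨rfl, rfl⟩
          · exact L1
          · exact L2
        have hla := lengths θ0 θ1 hr hsa
        have hra : 0 < ‖a₁ - a₂‖ := by linarith
        have hreg : ‖a₁‖ + 10 * ‖a₁ - a₂‖ + 4 ≤ R := by
          have : ‖a₁‖ ≤ ‖u‖ + 2 * ‖u - v‖ := by
            rcases ha with ⟨rfl, rfl⟩ | ⟨rfl, rfl⟩
            · calc ‖a₁‖ = ‖(a₁ - u) + u‖ := by ring_nf
                _ ≤ ‖a₁ - u‖ + ‖u‖ := norm_add_le _ _
                _ ≤ _ := by linarith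
            · calc ‖a₁‖ = ‖(a₁ - u) + u‖ := by ring_nf
                _ ≤ ‖a₁ - u‖ + ‖u‖ := norm_add_le _ _
                _ ≤ _ := by linarith
          linarith
        have hfa : θ * ‖a₁ - a₂‖ * (4 / 5) ^ n < ε := by
          refine lt_of_le_of_lt ?_ hf
          rw [pow_succ]
          calc θ * ‖a₁ - a₂‖ * (4 / 5) ^ n = (θ * (4 / 5 : ℝ) ^ n) * ‖a₁ - a₂‖ := by ring
            _ ≤ (θ * (4 / 5 : ℝ) ^ n) * (4 / 5 * ‖u - v‖) := by gcongr
            _ = _ := by ring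
        have hI := ih hra hreg (Submodule.add_mem _ hD (DD_mem hh hε u v u' c c' v')) hpa hfa
        have e1 : ∫⁻ ω, ENNReal.ofReal (exp (-(p * ξ) * D ω) * (2 ^ (-p) *
            exp (-(p * ξ) * dd (fun a b => XX hh hε a b ω) u v u' c c' v') *
            PsiO hh hε ξ p θ N n a₁ a₂ ω)) ∂P =
            ENNReal.ofReal (2 ^ (-p)) * ∫⁻ ω, ENNReal.ofReal
              (exp (-(p * ξ) * (D + DD hh hε u v u' c c' v') ω) * PsiO hh hε ξ p θ N n a₁ a₂ ω) ∂P := by
          rw [← lintegral_const_mul' _ _ ENNReal.ofReal_ne_top]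
          apply lintegral_congr_ae
          filter_upwards [coe_add_DD hh hε D u v u' c c' v'] with ω hω
          rw [← ENNReal.ofReal_mul (by positivity), hω, mul_add, Real.exp_add]
          congr 1
          ring
        rw [e1]
        calc _ ≤ ENNReal.ofReal (2 ^ (-p)) * ENNReal.ofReal
              (exp (p ^ 2 * ξ ^ 2 * ‖D + DD hh hε u v u' c c' v'‖ ^ 2) *
              (B0 ε ξ p θ R * (‖a₁ - a₂‖ / (ε / θ)) ^ (b - p))) := by gcongr
          _ = ENNReal.ofReal (2 ^ (-p) * (exp (p ^ 2 * ξ ^ 2 * ‖D + DD hh hε u v u' c c' v'‖ ^ 2) *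
              (B0 ε ξ p θ R * (‖a₁ - a₂‖ / (ε / θ)) ^ (b - p)))) :=
            (ENNReal.ofReal_mul (by positivity)).symm
          _ ≤ _ := by
            apply ENNReal.ofReal_le_ofReal
            have hstep := step_real (y := 2 * ‖a₁ - a₂‖ / ‖u - v‖) hs0 θ0 θ1 (by linarith) pθ b0 bp Y (by
              rw [div_le_iff₀ hr]; linarith) hsa
            have e2 : (‖a₁ - a₂‖ / (ε / θ)) ^ (b - p) =
                (2 * ‖a₁ - a₂‖ / ‖u - v‖ / 2) ^ (b - p) * (‖u - v‖ / (ε / θ)) ^ (b - p) := by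
              rw [← Real.mul_rpow (by positivity) (by positivity)]
              congr 1
              field_simp
            have e3 : exp (p ^ 2 * ξ ^ 2 * ‖D + DD hh hε u v u' c c' v'‖ ^ 2) ≤
                exp (p ^ 2 * ξ ^ 2 * ‖D‖ ^ 2) * exp (p ^ 2 * ξ ^ 2 * ((2 * C + C6 q) * s ^ q)) := by
              rw [← Real.exp_add]
              apply Real.exp_le_exp.2
              rw [← mul_add]
              gcongr
            rw [e2]
            calc 2 ^ (-p) * (exp (p ^ 2 * ξ ^ 2 * ‖D + DD hh hε u v u' c c' v'‖ ^ 2) *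
                  (B0 ε ξ p θ R * ((2 * ‖a₁ - a₂‖ / ‖u - v‖ / 2) ^ (b - p) *
                    (‖u - v‖ / (ε / θ)) ^ (b - p)))) ≤
                2 ^ (-p) * ((exp (p ^ 2 * ξ ^ 2 * ‖D‖ ^ 2) * exp (p ^ 2 * ξ ^ 2 * ((2 * C + C6 q) * s ^ q))) *
                  (B0 ε ξ p θ R * ((2 * ‖a₁ - a₂‖ / ‖u - v‖ / 2) ^ (b - p) *
                    (‖u - v‖ / (ε / θ)) ^ (b - p)))) := by gcongr
              _ = (2 ^ (-p) * (2 * ‖a₁ - a₂‖ / ‖u - v‖ / 2) ^ (b - p) *
                  exp (p ^ 2 * ξ ^ 2 * ((2 * C + C6 q) * s ^ q))) * T := by rw [hT]; ring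
              _ ≤ _ := by gcongr
      -- one refinement
      have one : ∀ (u' c c' v' : ℂ), ∫⁻ ω, ENNReal.ofReal (exp (-(p * ξ) * D ω) *
          refT ξ p θ (fun a b => XX hh hε a b ω)
            (Psi ε ξ p θ N (fun a b => XX hh hε a b ω) (fun z => h ε z ω) n) u v u' c c' v') ∂P ≤
          ENNReal.ofReal (2 * (2 ^ (-b) * exp (20 + K)) * T) := by
        intro u' c c' v'
        unfold refT
        split_ifs with hval
        · have c1 := child hval (Or.inl ⟨rfl, rfl⟩)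
          have c2 := child hval (Or.inr ⟨rfl, rfl⟩)
          have m1 : AEMeasurable (fun ω => ENNReal.ofReal (exp (-(p * ξ) * D ω) * (2 ^ (-p) *
            exp (-(p * ξ) * dd (fun a b => XX hh hε a b ω) u v u' c c' v') *
            PsiO hh hε ξ p θ N n u' c ω))) P := by
            apply AEMeasurable.ennreal_ofReal
            exact mD.mul (((Real.measurable_exp.comp_aemeasurable
              ((dd_aemeas hh hε _ _ _ _ _ _).const_mul _)).const_mul _).mul
              (PsiO_aemeas hh hε ξ p θ N n u' c))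
          calc _ = ∫⁻ ω, (ENNReal.ofReal (exp (-(p * ξ) * D ω) * (2 ^ (-p) *
                exp (-(p * ξ) * dd (fun a b => XX hh hε a b ω) u v u' c c' v') *
                PsiO hh hε ξ p θ N n u' c ω)) + ENNReal.ofReal (exp (-(p * ξ) * D ω) * (2 ^ (-p) *
                exp (-(p * ξ) * dd (fun a b => XX hh hε a b ω) u v u' c c' v') *
                PsiO hh hε ξ p θ N n c' v' ω))) ∂P := by
                apply lintegral_congr
                intro ω
                have n1 : 0 ≤ PsiO hh hε ξ p θ N n u' c ω := Psi_nonneg hε _ _ _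
                have n2 : 0 ≤ PsiO hh hε ξ p θ N n c' v' ω := Psi_nonneg hε _ _ _
                rw [← ENNReal.ofReal_add (by positivity) (by positivity)]
                congr 1
                unfold PsiO
                ring
            _ = _ := lintegral_add_left' m1 _
            _ ≤ ENNReal.ofReal ((2 ^ (-b) * exp (20 + K)) * T) +
                ENNReal.ofReal ((2 ^ (-b) * exp (20 + K)) * T) := add_le_add c1 c2
            _ = _ := by
                rw [← ENNReal.ofReal_add (by positivity) (by positivity)]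
                congr 1
                ring
        · simp
      have mref : ∀ ι ∈ II N, AEMeasurable (fun ω => ENNReal.ofReal (exp (-(p * ξ) * D ω) *
          refT ξ p θ (fun a b => XX hh hε a b ω)
            (Psi ε ξ p θ N (fun a b => XX hh hε a b ω) (fun z => h ε z ω) n) u v
            (q1 θ u v ι) (q2 θ u v ι) (q3 θ u v ι) (q4 θ u v ι))) P := by
        intro ι _
        apply AEMeasurable.ennreal_ofReal
        apply mD.mul
        unfold refT
        split_ifs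
        · exact ((Real.measurable_exp.comp_aemeasurable
            ((dd_aemeas hh hε _ _ _ _ _ _).const_mul _)).const_mul _).mul
            ((PsiO_aemeas hh hε ξ p θ N n _ _).add (PsiO_aemeas hh hε ξ p θ N n _ _))
        · exact aemeasurable_const
      calc _ = ∑ ι ∈ II N, ∫⁻ ω, ENNReal.ofReal (exp (-(p * ξ) * D ω) *
          refT ξ p θ (fun a b => XX hh hε a b ω)
            (Psi ε ξ p θ N (fun a b => XX hh hε a b ω) (fun z => h ε z ω) n) u v
            (q1 θ u v ι) (q2 θ u v ι) (q3 θ u v ι) (q4 θ u v ι)) ∂P := by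
            rw [← lintegral_finsetSum' _ mref]
            apply lintegral_congr
            intro ω
            rw [Finset.mul_sum, ENNReal.ofReal_sum_of_nonneg]
            intro ι _
            have := refT_nonneg (ξ := ξ) (p := p) (θ := θ) (X := fun a b => XX hh hε a b ω)
              (G := Psi ε ξ p θ N (fun a b => XX hh hε a b ω) (fun z => h ε z ω) n)
              (Psi_nonneg hε n) u v (q1 θ u v ι) (q2 θ u v ι) (q3 θ u v ι) (q4 θ u v ι)
            positivity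
        _ ≤ ∑ ι ∈ II N, ENNReal.ofReal (2 * (2 ^ (-b) * exp (20 + K)) * T) :=
            Finset.sum_le_sum fun ι _ => one _ _ _ _
        _ = ENNReal.ofReal (((2 * N + 1 : ℝ) ^ 8 * (2 * (2 ^ (-b) * exp (20 + K)))) * T) := by
            rw [Finset.sum_const, card_II, nsmul_eq_mul]
            rw [show (((2 * N + 1) ^ 8 : ℕ) : ENNReal) = ENNReal.ofReal ((2 * N + 1 : ℝ) ^ 8) by
              rw [← ENNReal.ofReal_natCast]; push_cast; rfl,
              ← ENNReal.ofReal_mul (by positivity)]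
            congr 1
            ring
        _ ≤ ENNReal.ofReal T := by
            apply ENNReal.ofReal_le_ofReal
            calc _ ≤ 1 * T := by gcongr
              _ = T := one_mul _

end Pool.Agent.H964
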