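import Pool.Agent.H964.LF.Rec

/-!
# The root of the tree
-/

set_option autoImplicit false

namespace Pool.Agent.H964

open MeasureTheory ProbabilityTheory Real Filter Topology
open Pool.Agent.Y980

theorem logmax1_lip (x y : ℂ) : |log (max ‖x‖ 1) - log (max ‖y‖ 1)| ≤ ‖x - y‖ := by
  have key : ∀ x y : ℂ, log (max ‖x‖ 1) - log (max ‖y‖ 1) ≤ ‖x - y‖ := by
    intro x y
    have hx : 0 < max ‖x‖ 1 := lt_of_lt_of_le one_pos (le_max_right _ _)
    have hy1 : 1 ≤ max ‖y‖ 1 := le_max_right _ _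
    have hy : 0 < max ‖y‖ 1 := lt_of_lt_of_le one_pos hy1
    have h1 : max ‖x‖ 1 ≤ max ‖y‖ 1 + ‖x - y‖ := by
      apply max_le
      · have h2 : ‖x‖ ≤ ‖y‖ + ‖x - y‖ := by
          calc ‖x‖ = ‖y + (x - y)‖ := by ring_nf
            _ ≤ _ := norm_add_le _ _
        linarith [le_max_left ‖y‖ 1]
      · linarith [norm_nonneg (x - y)]
    rw [← log_div hx.ne' hy.ne']
    have h2 := log_le_sub_one_of_pos (div_pos hx hy)
    have h3 : max ‖x‖ 1 / max ‖y‖ 1 ≤ 1 + ‖x - y‖ := by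
      rw [div_le_iff₀ hy]
      nlinarith [norm_nonneg (x - y)]
    linarith
  rw [abs_le]
  constructor
  · have := key y x
    rw [norm_sub_rev] at this
    linarith
  · exact key x y

theorem cN_lip (r : ℝ) (z w : ℂ) : |cN r z - cN r w| ≤ ‖z - w‖ := by
  have hi : ∀ z : ℂ, IntervalIntegrable (fun θ => log (max ‖circleMap z r θ‖ 1)) volume 0 (2 * π) :=
    fun z => (ci_of_cont continuous_logmax1 z r)
  rw [cN, cN, Real.circleAverage, Real.circleAverage, ← smul_sub,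
    ← intervalIntegral.integral_sub (hi z) (hi w), smul_eq_mul, abs_mul,
    abs_of_pos (by positivity : 0 < (2 * π)⁻¹)]
  have : ‖∫ θ in (0 : ℝ)..(2 * π), (log (max ‖circleMap z r θ‖ 1) - log (max ‖circleMap w r θ‖ 1))‖ ≤
      ‖z - w‖ * |2 * π - 0| := by
    apply intervalIntegral.norm_integral_le_of_norm_le_const
    intro t _
    rw [Real.norm_eq_abs]
    refine (logmax1_lip _ _).trans (le_of_eq ?_)
    simp [circleMap]
  rw [Real.norm_eq_abs, sub_zero, abs_of_pos (by positivity : 0 < 2 * π)] at this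
  calc (2 * π)⁻¹ * _ ≤ (2 * π)⁻¹ * (‖z - w‖ * (2 * π)) := by gcongr
    _ = ‖z - w‖ := by field_simp

theorem cN_le_log {ε R : ℝ} (hε : 0 < ε) (hε1 : ε ≤ 1) (hR : 0 ≤ R) {x : ℂ} (hx : ‖x‖ ≤ R) :
    cN ε x ≤ log (R + 2) := by
  apply cN_le (log_nonneg (by linarith))
  intro y hy
  rw [exp_log (by linarith)]
  rw [mem_sphere_iff_norm, abs_of_pos hε] at hy
  calc ‖y‖ = ‖(y - x) + x‖ := by ring_nf
    _ ≤ ‖y - x‖ + ‖x‖ := norm_add_le _ _
    _ ≤ _ := by linarith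

variable {Ω : Type*} [MeasurableSpace Ω] {P : Measure Ω} {h : ℝ → ℂ → Ω → ℝ}
variable (hh : IsGFF P h) {ε : ℝ} (hε : 0 < ε)

theorem root_past {q C : ℝ} (hq0 : 0 < q) (hq1 : q < 1) (hC : 8 / (q * (1 - q)) + 2 ≤ C) {u v : ℂ}
    (h0 : 0 < ‖u - v‖) (h1 : ‖u - v‖ ≤ 1) : Past hh hε q C (XX hh hε u v) ‖u - v‖ := by
  intro z w hzw
  have huv : u ≠ v := by
    intro he
    rw [he, sub_self, norm_zero] at h0
    exact lt_irrefl _ h0
  have a1 := inner_seg_HH_le hh hε hq0 hq1 huv z w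
  have a2 := cN_lip ε z w
  set x := ‖z - w‖ / ‖u - v‖ with hx
  have hx0 : 0 ≤ x := by positivity
  have hx2 : x ≤ 2 := by rw [hx, div_le_iff₀ h0]; exact hzw
  have a3 : ‖z - w‖ ≤ 2 * x ^ q := by
    have e : ‖z - w‖ = ‖u - v‖ * x := by rw [hx]; field_simp
    rcases hx0.eq_or_lt with h | h
    · rw [e, ← h]; simp; positivity
    · have e2 : x = x ^ q * x ^ (1 - q) := by
        rw [← Real.rpow_add h]; simp
      have e3 : x ^ (1 - q) ≤ 2 := by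
        calc x ^ (1 - q) ≤ 2 ^ (1 - q) := Real.rpow_le_rpow hx0 hx2 (by linarith)
          _ ≤ 2 ^ (1 : ℝ) := Real.rpow_le_rpow_of_exponent_le (by norm_num) (by linarith)
          _ = 2 := Real.rpow_one _
      calc ‖z - w‖ = ‖u - v‖ * x := e
        _ ≤ 1 * x := by gcongr
        _ = x ^ q * x ^ (1 - q) := by rw [one_mul]; exact e2
        _ ≤ x ^ q * 2 := by gcongr
        _ = _ := by ring
  have a4 : 0 ≤ x ^ q := by positivity
  have a5 : (8 / (q * (1 - q)) + 2) * x ^ q ≤ C * x ^ q := by gcongr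
  rw [abs_le] at a1 a2 ⊢
  constructor <;> linarith [a1.1, a1.2, a2.1, a2.2]

theorem inner_HH_far {R : ℝ} (hR : 0 ≤ R) (hε1 : ε ≤ 1) {z w : ℂ} (hz : ‖z‖ ≤ R)
    (hzw : 1 ≤ ‖z - w‖) : inner ℝ (HH hh hε z) (HH hh hε w) ≤ log (R + 2) + cN ε w := by
  rw [HH_inner]
  have h1 := cN_le_log hε hε1 hR hz
  have hne : z ≠ w := by
    intro he
    rw [he, sub_self, norm_zero] at hzw
    linarith
  have h2 := log_norm_le_cA (z := z) (w := w) hε hε hne
  have h3 := log_nonneg hzw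
  linarith

theorem pt_norm_le {a b : ℂ} {R : ℝ} (ha : ‖a‖ ≤ R) (hb : ‖b‖ ≤ R) {t : ℝ} (ht : t ∈ Set.Icc (0 : ℝ) 1) :
    ‖pt a b t‖ ≤ R := by
  have e : pt a b t = ((1 - t : ℝ) : ℂ) * a + t * b := by unfold pt; push_cast; ring
  rw [e]
  calc ‖((1 - t : ℝ) : ℂ) * a + t * b‖ ≤ ‖((1 - t : ℝ) : ℂ) * a‖ + ‖(t : ℂ) * b‖ := norm_add_le _ _
    _ = (1 - t) * ‖a‖ + t * ‖b‖ := by
        rw [norm_mul, norm_mul, Complex.norm_real, Complex.norm_real, norm_of_nonneg ht.1,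
          norm_of_nonneg (by linarith [ht.2] : (0 : ℝ) ≤ 1 - t)]
    _ ≤ (1 - t) * R + t * R := by
        have := ht.1; have := ht.2
        gcongr
    _ = R := by ring

theorem root_norm {q : ℝ} (hq0 : 0 < q) (hq1 : q < 1) {R : ℝ} (hR : 0 ≤ R) (hε1 : ε ≤ 1) {a b : ℂ}
    (ha : ‖a‖ ≤ R) (hb : ‖b‖ ≤ R) {r : ℝ} (hr : 0 < r) (hab : r ≤ ‖a - b‖) :
    ‖XX hh hε a b‖ ^ 2 ≤ 2 * log (R + 2) + 8 / (q * (1 - q)) * ((2 * R + 2) / r) ^ q := by
  have h1q : 0 < 1 - q := by linarith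
  have hne : a ≠ b := by
    intro he
    rw [he, sub_self, norm_zero] at hab
    linarith
  set w : ℂ := ((R + 2 : ℝ) : ℂ) with hw
  have hwn : ‖w‖ = R + 2 := by rw [hw, Complex.norm_real, norm_of_nonneg (by linarith)]
  have hfar : ∀ z : ℂ, ‖z‖ ≤ R → 1 ≤ ‖z - w‖ := by
    intro z hz
    have : ‖w‖ ≤ ‖z‖ + ‖z - w‖ := by
      calc ‖w‖ = ‖z - (z - w)‖ := by ring_nf
        _ ≤ _ := norm_sub_le _ _
    linarith
  have hfar2 : ∀ z : ℂ, ‖z‖ ≤ R → ‖z - w‖ ≤ 2 * R + 2 := by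
    intro z hz
    have := norm_sub_le z w
    linarith
  -- the product with the far point
  have f1 : inner ℝ (XX hh hε a b) (HH hh hε w) ≤ log (R + 2) + cN ε w := by
    rw [real_inner_comm, inner_XX]
    have : ∫ t in (0 : ℝ)..1, inner ℝ (HH hh hε w) (HH hh hε (pt a b t)) ≤
        ∫ t in (0 : ℝ)..1, (log (R + 2) + cN ε w) := by
      apply intervalIntegral.integral_mono_on (by norm_num)
      · exact (Continuous.inner continuous_const (HH_pt_continuous hh hε a b)).intervalIntegrable _ _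
      · exact intervalIntegrable_const
      · intro t ht
        rw [real_inner_comm]
        exact inner_HH_far hh hε hR hε1 (pt_norm_le ha hb ht) (hfar _ (pt_norm_le ha hb ht))
    simpa using this
  rw [← real_inner_self_eq_norm_sq, inner_XX]
  have : ∫ t in (0 : ℝ)..1, inner ℝ (XX hh hε a b) (HH hh hε (pt a b t)) ≤
      ∫ t in (0 : ℝ)..1, (2 * log (R + 2) + 8 / (q * (1 - q)) * ((2 * R + 2) / r) ^ q) := by
    apply intervalIntegral.integral_mono_on (by norm_num)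
    · exact (Continuous.inner continuous_const (HH_pt_continuous hh hε a b)).intervalIntegrable _ _
    · exact intervalIntegrable_const
    · intro t ht
      have hz := pt_norm_le ha hb ht
      set z := pt a b t
      have a1 := inner_seg_HH_le hh hε hq0 hq1 hne z w
      rw [inner_sub_right, abs_le] at a1
      have a2 := cN_le_log hε hε1 hR hz
      have a3 : 8 / (q * (1 - q)) * (‖z - w‖ / ‖a - b‖) ^ q ≤
          8 / (q * (1 - q)) * ((2 * R + 2) / r) ^ q := by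
        have := hfar2 z hz
        gcongr
      linarith [a1.2]
  simpa using this

/-- the constant in the expectation for the root -/
noncomputable def C1 (ξ p θ b q R r : ℝ) : ℝ :=
  exp (p ^ 2 * ξ ^ 2 * (2 * log (R + 4) + 8 / (q * (1 - q)) * ((2 * R + 6) / r) ^ q)) *
    (100 * exp (4 * ξ ^ 2 * log (R + 16) + 4 * p ^ 2 * ξ ^ 2 * (1 / θ + 4)) * (r * θ) ^ (b - p))

theorem root_exp {ξ p θ b q C K R r : ℝ} {N : ℕ} (hp : Par ξ p θ b q C K N) (hε1 : ε ≤ 1) (hR : 0 ≤ R)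
    (hC : 8 / (q * (1 - q)) + 2 ≤ C) (hr : 0 < r) {n : ℕ} (hn : θ * (4 / 5) ^ n < ε) {u v : ℂ}
    (hu : ‖u‖ ≤ R) (h1 : r ≤ ‖u - v‖) (h2 : ‖u - v‖ ≤ 1) :
    ∫⁻ ω, ENNReal.ofReal (exp (-(p * ξ) * XX hh hε u v ω) * PsiO hh hε ξ p θ N n u v ω) ∂P ≤
      ENNReal.ofReal (C1 ξ p θ b q R r * ε ^ (1 - b - 2 * ξ ^ 2)) := by
  have hpp := hp
  obtain ⟨q0, q1', θ0, θ1, p1, pθ, b0, bp, C0, CC, Y, bb⟩ := hpp
  have h1q : 0 < 1 - q := by linarith
  have h0 : 0 < ‖u - v‖ := by linarith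
  have hv : ‖v‖ ≤ R + 2 := by
    calc ‖v‖ = ‖u - (u - v)‖ := by ring_nf
      _ ≤ ‖u‖ + ‖u - v‖ := norm_sub_le _ _
      _ ≤ _ := by linarith
  have hfuel : θ * ‖u - v‖ * (4 / 5) ^ n < ε := by
    refine lt_of_le_of_lt ?_ hn
    calc θ * ‖u - v‖ * (4 / 5) ^ n = (θ * (4 / 5 : ℝ) ^ n) * ‖u - v‖ := by ring
      _ ≤ (θ * (4 / 5 : ℝ) ^ n) * 1 := by gcongr
      _ = _ := by ring
  have main := claim2 hh hε hp hε1 (R := R + 14) (by linarith) n h0 (by linarith)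
    (XX_mem hh hε u v) (root_past hh hε q0 q1' hC h0 h2) hfuel
  refine main.trans ?_
  apply ENNReal.ofReal_le_ofReal
  have hnorm := root_norm hh hε q0 q1' (R := R + 2) (by linarith) hε1 (by linarith : ‖u‖ ≤ R + 2) hv hr h1
  have e1 : (‖u - v‖ / (ε / θ)) ^ (b - p) ≤ (r * θ) ^ (b - p) * ε ^ (p - b) := by
    have e2 : ‖u - v‖ / (ε / θ) = (‖u - v‖ * θ) * ε⁻¹ := by field_simp
    rw [e2, Real.mul_rpow (by positivity) (by positivity), Real.inv_rpow hε.le, ← Real.rpow_neg hε.le,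
      neg_sub]
    apply mul_le_mul_of_nonneg_right _ (by positivity)
    apply Real.rpow_le_rpow_of_nonpos (by positivity) _ (by linarith)
    gcongr
  have e3 : B0 ε ξ p θ (R + 14) = 100 * exp (4 * ξ ^ 2 * log (R + 16) + 4 * p ^ 2 * ξ ^ 2 * (1 / θ + 4)) *
      (ε ^ (1 - p) * ε ^ (-(2 * ξ ^ 2))) := by
    rw [B0, Real.rpow_def_of_pos hε (-(2 * ξ ^ 2))]
    rw [show 2 * ξ ^ 2 * (2 * log (R + 14 + 2) - log ε) + 4 * p ^ 2 * ξ ^ 2 * (1 / θ + 4) =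
      (4 * ξ ^ 2 * log (R + 16) + 4 * p ^ 2 * ξ ^ 2 * (1 / θ + 4)) + log ε * -(2 * ξ ^ 2) by
        rw [show R + 14 + 2 = R + 16 by ring]; ring, Real.exp_add]
    ring
  have e4 : ε ^ (1 - p) * ε ^ (-(2 * ξ ^ 2)) * ε ^ (p - b) = ε ^ (1 - b - 2 * ξ ^ 2) := by
    rw [← Real.rpow_add hε, ← Real.rpow_add hε]; congr 1; ring
  have e5 : exp (p ^ 2 * ξ ^ 2 * ‖XX hh hε u v‖ ^ 2) ≤
      exp (p ^ 2 * ξ ^ 2 * (2 * log (R + 4) + 8 / (q * (1 - q)) * ((2 * R + 6) / r) ^ q)) := by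
    apply Real.exp_le_exp.2
    apply mul_le_mul_of_nonneg_left _ (by positivity)
    rw [show R + 2 + 2 = R + 4 by ring, show 2 * (R + 2) + 2 = 2 * R + 6 by ring] at hnorm
    exact hnorm
  rw [e3]
  calc _ ≤ exp (p ^ 2 * ξ ^ 2 * (2 * log (R + 4) + 8 / (q * (1 - q)) * ((2 * R + 6) / r) ^ q)) *
        (100 * exp (4 * ξ ^ 2 * log (R + 16) + 4 * p ^ 2 * ξ ^ 2 * (1 / θ + 4)) *
        (ε ^ (1 - p) * ε ^ (-(2 * ξ ^ 2))) * ((r * θ) ^ (b - p) * ε ^ (p - b))) := by gcongr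
    _ = C1 ξ p θ b q R r * (ε ^ (1 - p) * ε ^ (-(2 * ξ ^ 2)) * ε ^ (p - b)) := by rw [C1]; ring
    _ = _ := by rw [e4]

end Pool.Agent.H964
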