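import Pool.Agent.H964.LF.Basic

/-!
# Averages of the field over segments, and their potentials
-/

set_option autoImplicit false

namespace Pool.Agent.H964

open MeasureTheory ProbabilityTheory Real Filter Topology
open Pool.Agent.Y980

/-- the point `a + t (b - a)` -/
noncomputable def pt (a b : ℂ) (t : ℝ) : ℂ := a + t * (b - a)

theorem pt_continuous (a b : ℂ) : Continuous (pt a b) := by
  unfold pt; fun_prop

theorem pt_sub_pt (a b a' b' : ℂ) (t : ℝ) :
    pt a b t - pt a' b' t = (1 - t : ℝ) * (a - a') + t * (b - b') := by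
  unfold pt; push_cast; ring

theorem norm_pt_sub_pt_le {a b a' b' : ℂ} {t d : ℝ} (ht : t ∈ Set.Icc (0 : ℝ) 1)
    (h1 : ‖a - a'‖ ≤ d) (h2 : ‖b - b'‖ ≤ d) : ‖pt a b t - pt a' b' t‖ ≤ d := by
  rw [pt_sub_pt]
  calc ‖((1 - t : ℝ) : ℂ) * (a - a') + t * (b - b')‖ ≤ ‖((1 - t : ℝ) : ℂ) * (a - a')‖ + ‖(t : ℂ) * (b - b')‖ :=
        norm_add_le _ _
    _ = (1 - t) * ‖a - a'‖ + t * ‖b - b'‖ := by
        rw [norm_mul, norm_mul, Complex.norm_real, Complex.norm_real, norm_of_nonneg ht.1,
          norm_of_nonneg (by linarith [ht.2] : (0 : ℝ) ≤ 1 - t)]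
    _ ≤ (1 - t) * d + t * d := by
        have := ht.1; have := ht.2
        gcongr
    _ = d := by ring

/-! ### a one-dimensional integral -/

theorem integral_abs_rpow_le {q : ℝ} (hq0 : 0 < q) (hq1 : q < 1) (c : ℝ) :
    IntervalIntegrable (fun t : ℝ => |t - c| ^ (-q)) volume 0 1 ∧
    ∫ t in (0 : ℝ)..1, |t - c| ^ (-q) ≤ 2 / (1 - q) := by
  have h1q : 0 < 1 - q := by linarith
  have key : ∀ a b : ℝ, a ≤ b → b - a ≤ 1 →
      IntervalIntegrable (fun t : ℝ => (t - a) ^ (-q)) volume a b ∧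
      ∫ t in a..b, (t - a) ^ (-q) ≤ 1 / (1 - q) := by
    intro a b hab hab1
    have hi : IntervalIntegrable (fun t : ℝ => t ^ (-q)) volume 0 (b - a) :=
      intervalIntegral.intervalIntegrable_rpow' (by linarith)
    refine ⟨?_, ?_⟩
    · have := hi.comp_sub_right a
      simpa using this
    · rw [intervalIntegral.integral_comp_sub_right (fun t => t ^ (-q)) a, sub_self,
        integral_rpow (Or.inl (by linarith))]
      rw [Real.zero_rpow (by linarith : -q + 1 ≠ 0), sub_zero, show -q + 1 = 1 - q by ring]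
      apply div_le_div_of_nonneg_right _ h1q.le
      calc (b - a) ^ (1 - q) ≤ 1 ^ (1 - q) := by
            apply Real.rpow_le_rpow (by linarith) hab1 h1q.le
        _ = 1 := Real.one_rpow _
  have key2 : ∀ a b : ℝ, a ≤ b → b - a ≤ 1 →
      IntervalIntegrable (fun t : ℝ => (b - t) ^ (-q)) volume a b ∧
      ∫ t in a..b, (b - t) ^ (-q) ≤ 1 / (1 - q) := by
    intro a b hab hab1
    have hi : IntervalIntegrable (fun t : ℝ => t ^ (-q)) volume 0 (b - a) :=
      intervalIntegral.intervalIntegrable_rpow' (by linarith)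
    refine ⟨?_, ?_⟩
    · have := (hi.comp_sub_left b).symm
      simpa using this
    · rw [intervalIntegral.integral_comp_sub_left (fun t => t ^ (-q)) b, sub_self,
        integral_rpow (Or.inl (by linarith))]
      rw [Real.zero_rpow (by linarith : -q + 1 ≠ 0), sub_zero, show -q + 1 = 1 - q by ring]
      apply div_le_div_of_nonneg_right _ h1q.le
      calc (b - a) ^ (1 - q) ≤ 1 ^ (1 - q) := by
            apply Real.rpow_le_rpow (by linarith) hab1 h1q.le
        _ = 1 := Real.one_rpow _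
  have h2 : 1 / (1 - q) ≤ 2 / (1 - q) := by
    apply div_le_div_of_nonneg_right _ h1q.le; norm_num
  rcases le_or_gt c 0 with hc | hc
  · -- `c ≤ 0`
    have hb := key 0 1 (by norm_num) (by norm_num)
    simp only [sub_zero] at hb
    have hcont : IntervalIntegrable (fun t : ℝ => |t - c| ^ (-q)) volume 0 1 := by
      have hi : IntervalIntegrable (fun t : ℝ => t ^ (-q)) volume (0 - c) (1 - c) := by
        exact intervalIntegral.intervalIntegrable_rpow' (by linarith)
      have h3 := hi.comp_sub_right c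
      have h4 : IntervalIntegrable (fun t : ℝ => (t - c) ^ (-q)) volume 0 1 := by
        simpa using h3
      apply h4.congr
      intro t ht
      rw [Set.uIoc_of_le (by norm_num)] at ht
      simp only
      rw [abs_of_pos (by linarith [ht.1])]
    refine ⟨hcont, le_trans ?_ (hb.2.trans h2)⟩
    apply intervalIntegral.integral_mono_on_of_le_Ioo (by norm_num) hcont hb.1
    intro t ht
    rw [abs_of_pos (by linarith [ht.1])]
    apply Real.rpow_le_rpow_of_nonpos ht.1 (by linarith) (by linarith)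
  rcases le_or_gt 1 c with hc1 | hc1
  · have hb := key2 0 1 (by norm_num) (by norm_num)
    have hcont : IntervalIntegrable (fun t : ℝ => |t - c| ^ (-q)) volume 0 1 := by
      have hi : IntervalIntegrable (fun t : ℝ => t ^ (-q)) volume (c - 0) (c - 1) := by
        exact intervalIntegral.intervalIntegrable_rpow' (by linarith)
      have h3 := hi.comp_sub_left c
      have h4 : IntervalIntegrable (fun t : ℝ => (c - t) ^ (-q)) volume 0 1 := by
        simpa using h3
      apply h4.congr
      intro t ht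
      rw [Set.uIoc_of_le (by norm_num)] at ht
      simp only
      rw [abs_of_nonpos (by linarith [ht.2])]
      congr 1; ring
    refine ⟨hcont, le_trans ?_ (hb.2.trans h2)⟩
    apply intervalIntegral.integral_mono_on_of_le_Ioo (by norm_num) hcont hb.1
    intro t ht
    rw [abs_of_nonpos (by linarith [ht.2])]
    apply Real.rpow_le_rpow_of_nonpos (by linarith [ht.2]) (by linarith) (by linarith)
  · have hb := key c 1 hc1.le (by linarith)
    have ha := key2 0 c hc.le (by linarith)
    have ia : IntervalIntegrable (fun t : ℝ => |t - c| ^ (-q)) volume 0 c := by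
      apply ha.1.congr
      intro t ht
      rw [Set.uIoc_of_le hc.le] at ht
      simp only
      rw [abs_of_nonpos (by linarith [ht.2])]
      congr 1; ring
    have ib : IntervalIntegrable (fun t : ℝ => |t - c| ^ (-q)) volume c 1 := by
      apply hb.1.congr
      intro t ht
      rw [Set.uIoc_of_le hc1.le] at ht
      simp only
      rw [abs_of_pos (by linarith [ht.1])]
    refine ⟨ia.trans ib, ?_⟩
    rw [← intervalIntegral.integral_add_adjacent_intervals ia ib]
    have e1 : ∫ t in (0 : ℝ)..c, |t - c| ^ (-q) = ∫ t in (0 : ℝ)..c, (c - t) ^ (-q) := by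
      apply intervalIntegral.integral_congr
      intro t ht
      rw [Set.uIcc_of_le hc.le] at ht
      simp only
      rw [abs_of_nonpos (by linarith [ht.2])]
      congr 1; ring
    have e2 : ∫ t in c..1, |t - c| ^ (-q) = ∫ t in c..1, (t - c) ^ (-q) := by
      apply intervalIntegral.integral_congr
      intro t ht
      rw [Set.uIcc_of_le hc1.le] at ht
      simp only
      rw [abs_of_nonneg (by linarith [ht.1])]
    rw [e1, e2]
    calc _ ≤ 1 / (1 - q) + 1 / (1 - q) := add_le_add ha.2 hb.2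
      _ = 2 / (1 - q) := by ring

/-! ### the difference of two potentials of a circle -/

theorem log_one_add_le {q y : ℝ} (hq0 : 0 < q) (hq1 : q < 1) (hy : 0 ≤ y) :
    log (1 + y) ≤ y ^ q / q := by
  have h1 : (1 + y) ^ q ≤ 1 + y ^ q := by
    have := Real.rpow_add_le_add_rpow (p := q) zero_le_one hy hq0.le hq1.le
    simpa using this
  have h2 : 0 ≤ y ^ q := by positivity
  have h3 : log ((1 + y) ^ q) ≤ y ^ q := by
    calc log ((1 + y) ^ q) ≤ log (1 + y ^ q) := log_le_log (by positivity) h1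
      _ ≤ (1 + y ^ q) - 1 := log_le_sub_one_of_pos (by positivity)
      _ = y ^ q := by ring
  rw [log_rpow (by positivity)] at h3
  rw [le_div_iff₀ hq0]
  linarith

theorem log_max_sub_le {ε : ℝ} (hε : 0 < ε) {q : ℝ} (hq0 : 0 < q) (hq1 : q < 1)
    {x y z w : ℂ} (hx : ‖x - y‖ = ε) (hyw : y ≠ w) :
    log (max ε ‖x - z‖) - log (max ε ‖x - w‖) ≤ (2 * ‖z - w‖ / ‖y - w‖) ^ q / q := by
  have hpos : 0 < ‖y - w‖ := norm_pos_iff.2 (sub_ne_zero.2 hyw)
  have h1 : ‖x - z‖ ≤ ‖x - w‖ + ‖z - w‖ := by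
    calc ‖x - z‖ = ‖(x - w) - (z - w)‖ := by ring_nf
      _ ≤ ‖x - w‖ + ‖z - w‖ := norm_sub_le _ _
  have h2 : ‖y - w‖ ≤ ‖x - w‖ + ε := by
    calc ‖y - w‖ = ‖(x - w) - (x - y)‖ := by ring_nf
      _ ≤ ‖x - w‖ + ‖x - y‖ := norm_sub_le _ _
      _ = _ := by rw [hx]
  set M := max ε ‖x - w‖ with hM
  have hM0 : 0 < M := lt_max_of_lt_left hε
  have hM1 : ‖y - w‖ / 2 ≤ M := by
    have h3 : ε ≤ M := le_max_left _ _
    have h4 : ‖x - w‖ ≤ M := le_max_right _ _
    linarith
  have h5 : max ε ‖x - z‖ ≤ M + ‖z - w‖ := by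
    apply max_le
    · have h3 : ε ≤ M := le_max_left _ _
      linarith [norm_nonneg (z - w)]
    · have h4 : ‖x - w‖ ≤ M := le_max_right _ _
      linarith
  have h6 : log (max ε ‖x - z‖) - log M ≤ log (1 + 2 * ‖z - w‖ / ‖y - w‖) := by
    rw [← log_div (lt_max_of_lt_left hε).ne' hM0.ne']
    apply log_le_log (div_pos (lt_max_of_lt_left hε) hM0)
    rw [div_le_iff₀ hM0]
    calc max ε ‖x - z‖ ≤ M + ‖z - w‖ := h5
      _ ≤ M + (2 * ‖z - w‖ / ‖y - w‖) * M := by
          have : ‖z - w‖ ≤ (2 * ‖z - w‖ / ‖y - w‖) * M := by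
            calc ‖z - w‖ = (2 * ‖z - w‖ / ‖y - w‖) * (‖y - w‖ / 2) := by field_simp
              _ ≤ _ := by gcongr
          linarith
      _ = _ := by ring
  exact h6.trans (log_one_add_le hq0 hq1 (by positivity))

theorem cA_sub_le {ε : ℝ} (hε : 0 < ε) {q : ℝ} (hq0 : 0 < q) (hq1 : q < 1)
    {y z w : ℂ} (hyz : y ≠ z) (hyw : y ≠ w) :
    |cA ε y ε z - cA ε y ε w| ≤
      (2 * ‖z - w‖ / ‖y - z‖) ^ q / q + (2 * ‖z - w‖ / ‖y - w‖) ^ q / q := by
  have e : cA ε y ε z - cA ε y ε w =
      circleAverage (fun x => log (max ε ‖x - z‖) - log (max ε ‖x - w‖)) y ε := by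
    unfold cA
    rw [circleAverage_fun_sub (ci_of_cont (continuous_logmax hε z) _ _)
      (ci_of_cont (continuous_logmax hε w) _ _)]
  have hc : Continuous (fun x : ℂ => log (max ε ‖x - z‖) - log (max ε ‖x - w‖)) :=
    (continuous_logmax hε z).sub (continuous_logmax hε w)
  have p1 : 0 ≤ (2 * ‖z - w‖ / ‖y - z‖) ^ q / q := by positivity
  have p2 : 0 ≤ (2 * ‖z - w‖ / ‖y - w‖) ^ q / q := by positivity
  rw [e, abs_le]
  constructor
  · apply le_avg hc
    intro x hx
    rw [mem_sphere_iff_norm, abs_of_pos hε] at hx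
    have := log_max_sub_le hε hq0 hq1 (z := w) hx hyz
    rw [norm_sub_rev w z] at this
    linarith
  · apply avg_le hc
    intro x hx
    rw [mem_sphere_iff_norm, abs_of_pos hε] at hx
    have := log_max_sub_le hε hq0 hq1 (z := z) hx hyw
    linarith

/-! ### the difference of two potentials of a segment -/

theorem seg_pot_le {ε : ℝ} (hε : 0 < ε) {q : ℝ} (hq0 : 0 < q) (hq1 : q < 1)
    {a b z w : ℂ} (hab : a ≠ b) (hc : Continuous fun y => cA ε y ε z - cA ε y ε w) :
    |∫ t in (0 : ℝ)..1, (cA ε (pt a b t) ε z - cA ε (pt a b t) ε w)| ≤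
      8 / (q * (1 - q)) * (‖z - w‖ / ‖a - b‖) ^ q := by
  have h1q : 0 < 1 - q := by linarith
  have hba : 0 < ‖a - b‖ := norm_pos_iff.2 (sub_ne_zero.2 hab)
  set cz : ℝ := ((z - a) / (b - a)).re with hcz
  set cw : ℝ := ((w - a) / (b - a)).re with hcw
  have hba' : b - a ≠ 0 := sub_ne_zero.2 hab.symm
  have low : ∀ (x : ℂ) (t : ℝ), ‖a - b‖ * |t - ((x - a) / (b - a)).re| ≤ ‖pt a b t - x‖ := by
    intro x t
    have e : pt a b t - x = (b - a) * ((t : ℂ) - (x - a) / (b - a)) := by
      unfold pt; field_simp; ring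
    rw [e, norm_mul, norm_sub_rev a b]
    gcongr
    have := Complex.abs_re_le_norm ((t : ℂ) - (x - a) / (b - a))
    simpa using this
  obtain ⟨iz, Iz⟩ := integral_abs_rpow_le hq0 hq1 cz
  obtain ⟨iw, Iw⟩ := integral_abs_rpow_le hq0 hq1 cw
  set K : ℝ := (2 * ‖z - w‖ / ‖a - b‖) ^ q / q with hK
  have hK0 : 0 ≤ K := by positivity
  have bound : ∀ x : ℂ, ∀ t : ℝ, t ≠ ((x - a) / (b - a)).re →
      (2 * ‖z - w‖ / ‖pt a b t - x‖) ^ q / q ≤ K * |t - ((x - a) / (b - a)).re| ^ (-q) := by
    intro x t ht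
    have hp : 0 < |t - ((x - a) / (b - a)).re| := abs_pos.2 (sub_ne_zero.2 ht)
    rw [hK, div_mul_eq_mul_div]
    apply div_le_div_of_nonneg_right _ hq0.le
    rw [Real.rpow_neg hp.le, ← Real.inv_rpow hp.le, ← Real.mul_rpow (by positivity) (by positivity)]
    apply Real.rpow_le_rpow (by positivity) _ hq0.le
    rw [← div_eq_mul_inv, div_div]
    apply div_le_div_of_nonneg_left (by positivity) (by positivity) (low x t)
  have hint : IntervalIntegrable (fun t => K * |t - cz| ^ (-q) + K * |t - cw| ^ (-q)) volume 0 1 :=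
    (iz.const_mul K).add (iw.const_mul K)
  have hcont : Continuous fun t => cA ε (pt a b t) ε z - cA ε (pt a b t) ε w :=
    hc.comp (pt_continuous a b)
  calc |∫ t in (0 : ℝ)..1, (cA ε (pt a b t) ε z - cA ε (pt a b t) ε w)|
      ≤ ∫ t in (0 : ℝ)..1, |cA ε (pt a b t) ε z - cA ε (pt a b t) ε w| :=
        intervalIntegral.abs_integral_le_integral_abs (by norm_num)
    _ ≤ ∫ t in (0 : ℝ)..1, (K * |t - cz| ^ (-q) + K * |t - cw| ^ (-q)) := by
        apply intervalIntegral.integral_mono_ae (by norm_num)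
          (hcont.abs.intervalIntegrable _ _) hint
        have hz : ∀ᵐ t : ℝ, t ≠ cz := by
          rw [ae_iff]; simp
        have hw : ∀ᵐ t : ℝ, t ≠ cw := by
          rw [ae_iff]; simp
        filter_upwards [hz, hw] with t htz htw
        have n1 : pt a b t ≠ z := by
          intro hh
          have h0 := low z t
          rw [hh, sub_self, norm_zero] at h0
          have h2 : 0 < ‖a - b‖ * |t - cz| := mul_pos hba (abs_pos.2 (sub_ne_zero.2 htz))
          rw [hcz] at h2
          linarith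
        have n2 : pt a b t ≠ w := by
          intro hh
          have h0 := low w t
          rw [hh, sub_self, norm_zero] at h0
          have h2 : 0 < ‖a - b‖ * |t - cw| := mul_pos hba (abs_pos.2 (sub_ne_zero.2 htw))
          rw [hcw] at h2
          linarith
        exact (cA_sub_le hε hq0 hq1 n1 n2).trans (add_le_add (bound z t htz) (bound w t htw))
    _ = K * (∫ t in (0 : ℝ)..1, |t - cz| ^ (-q)) + K * ∫ t in (0 : ℝ)..1, |t - cw| ^ (-q) := by
        rw [intervalIntegral.integral_add (iz.const_mul K) (iw.const_mul K),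
          intervalIntegral.integral_const_mul, intervalIntegral.integral_const_mul]
    _ ≤ K * (2 / (1 - q)) + K * (2 / (1 - q)) := by gcongr
    _ ≤ 8 / (q * (1 - q)) * (‖z - w‖ / ‖a - b‖) ^ q := by
        have e1 : (2 * ‖z - w‖ / ‖a - b‖) ^ q = 2 ^ q * (‖z - w‖ / ‖a - b‖) ^ q := by
          rw [mul_div_assoc, Real.mul_rpow (by norm_num) (by positivity)]
        have e2 : (2 : ℝ) ^ q ≤ 2 := by
          calc (2 : ℝ) ^ q ≤ 2 ^ (1 : ℝ) := Real.rpow_le_rpow_of_exponent_le (by norm_num) hq1.le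
            _ = 2 := Real.rpow_one _
        rw [hK, e1]
        have e3 : 2 ^ q * (‖z - w‖ / ‖a - b‖) ^ q / q * (2 / (1 - q)) +
            2 ^ q * (‖z - w‖ / ‖a - b‖) ^ q / q * (2 / (1 - q)) =
            2 ^ q * (4 / (q * (1 - q)) * (‖z - w‖ / ‖a - b‖) ^ q) := by
          field_simp; ring
        have e4 : 8 / (q * (1 - q)) * (‖z - w‖ / ‖a - b‖) ^ q =
            2 * (4 / (q * (1 - q)) * (‖z - w‖ / ‖a - b‖) ^ q) := by
          field_simp; ring
        rw [e3, e4]
        gcongr

end Pool.Agent.H964
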