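import Pool.Agent.H964.LF.Seg

/-!
# Averages of the field over segments
-/

set_option autoImplicit false

namespace Pool.Agent.H964

open MeasureTheory ProbabilityTheory Real Filter Topology
open Pool.Agent.Y980

variable {Ω : Type*} [MeasurableSpace Ω] {P : Measure Ω} {h : ℝ → ℂ → Ω → ℝ}
variable (hh : IsGFF P h) {ε : ℝ} (hε : 0 < ε)

/-- the average of the circle averages over the segment from `a` to `b` -/
noncomputable def XX (a b : ℂ) : Lp ℝ 2 P := ∫ t in (0 : ℝ)..1, HH hh hε (pt a b t)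

theorem HH_pt_continuous (a b : ℂ) : Continuous fun t => HH hh hε (pt a b t) :=
  (HH_continuous hh hε).comp (pt_continuous a b)

theorem inner_XX (D : Lp ℝ 2 P) (a b : ℂ) :
    inner ℝ D (XX hh hε a b) = ∫ t in (0 : ℝ)..1, inner ℝ D (HH hh hε (pt a b t)) := by
  have := (innerSL ℝ D).intervalIntegral_comp_comm
    ((HH_pt_continuous hh hε a b).intervalIntegrable (μ := volume) 0 1)
  simp only [innerSL_apply_apply] at this
  rw [XX, this]

theorem pt_half_left (u v : ℂ) (t : ℝ) : pt u v (t / 2) = pt u ((u + v) / 2) t := by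
  unfold pt; push_cast; ring

theorem pt_half_right (u v : ℂ) (t : ℝ) : pt u v (t / 2 + 1 / 2) = pt ((u + v) / 2) v t := by
  unfold pt; push_cast; ring

theorem XX_split (u v : ℂ) :
    XX hh hε u v = (1 / 2 : ℝ) • (XX hh hε u ((u + v) / 2) + XX hh hε ((u + v) / 2) v) := by
  have hc := HH_pt_continuous hh hε u v
  have e : XX hh hε u v = (∫ t in (0 : ℝ)..(1 / 2), HH hh hε (pt u v t)) +
      ∫ t in (1 / 2 : ℝ)..1, HH hh hε (pt u v t) := by
    rw [XX, intervalIntegral.integral_add_adjacent_intervals] <;>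
    exact hc.intervalIntegrable _ _
  have e1 : XX hh hε u ((u + v) / 2) = (2 : ℝ) • ∫ t in (0 : ℝ)..(1 / 2), HH hh hε (pt u v t) := by
    rw [XX]
    have := intervalIntegral.integral_comp_div (a := 0) (b := 1)
      (fun t => HH hh hε (pt u v t)) (two_ne_zero (α := ℝ))
    simp only [zero_div] at this
    rw [← this]
    apply intervalIntegral.integral_congr
    intro t _
    simp only [pt_half_left]
  have e2 : XX hh hε ((u + v) / 2) v = (2 : ℝ) • ∫ t in (1 / 2 : ℝ)..1, HH hh hε (pt u v t) := by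
    rw [XX]
    have := intervalIntegral.integral_comp_div_add (a := 0) (b := 1)
      (fun t => HH hh hε (pt u v t)) (two_ne_zero (α := ℝ)) (1 / 2)
    rw [show (0 : ℝ) / 2 + 1 / 2 = 1 / 2 by norm_num, show (1 : ℝ) / 2 + 1 / 2 = 1 by norm_num] at this
    rw [← this]
    apply intervalIntegral.integral_congr
    intro t _
    simp only [pt_half_right]
  rw [e, e1, e2, smul_add, smul_smul, smul_smul]
  norm_num

/-- the contribution of a refinement: polygons minus segment -/
noncomputable def DD (u v u' c c' v' : ℂ) : Lp ℝ 2 P :=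
  (1 / 2 : ℝ) • (XX hh hε u' c + XX hh hε c' v') - XX hh hε u v

theorem inner_XX_sub_le {D : Lp ℝ 2 P} {a b a' b' : ℂ} {d B : ℝ}
    (h1 : ‖a - a'‖ ≤ d) (h2 : ‖b - b'‖ ≤ d)
    (hD : ∀ z w : ℂ, ‖z - w‖ ≤ d → |inner ℝ D (HH hh hε z - HH hh hε w)| ≤ B) :
    |inner ℝ D (XX hh hε a b - XX hh hε a' b')| ≤ B := by
  rw [inner_sub_right, inner_XX, inner_XX, ← intervalIntegral.integral_sub]
  · have : ‖∫ t in (0 : ℝ)..1, (inner ℝ D (HH hh hε (pt a b t)) - inner ℝ D (HH hh hε (pt a' b' t)))‖ ≤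
        B * |1 - 0| := by
      apply intervalIntegral.norm_integral_le_of_norm_le_const
      intro t ht
      rw [Set.uIoc_of_le (by norm_num)] at ht
      rw [← inner_sub_right, Real.norm_eq_abs]
      exact hD _ _ (norm_pt_sub_pt_le ⟨ht.1.le, ht.2⟩ h1 h2)
    simpa using this
  · exact (Continuous.inner continuous_const (HH_pt_continuous hh hε a b)).intervalIntegrable _ _
  · exact (Continuous.inner continuous_const (HH_pt_continuous hh hε a' b')).intervalIntegrable _ _

theorem inner_DD_le {D : Lp ℝ 2 P} {u v u' c c' v' : ℂ} {d B : ℝ}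
    (h1 : ‖u' - u‖ ≤ d) (h2 : ‖c - (u + v) / 2‖ ≤ d) (h3 : ‖c' - (u + v) / 2‖ ≤ d) (h4 : ‖v' - v‖ ≤ d)
    (hD : ∀ z w : ℂ, ‖z - w‖ ≤ d → |inner ℝ D (HH hh hε z - HH hh hε w)| ≤ B) :
    |inner ℝ D (DD hh hε u v u' c c' v')| ≤ B := by
  have e : DD hh hε u v u' c c' v' = (1 / 2 : ℝ) • ((XX hh hε u' c - XX hh hε u ((u + v) / 2)) +
      (XX hh hε c' v' - XX hh hε ((u + v) / 2) v)) := by
    rw [DD, XX_split hh hε u v]
    module
  rw [e, inner_smul_right, inner_add_right]
  have a1 := inner_XX_sub_le hh hε h1 h2 hD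
  have a2 := inner_XX_sub_le hh hε h3 h4 hD
  rw [abs_mul]
  have := abs_add_le (inner ℝ D (XX hh hε u' c - XX hh hε u ((u + v) / 2)))
    (inner ℝ D (XX hh hε c' v' - XX hh hε ((u + v) / 2) v))
  rw [abs_of_pos (by norm_num : (0 : ℝ) < 1 / 2)]
  linarith

/-- the potential of a segment -/
theorem inner_seg_HH_le {q : ℝ} (hq0 : 0 < q) (hq1 : q < 1) {a b : ℂ} (hab : a ≠ b) (z w : ℂ) :
    |inner ℝ (XX hh hε a b) (HH hh hε z - HH hh hε w) - (cN ε z - cN ε w)| ≤
      8 / (q * (1 - q)) * (‖z - w‖ / ‖a - b‖) ^ q := by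
  have hc : Continuous fun y => cA ε y ε w - cA ε y ε z := by
    have e : (fun y => cA ε y ε w - cA ε y ε z) =
        fun y => inner ℝ (HH hh hε y) (HH hh hε z - HH hh hε w) - (cN ε z - cN ε w) := by
      ext y
      rw [inner_sub_right, HH_inner, HH_inner]; ring
    rw [e]
    exact ((HH_continuous hh hε).inner continuous_const).sub continuous_const
  have e : inner ℝ (XX hh hε a b) (HH hh hε z - HH hh hε w) - (cN ε z - cN ε w) =
      ∫ t in (0 : ℝ)..1, (cA ε (pt a b t) ε w - cA ε (pt a b t) ε z) := by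
    rw [real_inner_comm, inner_XX]
    have : (cN ε z - cN ε w) = ∫ t in (0 : ℝ)..1, (cN ε z - cN ε w) := by simp
    rw [this, ← intervalIntegral.integral_sub]
    · apply intervalIntegral.integral_congr
      intro t _
      simp only
      rw [real_inner_comm, inner_sub_right, HH_inner, HH_inner]; ring
    · exact (Continuous.inner continuous_const (HH_pt_continuous hh hε a b)).intervalIntegrable _ _
    · exact intervalIntegrable_const
  rw [e, norm_sub_rev z w]
  exact seg_pot_le hε hq0 hq1 hab hc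

theorem inner_DD_HH_le {q : ℝ} (hq0 : 0 < q) (hq1 : q < 1) {u v u' c c' v' : ℂ} {r : ℝ} (hr : 0 < r)
    (h0 : r ≤ ‖u - v‖) (h1 : r ≤ ‖u' - c‖) (h2 : r ≤ ‖c' - v'‖) (z w : ℂ) :
    |inner ℝ (DD hh hε u v u' c c' v') (HH hh hε z - HH hh hε w)| ≤
      16 / (q * (1 - q)) * (‖z - w‖ / r) ^ q := by
  have h1q : 0 < 1 - q := by linarith
  have ne : ∀ {a b : ℂ}, r ≤ ‖a - b‖ → a ≠ b := by
    intro a b hab he
    rw [he, sub_self, norm_zero] at hab
    linarith
  have mono : ∀ {a b : ℂ}, r ≤ ‖a - b‖ → 8 / (q * (1 - q)) * (‖z - w‖ / ‖a - b‖) ^ q ≤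
      8 / (q * (1 - q)) * (‖z - w‖ / r) ^ q := by
    intro a b hab
    gcongr
  have a0 := (inner_seg_HH_le hh hε hq0 hq1 (ne h0) z w).trans (mono h0)
  have a1 := (inner_seg_HH_le hh hε hq0 hq1 (ne h1) z w).trans (mono h1)
  have a2 := (inner_seg_HH_le hh hε hq0 hq1 (ne h2) z w).trans (mono h2)
  rw [DD, inner_sub_left, real_inner_smul_left, inner_add_left]
  have e : 16 / (q * (1 - q)) * (‖z - w‖ / r) ^ q = 2 * (8 / (q * (1 - q)) * (‖z - w‖ / r) ^ q) := by
    ring
  rw [e]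
  rw [abs_le] at a0 a1 a2 ⊢
  constructor <;> linarith [a0.1, a0.2, a1.1, a1.2, a2.1, a2.2]

/-- the closed span of the field -/
noncomputable def GG : Submodule ℝ (Lp ℝ 2 P) :=
  (Submodule.span ℝ (Set.range (HH hh hε))).topologicalClosure

theorem HH_mem (z : ℂ) : HH hh hε z ∈ GG hh hε :=
  Submodule.le_topologicalClosure _ (Submodule.subset_span ⟨z, rfl⟩)

theorem GG_closed : IsClosed (GG hh hε : Set (Lp ℝ 2 P)) := Submodule.isClosed_topologicalClosure _

theorem prob01 : IsProbabilityMeasure (volume.restrict (Set.Ioc (0 : ℝ) 1)) := ⟨by simp⟩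

theorem XX_mem (a b : ℂ) : XX hh hε a b ∈ GG hh hε := by
  rw [XX, intervalIntegral.integral_of_le (by norm_num)]
  have := prob01
  apply Convex.integral_mem (GG hh hε).convex (GG_closed hh hε)
  · exact Eventually.of_forall fun t => HH_mem hh hε _
  · have := (HH_pt_continuous hh hε a b).intervalIntegrable (μ := volume) 0 1
    rwa [intervalIntegrable_iff_integrableOn_Ioc_of_le (by norm_num)] at this

theorem DD_mem (u v u' c c' v' : ℂ) : DD hh hε u v u' c c' v' ∈ GG hh hε :=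
  Submodule.sub_mem _ (Submodule.smul_mem _ _ (Submodule.add_mem _ (XX_mem hh hε _ _)
    (XX_mem hh hε _ _))) (XX_mem hh hε _ _)

theorem norm_XX_sub_HH_le {a b x : ℂ} {B : ℝ} (hB : ∀ t ∈ Set.Icc (0 : ℝ) 1, ‖pt a b t - x‖ ≤ B) :
    ‖XX hh hε a b - HH hh hε x‖ ^ 2 ≤ 2 * (B / ε) := by
  have hB0 : 0 ≤ B := (norm_nonneg _).trans (hB 0 (by norm_num))
  have e : XX hh hε a b - HH hh hε x = ∫ t in (0 : ℝ)..1, (HH hh hε (pt a b t) - HH hh hε x) := by
    rw [intervalIntegral.integral_sub ((HH_pt_continuous hh hε a b).intervalIntegrable _ _)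
      intervalIntegrable_const]
    simp [XX]
  have h1 : ‖XX hh hε a b - HH hh hε x‖ ≤ √(2 * (B / ε)) := by
    rw [e]
    have : ‖∫ t in (0 : ℝ)..1, (HH hh hε (pt a b t) - HH hh hε x)‖ ≤ √(2 * (B / ε)) * |1 - 0| := by
      apply intervalIntegral.norm_integral_le_of_norm_le_const
      intro t ht
      rw [Set.uIoc_of_le (by norm_num)] at ht
      apply Real.le_sqrt_of_sq_le
      refine (HH_dist_sq_le hh hε _ _).trans ?_
      have := hB t ⟨ht.1.le, ht.2⟩
      gcongr
    simpa using this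
  calc ‖XX hh hε a b - HH hh hε x‖ ^ 2 ≤ √(2 * (B / ε)) ^ 2 := by gcongr
    _ = _ := Real.sq_sqrt (by positivity)

end Pool.Agent.H964
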